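import Mathlib

set_option autoImplicit false

/-!
# PK-31: Koenig's lemma for directed graphs

Let `S` be a relation on `V` with finite sets of out-neighbours, and let infinitely many vertices be
reachable from `x0`. Then there is an injective infinite path from `x0`.

Proof. `Rn n y`: there is a path of length `n` from `x0` to `y`; `d y` = the least such `n` for
reachable `y` (`Nat.find`). Call a path `x0 = z_0, ..., z_n` geodesic if `d z_i = i`. Let `D x` (for `x`
reachable) be the set of reachable `y` such that some path from `x` to `y` has length `d y - d x`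
(and `d x ≤ d y`). `D x0` is the set of all reachable vertices, infinite. If `D x` is infinite then
there is an out-neighbour `x'` of `x` with `d x' = d x + 1` and `D x'` infinite: for `y ∈ D x`, `y ≠ x`,
take the first step `x → x'` of a path of length `d y - d x ≥ 1`; then `d x' ≤ d x + 1` and
`d y ≤ d x' + (d y - d x - 1)` force `d x' = d x + 1` and `y ∈ D x'`; so `D x ⊆ {x} ∪ ⋃ D x'` over the
finitely many such `x'`. Choose `f` by recursion (`exists_seq`-type argument on the subtype
`{x // reachable, D x infinite}`); `d (f n) = n`, so `f` is injective.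
-/

namespace Pool.Agent.Helper96.PK

/-- There is a path of length `n` from `x` to `y`. -/
private def PL {V : Type*} (S : V → V → Prop) : ℕ → V → V → Prop
  | 0, x, y => x = y
  | n + 1, x, y => ∃ z, S x z ∧ PL S n z y

private lemma PL_trans {V : Type*} (S : V → V → Prop) (n m : ℕ) :
    ∀ x y z : V, PL S n x y → PL S m y z → PL S (n + m) x z := by
  induction n with
  | zero =>
    intro x y z h1 h2
    have h1' : x = y := h1
    subst h1'
    simpa using h2
  | succ n ih =>
    intro x y z h1 h2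
    obtain ⟨w, hw, h1'⟩ := h1
    have h3 : PL S (n + m) w z := ih w y z h1' h2
    have e : n + 1 + m = (n + m) + 1 := by omega
    rw [e]
    exact ⟨w, hw, h3⟩

private lemma PL_of_reach {V : Type*} (S : V → V → Prop) (x y : V)
    (h : Relation.ReflTransGen S x y) : ∃ n, PL S n x y := by
  induction h with
  | refl => exact ⟨0, rfl⟩
  | @tail b c _ hbc ih =>
    obtain ⟨n, hn⟩ := ih
    exact ⟨n + 1, PL_trans S n 1 x b c hn ⟨c, hbc, rfl⟩⟩

/-- The distance from `x0`. -/
private noncomputable def dd {V : Type*} (S : V → V → Prop) (x0 y : V) : ℕ :=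
  sInf {n | PL S n x0 y}

private lemma dd_spec {V : Type*} (S : V → V → Prop) (x0 y : V) (h : ∃ n, PL S n x0 y) :
    PL S (dd S x0 y) x0 y :=
  Nat.sInf_mem (s := {n | PL S n x0 y}) h

private lemma dd_le {V : Type*} (S : V → V → Prop) (x0 y : V) (n : ℕ) (h : PL S n x0 y) :
    dd S x0 y ≤ n :=
  Nat.sInf_le (show n ∈ {n | PL S n x0 y} from h)

/-- The vertices beyond `x` on geodesics from `x0`. -/
private def DD {V : Type*} (S : V → V → Prop) (x0 x : V) : Set V :=
  {y | ∃ m, PL S m x y ∧ dd S x0 y = dd S x0 x + m}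

private lemma step_exists {V : Type*} (S : V → V → Prop) (hfin : ∀ x, {y | S x y}.Finite) (x0 x : V)
    (hx : ∃ n, PL S n x0 x) (hD : (DD S x0 x).Infinite) :
    ∃ x', S x x' ∧ (∃ n, PL S n x0 x') ∧ dd S x0 x' = dd S x0 x + 1 ∧ (DD S x0 x').Infinite := by
  by_contra hcon
  push Not at hcon
  apply hD
  have hfin2 : ((⋃ x' ∈ {y | S x y ∧ (∃ n, PL S n x0 y) ∧ dd S x0 y = dd S x0 x + 1},
      DD S x0 x') : Set V).Finite := by
    apply Set.Finite.biUnion
    · exact (hfin x).subset fun y hy => hy.1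
    · intro y hy
      have h := hcon y hy.1 hy.2.1 hy.2.2
      exact h
  refine ((Set.finite_singleton x).union hfin2).subset ?_
  intro y hy
  obtain ⟨m, hm, hd⟩ := hy
  rcases m with _ | k
  · left
    have h : x = y := hm
    exact h.symm
  · right
    obtain ⟨z, hz, hk⟩ := hm
    have h1 : PL S (dd S x0 x + 1) x0 z :=
      PL_trans S _ 1 x0 x z (dd_spec S x0 x hx) ⟨z, hz, rfl⟩
    have h2 : dd S x0 z ≤ dd S x0 x + 1 := dd_le S x0 z _ h1
    have h3 : PL S (dd S x0 z + k) x0 y :=
      PL_trans S _ k x0 z y (dd_spec S x0 z ⟨_, h1⟩) hk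
    have h4 : dd S x0 y ≤ dd S x0 z + k := dd_le S x0 y _ h3
    have h5 : dd S x0 z = dd S x0 x + 1 := by omega
    refine Set.mem_biUnion (show z ∈ {y | S x y ∧ (∃ n, PL S n x0 y) ∧
      dd S x0 y = dd S x0 x + 1} from ⟨hz, ⟨_, h1⟩, h5⟩) ?_
    exact ⟨k, hk, by omega⟩

theorem koenig {V : Type*} (S : V → V → Prop) (hfin : ∀ x, {y | S x y}.Finite) (x0 : V)
    (hinf : {y | Relation.ReflTransGen S x0 y}.Infinite) :
    ∃ f : ℕ → V, f 0 = x0 ∧ Function.Injective f ∧ ∀ n, S (f n) (f (n + 1)) := by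
  classical
  have hd0 : dd S x0 x0 = 0 := Nat.le_zero.mp (dd_le S x0 x0 0 rfl)
  have hD0 : (DD S x0 x0).Infinite := by
    apply hinf.mono
    intro y hy
    have h := PL_of_reach S x0 y hy
    exact ⟨dd S x0 y, dd_spec S x0 y h, by rw [hd0, zero_add]⟩
  let T := {x : V // (∃ n, PL S n x0 x) ∧ (DD S x0 x).Infinite}
  have hstep : ∀ x : T, ∃ x' : T, S x.1 x'.1 ∧ dd S x0 x'.1 = dd S x0 x.1 + 1 := by
    intro x
    obtain ⟨x', h1, h2, h3, h4⟩ := step_exists S hfin x0 x.1 x.2.1 x.2.2
    exact ⟨⟨x', h2, h4⟩, h1, h3⟩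
  choose g hg1 hg2 using hstep
  let F : ℕ → T := fun n => Nat.rec (motive := fun _ => T) ⟨x0, ⟨0, rfl⟩, hD0⟩ (fun _ x => g x) n
  have hF : ∀ n, F (n + 1) = g (F n) := fun n => rfl
  have hdF : ∀ n, dd S x0 (F n).1 = n := by
    intro n
    induction n with
    | zero => exact hd0
    | succ n ih => rw [hF, hg2, ih]
  refine ⟨fun n => (F n).1, rfl, ?_, ?_⟩
  · intro a b hab
    have h : dd S x0 (F a).1 = dd S x0 (F b).1 := congrArg (dd S x0) hab
    rwa [hdF, hdF] at h
  · intro n
    show S (F n).1 (F (n + 1)).1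
    rw [hF]
    exact hg1 (F n)

end Pool.Agent.Helper96.PK
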