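import Pool.Agent.Helper96.PK.Defs

set_option autoImplicit false

/-!
# PK-05: linearity, positivity and bounds of the recursion `Ev`

Everything is an induction on the word, generalizing the state (case distinction on the state:
7 equations of `Ev`). For `Ev_bound`: if `|t x| ≤ C r_(i(x))` for all states then the same holds
for `Ev t w`: e.g. `|Ev t (false::w) (c i)| ≤ f_i C r_0 + C r_(i+1) = C r_i` because `r_0 = 1`,
`f_i = r_i - r_(i+1) ≥ 0`, and the other coefficients are smaller (`0 ≤ a, g ≤ 1`, `0 ≤ al i ≤ 1`).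
-/

namespace Pool.Agent.Helper96.PK

/-- The index of a state. -/
def ix : St → ℕ
  | St.c i => i
  | St.o i => i
  | St.q i => i

private theorem ev_al_le {a g : ℝ} (ha1 : a ≤ 1) (hg1 : g ≤ 1) (i : ℕ) : al a g i ≤ 1 := by
  match i with
  | 0 => exact ha1
  | 1 => exact hg1
  | _ + 2 => exact zero_le_one

private theorem ev_al_nonneg {a g : ℝ} (ha0 : 0 ≤ a) (hg0 : 0 ≤ g) (i : ℕ) : 0 ≤ al a g i := by
  match i with
  | 0 => exact ha0
  | 1 => exact hg0
  | _ + 2 => exact le_rfl

theorem Ev_append (a g : ℝ) (r : ℕ → ℝ) (t : St → ℝ) (y w : List Bool) (x : St) :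
    Ev a g r t (y ++ w) x = Ev a g r (fun z => Ev a g r t w z) y x := by
  induction y generalizing x with
  | nil => rfl
  | cons b y ih => cases b <;> cases x <;> simp only [List.cons_append, Ev, ih]

theorem Ev_add (a g : ℝ) (r : ℕ → ℝ) (t t' : St → ℝ) (w : List Bool) (x : St) :
    Ev a g r (fun z => t z + t' z) w x = Ev a g r t w x + Ev a g r t' w x := by
  induction w generalizing x with
  | nil => rfl
  | cons b w ih => cases b <;> cases x <;> simp only [Ev, ih] <;> ring

theorem Ev_sub (a g : ℝ) (r : ℕ → ℝ) (t t' : St → ℝ) (w : List Bool) (x : St) :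
    Ev a g r (fun z => t z - t' z) w x = Ev a g r t w x - Ev a g r t' w x := by
  induction w generalizing x with
  | nil => rfl
  | cons b w ih => cases b <;> cases x <;> simp only [Ev, ih] <;> ring

theorem Ev_mul (a g : ℝ) (r : ℕ → ℝ) (k : ℝ) (t : St → ℝ) (w : List Bool) (x : St) :
    Ev a g r (fun z => k * t z) w x = k * Ev a g r t w x := by
  induction w generalizing x with
  | nil => rfl
  | cons b w ih => cases b <;> cases x <;> simp only [Ev, ih] <;> ring

theorem Ev_sum (a g : ℝ) (r : ℕ → ℝ) (S : Finset ℕ) (k : ℕ → ℝ) (t : ℕ → St → ℝ) (w : List Bool)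
    (x : St) :
    Ev a g r (fun z => ∑ n ∈ S, k n * t n z) w x = ∑ n ∈ S, k n * Ev a g r (t n) w x := by
  classical
  induction S using Finset.induction_on with
  | empty =>
    have h := Ev_mul a g r 0 (fun _ => 0) w x
    simp only [Finset.sum_empty]
    have h1 : (fun z : St => (0 : ℝ) * (fun _ : St => (0 : ℝ)) z) = fun _ => 0 := by
      funext z
      simp
    rw [h1, zero_mul] at h
    exact h
  | insert n S hn ih =>
    have h1 : (fun z => ∑ m ∈ insert n S, k m * t m z) =
        fun z => (fun z => k n * t n z) z + (fun z => ∑ m ∈ S, k m * t m z) z := by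
      funext z
      rw [Finset.sum_insert hn]
    rw [h1, Ev_add, ih, Ev_mul, Finset.sum_insert hn]

theorem Ev_nonneg {a g : ℝ} {r : ℕ → ℝ} {t : St → ℝ} (ha0 : 0 ≤ a) (ha1 : a ≤ 1) (hg0 : 0 ≤ g)
    (hg1 : g ≤ 1) (hr : Antitone r) (ht : ∀ x, 0 ≤ t x) (w : List Bool) (x : St) :
    0 ≤ Ev a g r t w x := by
  induction w generalizing x with
  | nil => exact ht x
  | cons b w ih =>
    have hf : ∀ i, 0 ≤ fr r i := fun i => sub_nonneg.2 (hr (Nat.le_succ i))
    have h1a : 0 ≤ 1 - a := sub_nonneg.2 ha1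
    have h1g : 0 ≤ 1 - g := sub_nonneg.2 hg1
    cases b <;> cases x with
    | c i =>
      have h0 := ih (St.c 0)
      have h1 := ih (St.c (i + 1))
      have h2 := ih (St.o (i + 1))
      have h3 := hf i
      have h4 := ev_al_le ha1 hg1 i
      simp only [Ev]
      first
        | exact add_nonneg (mul_nonneg h3 h0) h1
        | exact mul_nonneg (sub_nonneg.2 h4)
            (add_nonneg (mul_nonneg (mul_nonneg h1a h3) h0) h2)
    | o i =>
      have h0 := ih (St.c 0)
      have h1 := ih (St.q (i + 1))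
      have h2 := ih (St.o (i + 1))
      have h3 := hf i
      simp only [Ev]
      first
        | exact add_nonneg (mul_nonneg (mul_nonneg h1g h3) h0) h1
        | exact add_nonneg (mul_nonneg (mul_nonneg h1a h3) h0) h2
    | q i =>
      have h0 := ih (St.c 0)
      have h1 := ih (St.q (i + 1))
      have h2 := ih (St.o (i + 1))
      have h3 := hf i
      simp only [Ev]
      first
        | exact add_nonneg (mul_nonneg h3 h0) h1
        | exact add_nonneg (mul_nonneg (mul_nonneg h1a h3) h0) h2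

theorem Ev_bound {a g C : ℝ} {r : ℕ → ℝ} {t : St → ℝ} (ha0 : 0 ≤ a) (ha1 : a ≤ 1) (hg0 : 0 ≤ g)
    (hg1 : g ≤ 1) (hr : Antitone r) (hr0 : r 0 = 1) (hrn : ∀ n, 0 ≤ r n)
    (ht : ∀ x, |t x| ≤ C * r (ix x)) (w : List Bool) (x : St) :
    |Ev a g r t w x| ≤ C * r (ix x) := by
  have hC : 0 ≤ C := by
    have h := (abs_nonneg _).trans (ht (St.c 0))
    simp only [ix, hr0, mul_one] at h
    exact h
  have hf : ∀ i, 0 ≤ fr r i := fun i => sub_nonneg.2 (hr (Nat.le_succ i))
  have key : ∀ (k X Y : ℝ) (i : ℕ), 0 ≤ k → k ≤ 1 → |X| ≤ C * r 0 → |Y| ≤ C * r (i + 1) →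
      |k * fr r i * X + Y| ≤ C * r i := by
    intro k X Y i hk0 hk1 hX hY
    have h3 := hf i
    have h4 : |k * fr r i * X| ≤ fr r i * C := by
      rw [abs_mul, abs_of_nonneg (mul_nonneg hk0 h3)]
      rw [hr0, mul_one] at hX
      exact mul_le_mul (mul_le_of_le_one_left h3 hk1) hX (abs_nonneg _) h3
    calc |k * fr r i * X + Y| ≤ |k * fr r i * X| + |Y| := abs_add_le _ _
      _ ≤ fr r i * C + C * r (i + 1) := add_le_add h4 hY
      _ = C * r i := by unfold fr; ring
  induction w generalizing x with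
  | nil => exact ht x
  | cons b w ih =>
    have h0 : |Ev a g r t w (St.c 0)| ≤ C * r 0 := ih (St.c 0)
    have hc : ∀ i, |Ev a g r t w (St.c (i + 1))| ≤ C * r (i + 1) := fun i => ih (St.c (i + 1))
    have ho : ∀ i, |Ev a g r t w (St.o (i + 1))| ≤ C * r (i + 1) := fun i => ih (St.o (i + 1))
    have hq : ∀ i, |Ev a g r t w (St.q (i + 1))| ≤ C * r (i + 1) := fun i => ih (St.q (i + 1))
    have h1a : 0 ≤ 1 - a := sub_nonneg.2 ha1
    have h1g : 0 ≤ 1 - g := sub_nonneg.2 hg1
    have h1a' : 1 - a ≤ 1 := by linarith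
    have h1g' : 1 - g ≤ 1 := by linarith
    cases b
    · cases x with
      | c i =>
        have := key 1 _ _ i zero_le_one le_rfl h0 (hc i)
        rw [one_mul] at this
        exact this
      | o i => exact key (1 - g) _ _ i h1g h1g' h0 (hq i)
      | q i =>
        have := key 1 _ _ i zero_le_one le_rfl h0 (hq i)
        rw [one_mul] at this
        exact this
    · cases x with
      | c i =>
        have h5 := key (1 - a) _ _ i h1a h1a' h0 (ho i)
        have h6 := ev_al_le ha1 hg1 i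
        have h7 := ev_al_nonneg ha0 hg0 i
        have h8 : 0 ≤ 1 - al a g i := sub_nonneg.2 h6
        show |(1 - al a g i) * ((1 - a) * fr r i * Ev a g r t w (St.c 0) +
          Ev a g r t w (St.o (i + 1)))| ≤ C * r i
        rw [abs_mul, abs_of_nonneg h8]
        exact (mul_le_of_le_one_left (abs_nonneg _) (by linarith)).trans h5
      | o i => exact key (1 - a) _ _ i h1a h1a' h0 (ho i)
      | q i => exact key (1 - a) _ _ i h1a h1a' h0 (ho i)

theorem VV_nonneg {a g : ℝ} {r : ℕ → ℝ} (ha0 : 0 ≤ a) (ha1 : a ≤ 1) (hg0 : 0 ≤ g) (hg1 : g ≤ 1)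
    (hr : Antitone r) (hrn : ∀ n, 0 ≤ r n) (w : List Bool) (x : St) : 0 ≤ VV a g r w x := by
  apply Ev_nonneg ha0 ha1 hg0 hg1 hr
  intro z
  cases z with
  | c i => exact hrn i
  | o i =>
    have h1 : 0 ≤ fr r i := sub_nonneg.2 (hr (Nat.le_succ i))
    have h2 := hrn (i + 1)
    have h3 : g * fr r i ≤ fr r i := mul_le_of_le_one_left h1 hg1
    show 0 ≤ r i - g * fr r i
    unfold fr at h3 ⊢
    linarith
  | q i => exact hrn i

theorem VV_le {a g : ℝ} {r : ℕ → ℝ} (ha0 : 0 ≤ a) (ha1 : a ≤ 1) (hg0 : 0 ≤ g) (hg1 : g ≤ 1)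
    (hr : Antitone r) (hr0 : r 0 = 1) (hrn : ∀ n, 0 ≤ r n) (w : List Bool) (x : St) :
    VV a g r w x ≤ r (ix x) := by
  have h := Ev_bound (C := 1) (t := t0 g r) ha0 ha1 hg0 hg1 hr hr0 hrn ?_ w x
  · rw [one_mul] at h
    exact (le_abs_self _).trans h
  · intro z
    rw [one_mul]
    cases z with
    | c i => exact (abs_of_nonneg (hrn i)).le
    | o i =>
      have h1 : 0 ≤ fr r i := sub_nonneg.2 (hr (Nat.le_succ i))
      have h2 := hrn (i + 1)
      have h3 : g * fr r i ≤ fr r i := mul_le_of_le_one_left h1 hg1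
      have h4 : 0 ≤ g * fr r i := mul_nonneg hg0 h1
      show |r i - g * fr r i| ≤ r i
      rw [abs_of_nonneg]
      · linarith
      · have h5 : fr r i = r i - r (i + 1) := rfl
        linarith
    | q i => exact (abs_of_nonneg (hrn i)).le

/-- A last letter `false` has no effect. -/
theorem VV_append_false (a g : ℝ) {r : ℕ → ℝ} (hr0 : r 0 = 1) (w : List Bool) (x : St) :
    VV a g r (w ++ [false]) x = VV a g r w x := by
  unfold VV
  rw [Ev_append]
  congr 1
  funext z
  cases z with
  | c i =>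
    show fr r i * r 0 + r (i + 1) = r i
    rw [hr0]
    unfold fr
    ring
  | o i =>
    show (1 - g) * fr r i * r 0 + r (i + 1) = r i - g * fr r i
    rw [hr0]
    unfold fr
    ring
  | q i =>
    show fr r i * r 0 + r (i + 1) = r i
    rw [hr0]
    unfold fr
    ring

end Pool.Agent.Helper96.PK
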