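import Pool.Agent.Helper96.PK.Xseq
import Pool.Agent.Helper96.PK.EvLin

set_option autoImplicit false

/-!
# PK-06: the weight of the words `1^j`

Put `AA_j = V(1^j)(c 0)` (`AA_0 = r_0 = 1`) and `m = (1-a)^2`.
* `VV_ones_o`: `V(1^(j+1))(o i) = (1-a) f_i AA_j + V(1^j)(o (i+1))` by definition (`ones (j+1)` is
  `true :: ones j`, `List.replicate_succ`), so by induction on `j`
  `V(1^j)(o i) = (1-a) ∑_{m<j} f_(i+m) AA_(j-1-m) + r_(i+j) - g f_(i+j)`.
* `AA_(j+1) = (1-a) ((1-a) f_0 AA_j + V(1^j)(o 1))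
           = m ∑_{k<j} f_k AA_(j-k) + (1-a) (r_j - a f_j - g f_(j+1))`
  (the last term `k = j` of the sum has `AA_0 = 1`, and `r_(j+1) = r_j - f_j`).
* `S_j = ∑_{n<j} r_(j-1-n) x_n` satisfies the same recursion: insert `xx_eq`; the double sum
  `∑_{n≤j} r_(j-n) ∑_{k<n} f_k x_(n-1-k) = ∑_{k<j} f_k S_(j-k)` (`Finset.sum_comm'` /
  `Finset.sum_sigma'`), and by `conv_r_b`, `conv_r_b'`
  `∑_{n≤j} r_(j-n) ((1-a)[n=0] + (a - g f_0) b_n + g b_(n+1))
    = (1-a) r_j + (a - g f_0) r_(j+1) + g (r_(j+2) - s r_(j+1)) = r_j - a f_j - g f_(j+1)`.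
* `AA_eq`: strong induction.
-/

namespace Pool.Agent.Helper96.PK

private theorem ones_succ (j : ℕ) : ones (j + 1) = true :: ones j := rfl

theorem VV_ones_o (a g : ℝ) (r : ℕ → ℝ) (j i : ℕ) :
    VV a g r (ones j) (St.o i) =
      (1 - a) * ∑ m ∈ Finset.range j, fr r (i + m) * VV a g r (ones (j - 1 - m)) (St.c 0) +
        r (i + j) - g * fr r (i + j) := by
  induction j generalizing i with
  | zero => simp [VV, ones, Ev, t0]
  | succ j ih =>
    have h1 : VV a g r (ones (j + 1)) (St.o i) =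
        (1 - a) * fr r i * VV a g r (ones j) (St.c 0) + VV a g r (ones j) (St.o (i + 1)) := rfl
    rw [h1, ih (i + 1), Finset.sum_range_succ']
    have h2 : ∀ m ∈ Finset.range j, fr r (i + (m + 1)) * VV a g r (ones (j + 1 - 1 - (m + 1))) (St.c 0)
        = fr r (i + 1 + m) * VV a g r (ones (j - 1 - m)) (St.c 0) := by
      intro m _
      rw [show i + (m + 1) = i + 1 + m by ring, show j + 1 - 1 - (m + 1) = j - 1 - m by omega]
    rw [Finset.sum_congr rfl h2, show i + 1 + j = i + (j + 1) by ring]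
    simp only [Nat.add_sub_cancel, Nat.sub_zero, add_zero]
    ring

theorem VV_ones_succ (a g : ℝ) {r : ℕ → ℝ} (hr0 : r 0 = 1) (j : ℕ) :
    VV a g r (ones (j + 1)) (St.c 0) =
      (1 - a) ^ 2 * ∑ k ∈ Finset.range j, fr r k * VV a g r (ones (j - k)) (St.c 0) +
        (1 - a) * (r j - a * fr r j - g * fr r (j + 1)) := by
  have h1 : VV a g r (ones (j + 1)) (St.c 0) =
      (1 - a) * ((1 - a) * fr r 0 * VV a g r (ones j) (St.c 0) + VV a g r (ones j) (St.o 1)) := rfl
  rw [h1, VV_ones_o]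
  have h0 : VV a g r (ones 0) (St.c 0) = 1 := by simp [VV, ones, Ev, t0, hr0]
  have h2 : ∀ m ∈ Finset.range j, fr r (1 + m) * VV a g r (ones (j - 1 - m)) (St.c 0) =
      fr r (m + 1) * VV a g r (ones (j - (m + 1))) (St.c 0) := by
    intro m _
    rw [show 1 + m = m + 1 by ring, show j - 1 - m = j - (m + 1) by omega]
  rw [Finset.sum_congr rfl h2]
  have h3 : ∑ k ∈ Finset.range (j + 1), fr r k * VV a g r (ones (j - k)) (St.c 0) =
      ∑ k ∈ Finset.range j, fr r (k + 1) * VV a g r (ones (j - (k + 1))) (St.c 0) +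
        fr r 0 * VV a g r (ones j) (St.c 0) := by
    rw [Finset.sum_range_succ']
    simp
  rw [Finset.sum_range_succ, Nat.sub_self, h0] at h3
  have h4 : r (1 + j) = r j - fr r j := by
    unfold fr
    rw [show 1 + j = j + 1 by ring]
    ring
  rw [h4, show 1 + j = j + 1 by ring]
  linear_combination (-(1 - a) ^ 2) * h3

theorem conv_r_x_rec (a g s : ℝ) (j : ℕ) :
    ∑ n ∈ Finset.range (j + 1), rr s (j - n) * xx a g s n =
      (1 - a) ^ 2 * ∑ k ∈ Finset.range j, ff s k *
          ∑ n ∈ Finset.range (j - k), rr s (j - k - 1 - n) * xx a g s n +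
        (1 - a) * (rr s j - a * ff s j - g * ff s (j + 1)) := by
  have h1 : ∑ n ∈ Finset.range (j + 1), rr s (j - n) * xx a g s n =
      (1 - a) ^ 2 * ∑ n ∈ Finset.range (j + 1), rr s (j - n) *
        ∑ k ∈ Finset.range n, ff s k * xx a g s (n - 1 - k) +
      (1 - a) * ((1 - a) * rr s j + (a - g * ff s 0) *
        ∑ n ∈ Finset.range (j + 1), rr s (j - n) * bb s n +
        g * ∑ n ∈ Finset.range (j + 1), rr s (j - n) * bb s (n + 1)) := by
    have h2 : ∀ n ∈ Finset.range (j + 1), rr s (j - n) * xx a g s n =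
        (1 - a) ^ 2 * (rr s (j - n) * ∑ k ∈ Finset.range n, ff s k * xx a g s (n - 1 - k)) +
        ((1 - a) * (rr s (j - n) * (if n = 0 then 1 - a else 0)) +
        ((1 - a) * (a - g * ff s 0) * (rr s (j - n) * bb s n) +
        (1 - a) * g * (rr s (j - n) * bb s (n + 1)))) := by
      intro n _
      conv_lhs => rw [xx_eq]
      ring
    rw [Finset.sum_congr rfl h2, Finset.sum_add_distrib, Finset.sum_add_distrib,
      Finset.sum_add_distrib, ← Finset.mul_sum, ← Finset.mul_sum, ← Finset.mul_sum,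
      ← Finset.mul_sum]
    have h3 : ∑ n ∈ Finset.range (j + 1), rr s (j - n) * (if n = 0 then 1 - a else 0) =
        rr s j * (1 - a) := by
      rw [Finset.sum_eq_single 0]
      · simp
      · intro b _ hb
        simp [hb]
      · intro h
        simp at h
    rw [h3]
    ring
  have h4 : ∑ n ∈ Finset.range (j + 1), rr s (j - n) *
        ∑ k ∈ Finset.range n, ff s k * xx a g s (n - 1 - k) =
      ∑ k ∈ Finset.range j, ff s k *
          ∑ n ∈ Finset.range (j - k), rr s (j - k - 1 - n) * xx a g s n := by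
    simp only [Finset.mul_sum]
    rw [Finset.sum_sigma', Finset.sum_sigma']
    refine Finset.sum_bij' (fun p _ => ⟨p.2, p.1 - 1 - p.2⟩) (fun p _ => ⟨p.1 + p.2 + 1, p.1⟩)
      ?_ ?_ ?_ ?_ ?_
    · rintro ⟨n, k⟩ h
      simp only [Finset.mem_sigma, Finset.mem_range] at h ⊢
      omega
    · rintro ⟨k, n⟩ h
      simp only [Finset.mem_sigma, Finset.mem_range] at h ⊢
      omega
    · rintro ⟨n, k⟩ h
      simp only [Finset.mem_sigma, Finset.mem_range] at h
      simp only [Sigma.mk.injEq, heq_eq_eq, and_true]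
      omega
    · rintro ⟨k, n⟩ h
      simp only [Finset.mem_sigma, Finset.mem_range] at h
      simp only [Sigma.mk.injEq, heq_eq_eq, true_and]
      omega
    · rintro ⟨n, k⟩ h
      simp only [Finset.mem_sigma, Finset.mem_range] at h
      simp only
      rw [show j - k - 1 - (n - 1 - k) = j - n by omega]
      ring
  have e0 : rr s 0 = 1 := by simp [rr]
  have e1 : rr s 1 = s := by simp [rr]
  rw [h1, h4, conv_r_b, conv_r_b']
  unfold ff fr
  rw [show (0 : ℕ) + 1 = 1 from rfl, e0, e1]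
  ring

theorem AA_eq (a g s : ℝ) (j : ℕ) :
    VV a g (rr s) (ones (j + 1)) (St.c 0) =
      ∑ n ∈ Finset.range (j + 1), rr s (j - n) * xx a g s n := by
  induction j using Nat.strong_induction_on with
  | _ j ih =>
    have hr0 : rr s 0 = 1 := by simp [rr]
    rw [VV_ones_succ a g hr0, conv_r_x_rec]
    have h1 : ∀ k ∈ Finset.range j, fr (rr s) k * VV a g (rr s) (ones (j - k)) (St.c 0) =
        ff s k * ∑ n ∈ Finset.range (j - k), rr s (j - k - 1 - n) * xx a g s n := by
      intro k hk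
      rw [Finset.mem_range] at hk
      have h2 := ih (j - k - 1) (by omega)
      rw [show j - k - 1 + 1 = j - k by omega] at h2
      rw [h2]
      rfl
    rw [Finset.sum_congr rfl h1]
    rfl

end Pool.Agent.Helper96.PK
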