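import Pool.Agent.Helper96.PK.Defs

set_option autoImplicit false

/-!
# PK-24: the averages `Avg` and `EE`

All by induction on the length / the word, generalizing the function.
* `Avg_congr`: only the values on lists of length `k` matter.
* `Avg_add`: `Avg p (k + l) F = Avg p k (fun x => Avg p l (fun y => F (x ++ y)))`.
* `Avg_trip`: `Avg p (2 * w.length) (fun e => F (trip w e)) = EE p w F`, induction on `w` generalizing
  `F` (`2 * (n + 1) = 2 * n + 1 + 1`, two unfoldings of `Avg`, `ring`).
-/

namespace Pool.Agent.Helper96.PK

variable {p : ℝ}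

theorem Avg_const (k : ℕ) (c : ℝ) : Avg p k (fun _ => c) = c := by
  induction k with
  | zero => rfl
  | succ k ih =>
    simp only [Avg, ih]
    ring

theorem Avg_sub (k : ℕ) (F G : List Bool → ℝ) :
    Avg p k (fun l => F l - G l) = Avg p k F - Avg p k G := by
  induction k generalizing F G with
  | zero => rfl
  | succ k ih =>
    simp only [Avg]
    rw [ih (fun l => F (true :: l)) (fun l => G (true :: l)),
      ih (fun l => F (false :: l)) (fun l => G (false :: l))]
    ring

theorem Avg_congr (k : ℕ) {F G : List Bool → ℝ} (h : ∀ l : List Bool, l.length = k → F l = G l) :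
    Avg p k F = Avg p k G := by
  induction k generalizing F G with
  | zero => exact h [] rfl
  | succ k ih =>
    simp only [Avg]
    rw [ih (F := fun l => F (true :: l)) (G := fun l => G (true :: l))
        (fun l hl => h _ (by rw [List.length_cons, hl])),
      ih (F := fun l => F (false :: l)) (G := fun l => G (false :: l))
        (fun l hl => h _ (by rw [List.length_cons, hl]))]

theorem Avg_mono (h0 : 0 ≤ p) (h1 : p ≤ 1) (k : ℕ) {F G : List Bool → ℝ}
    (h : ∀ l : List Bool, l.length = k → F l ≤ G l) : Avg p k F ≤ Avg p k G := by
  induction k generalizing F G with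
  | zero => exact h [] rfl
  | succ k ih =>
    simp only [Avg]
    have e1 := ih (F := fun l => F (true :: l)) (G := fun l => G (true :: l))
        (fun l hl => h _ (by rw [List.length_cons, hl]))
    have e2 := ih (F := fun l => F (false :: l)) (G := fun l => G (false :: l))
        (fun l hl => h _ (by rw [List.length_cons, hl]))
    have e3 := mul_le_mul_of_nonneg_left e1 h0
    have e4 := mul_le_mul_of_nonneg_left e2 (by linarith : 0 ≤ 1 - p)
    linarith

theorem Avg_add (k l : ℕ) (F : List Bool → ℝ) :
    Avg p (k + l) F = Avg p k (fun x => Avg p l (fun y => F (x ++ y))) := by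
  induction k generalizing F with
  | zero =>
    rw [zero_add]
    rfl
  | succ k ih =>
    rw [Nat.succ_add k l]
    simp only [Avg]
    rw [ih, ih]
    rfl

theorem Avg_trip (w : List Bool) (F : List Tr → ℝ) :
    Avg p (2 * w.length) (fun e => F (trip w e)) = EE p w F := by
  induction w generalizing F with
  | nil => rfl
  | cons x w ih =>
    have h2 : 2 * (x :: w).length = 2 * w.length + 1 + 1 := by
      rw [List.length_cons]
      ring
    rw [h2]
    simp only [Avg, EE, trip]
    rw [ih (fun T => F ((x, true, true) :: T)), ih (fun T => F ((x, true, false) :: T)),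
      ih (fun T => F ((x, false, true) :: T)), ih (fun T => F ((x, false, false) :: T))]
    ring

theorem EE_congr (w : List Bool) {F G : List Tr → ℝ} (h : ∀ T, F T = G T) :
    EE p w F = EE p w G := by
  rw [funext h]

theorem EE_mono (h0 : 0 ≤ p) (h1 : p ≤ 1) (w : List Bool) {F G : List Tr → ℝ}
    (h : ∀ T, F T ≤ G T) : EE p w F ≤ EE p w G := by
  induction w generalizing F G with
  | nil => exact h []
  | cons x w ih =>
    simp only [EE]
    have hq : 0 ≤ 1 - p := by linarith
    have e1 := mul_le_mul_of_nonneg_left (ih (F := fun T => F ((x, true, true) :: T))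
      (G := fun T => G ((x, true, true) :: T)) (fun T => h _)) (mul_nonneg h0 h0)
    have e2 := mul_le_mul_of_nonneg_left (ih (F := fun T => F ((x, true, false) :: T))
      (G := fun T => G ((x, true, false) :: T)) (fun T => h _)) (mul_nonneg h0 hq)
    have e3 := mul_le_mul_of_nonneg_left (ih (F := fun T => F ((x, false, true) :: T))
      (G := fun T => G ((x, false, true) :: T)) (fun T => h _)) (mul_nonneg hq h0)
    have e4 := mul_le_mul_of_nonneg_left (ih (F := fun T => F ((x, false, false) :: T))
      (G := fun T => G ((x, false, false) :: T)) (fun T => h _)) (mul_nonneg hq hq)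
    linarith

theorem EE_addF (w : List Bool) (F G : List Tr → ℝ) :
    EE p w (fun T => F T + G T) = EE p w F + EE p w G := by
  induction w generalizing F G with
  | nil => rfl
  | cons x w ih =>
    simp only [EE]
    rw [ih (fun T => F ((x, true, true) :: T)) (fun T => G ((x, true, true) :: T)),
      ih (fun T => F ((x, true, false) :: T)) (fun T => G ((x, true, false) :: T)),
      ih (fun T => F ((x, false, true) :: T)) (fun T => G ((x, false, true) :: T)),
      ih (fun T => F ((x, false, false) :: T)) (fun T => G ((x, false, false) :: T))]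
    ring

theorem EE_mulF (w : List Bool) (c : ℝ) (F : List Tr → ℝ) :
    EE p w (fun T => c * F T) = c * EE p w F := by
  induction w generalizing F with
  | nil => rfl
  | cons x w ih =>
    simp only [EE]
    rw [ih (fun T => F ((x, true, true) :: T)), ih (fun T => F ((x, true, false) :: T)),
      ih (fun T => F ((x, false, true) :: T)), ih (fun T => F ((x, false, false) :: T))]
    ring

theorem EE_const (w : List Bool) (c : ℝ) : EE p w (fun _ => c) = c := by
  induction w with
  | nil => rfl
  | cons x w ih =>
    simp only [EE, ih]
    ring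

theorem EE_nonneg (h0 : 0 ≤ p) (h1 : p ≤ 1) (w : List Bool) {F : List Tr → ℝ}
    (h : ∀ T, 0 ≤ F T) : 0 ≤ EE p w F := by
  have h2 := EE_mono h0 h1 w (F := fun _ => (0 : ℝ)) (G := F) h
  rwa [EE_const] at h2

/-- Uniform convergence of the averages (only finitely many values matter). -/
theorem EE_tsum (w : List Bool) {F : ℕ → List Tr → ℝ} (hF : ∀ T, Summable fun i => F i T) :
    (Summable fun i => EE p w (F i)) ∧
      EE p w (fun T => ∑' i, F i T) = ∑' i, EE p w (F i) := by
  induction w generalizing F with
  | nil => exact ⟨hF [], rfl⟩
  | cons x w ih =>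
    obtain ⟨s1, t1⟩ := ih (F := fun i T => F i ((x, true, true) :: T)) (fun T => hF _)
    obtain ⟨s2, t2⟩ := ih (F := fun i T => F i ((x, true, false) :: T)) (fun T => hF _)
    obtain ⟨s3, t3⟩ := ih (F := fun i T => F i ((x, false, true) :: T)) (fun T => hF _)
    obtain ⟨s4, t4⟩ := ih (F := fun i T => F i ((x, false, false) :: T)) (fun T => hF _)
    have m1 := s1.mul_left (p * p)
    have m2 := s2.mul_left (p * (1 - p))
    have m3 := s3.mul_left ((1 - p) * p)
    have m4 := s4.mul_left ((1 - p) * (1 - p))
    simp only [EE]
    refine ⟨((m1.add m2).add m3).add m4, ?_⟩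
    rw [t1, t2, t3, t4, ((m1.add m2).add m3).tsum_add m4, (m1.add m2).tsum_add m3, m1.tsum_add m2,
      tsum_mul_left, tsum_mul_left, tsum_mul_left, tsum_mul_left]

end Pool.Agent.Helper96.PK
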