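import Pool.Agent.Helper96.PK.Defs

set_option autoImplicit false

/-!
# PK-01: the sequence `r_n = s^n C_n`

* `rr_succ_mul`: `(n+2) C_(n+1) = (4n+2) C_n`; Mathlib: `succ_mul_catalan_eq_centralBinom`,
  `Nat.succ_mul_centralBinom_succ : (n+1) * centralBinom (n+1) = 2 * (2n+1) * centralBinom n`.
  So `(n+2) * C_(n+1) = centralBinom (n+1)` and `(n+1) * (n+2) * C_(n+1) = 2 (2n+1) (n+1) C_n`.
* `rr_conv`: `catalan_succ` (or `catalan_succ'` with the antidiagonal) and `pow_add`.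
* the inequalities follow from `rr_succ_mul` and `(4n+2)/(n+2) ≤ 4`.
-/

namespace Pool.Agent.Helper96.PK

theorem rr_zero (s : ℝ) : rr s 0 = 1 := by
  simp [rr]

theorem rr_one (s : ℝ) : rr s 1 = s := by
  simp [rr]

private theorem cat_succ_mul (n : ℕ) :
    ((n : ℝ) + 2) * (catalan (n + 1) : ℝ) = (4 * n + 2) * (catalan n : ℝ) := by
  have h1 := succ_mul_catalan_eq_centralBinom (n + 1)
  have h2 := succ_mul_catalan_eq_centralBinom n
  have h3 := Nat.succ_mul_centralBinom_succ n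
  rw [← h1, ← h2] at h3
  have h4 : ((n : ℝ) + 1) * (((n : ℝ) + 1 + 1) * (catalan (n + 1) : ℝ)) =
      2 * (2 * n + 1) * (((n : ℝ) + 1) * (catalan n : ℝ)) := by
    exact_mod_cast h3
  have h5 : ((n : ℝ) + 1) ≠ 0 := by positivity
  apply mul_left_cancel₀ h5
  linarith

theorem rr_succ_mul (s : ℝ) (n : ℕ) : ((n : ℝ) + 2) * rr s (n + 1) = s * (4 * n + 2) * rr s n := by
  unfold rr
  have h := cat_succ_mul n
  rw [pow_succ]
  linear_combination (s ^ n * s) * h

theorem rr_pos {s : ℝ} (hs : 0 < s) (n : ℕ) : 0 < rr s n := by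
  induction n with
  | zero => rw [rr_zero]; exact one_pos
  | succ n ih =>
    have h := rr_succ_mul s n
    have h1 : (0 : ℝ) < (n : ℝ) + 2 := by positivity
    have h2 : 0 < ((n : ℝ) + 2) * rr s (n + 1) := by
      rw [h]
      positivity
    exact (mul_pos_iff_of_pos_left h1).1 h2

theorem rr_succ_le {s : ℝ} (hs : 0 < s) (n : ℕ) : rr s (n + 1) ≤ 4 * s * rr s n := by
  have h := rr_succ_mul s n
  have h1 : (0 : ℝ) < (n : ℝ) + 2 := by positivity
  have h2 := rr_pos hs n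
  have h3 : 0 < s * rr s n := mul_pos hs h2
  apply le_of_mul_le_mul_left _ h1
  rw [h]
  nlinarith

theorem rr_le_pow {s : ℝ} (hs : 0 < s) (n : ℕ) : rr s n ≤ (4 * s) ^ n := by
  induction n with
  | zero => rw [rr_zero, pow_zero]
  | succ n ih =>
    calc rr s (n + 1) ≤ 4 * s * rr s n := rr_succ_le hs n
      _ ≤ 4 * s * (4 * s) ^ n := mul_le_mul_of_nonneg_left ih (by positivity)
      _ = (4 * s) ^ (n + 1) := by rw [pow_succ]; ring

theorem rr_succ_lt {s : ℝ} (hs : 0 < s) (h4 : 4 * s < 1) (n : ℕ) : rr s (n + 1) < rr s n := by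
  have h1 := rr_succ_le hs n
  have h2 := rr_pos hs n
  nlinarith

theorem rr_antitone {s : ℝ} (hs : 0 < s) (h4 : 4 * s < 1) : Antitone (rr s) :=
  antitone_nat_of_succ_le fun n => (rr_succ_lt hs h4 n).le

theorem rr_le_one {s : ℝ} (hs : 0 < s) (h4 : 4 * s < 1) (n : ℕ) : rr s n ≤ 1 := by
  rw [← rr_zero s]
  exact rr_antitone hs h4 (Nat.zero_le n)

theorem ff_pos {s : ℝ} (hs : 0 < s) (h4 : 4 * s < 1) (i : ℕ) : 0 < ff s i := by
  unfold ff fr
  exact sub_pos.2 (rr_succ_lt hs h4 i)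

theorem ff_zero (s : ℝ) : ff s 0 = 1 - s := by
  unfold ff fr
  rw [rr_zero, zero_add, rr_one]

theorem ff_one (s : ℝ) : ff s 1 = s - 2 * s ^ 2 := by
  unfold ff fr
  rw [rr_one]
  have h := rr_succ_mul s 1
  rw [rr_one] at h
  norm_num at h
  have h2 : rr s 2 = 2 * s ^ 2 := by nlinarith
  rw [h2]

theorem bb_pos {s : ℝ} (hs : 0 < s) (n : ℕ) : 0 < bb s n := mul_pos hs (rr_pos hs n)

theorem bb_zero (s : ℝ) : bb s 0 = s := by
  unfold bb
  rw [rr_zero, mul_one]

theorem bb_one (s : ℝ) : bb s 1 = s ^ 2 := by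
  unfold bb
  rw [rr_one, sq]

theorem bb_succ_mul (s : ℝ) (n : ℕ) : ((n : ℝ) + 2) * bb s (n + 1) = s * (4 * n + 2) * bb s n := by
  unfold bb
  have h := rr_succ_mul s n
  linear_combination s * h

theorem bb_succ_le {s : ℝ} (hs : 0 < s) (n : ℕ) : bb s (n + 1) ≤ 4 * s * bb s n := by
  unfold bb
  have h := mul_le_mul_of_nonneg_left (rr_succ_le hs n) hs.le
  linarith

theorem s_mul_ff (s : ℝ) (n : ℕ) : s * ff s n = bb s n - bb s (n + 1) := by
  unfold bb ff fr
  ring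

theorem rr_conv (s : ℝ) (n : ℕ) :
    s * ∑ k ∈ Finset.range (n + 1), rr s k * rr s (n - k) = rr s (n + 1) := by
  have h1 : ∀ k ∈ Finset.range (n + 1), rr s k * rr s (n - k) =
      s ^ n * ((catalan k : ℝ) * (catalan (n - k) : ℝ)) := by
    intro k hk
    have hk' : k ≤ n := Nat.lt_succ_iff.1 (Finset.mem_range.1 hk)
    unfold rr
    have h2 : s ^ n = s ^ k * s ^ (n - k) := by rw [← pow_add, Nat.add_sub_cancel' hk']
    rw [h2]
    ring
  rw [Finset.sum_congr rfl h1, ← Finset.mul_sum]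
  have h3 : (catalan (n + 1) : ℝ) =
      ∑ k ∈ Finset.range (n + 1), (catalan k : ℝ) * (catalan (n - k) : ℝ) := by
    rw [catalan_succ']
    rw [Finset.Nat.sum_antidiagonal_eq_sum_range_succ (fun i j => catalan i * catalan j) n]
    push_cast
    rfl
  rw [← h3]
  unfold rr
  rw [pow_succ]
  ring

end Pool.Agent.Helper96.PK
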