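import Pool.Agent.Helper96.PK.Cat1

set_option autoImplicit false

/-!
# PK-02: convolution identities

* `conv_b_r`, `conv_r_b`: `rr_conv` (and `Finset.sum_range_reflect` for the second form).
* `conv_f_b`: `∑_{k≤n} f_k b_{n-k} = s ∑ (r_k - r_{k+1}) r_{n-k} = r_{n+1} - s ∑_{k≤n} r_{k+1} r_{n-k}`
  and `s ∑_{k≤n} r_{k+1} r_{n-k} = s ∑_{k≤n+1} r_k r_{n+1-k} - s r_0 r_{n+1} = r_{n+2} - s r_{n+1}`
  (`Finset.sum_range_succ'`), so the sum is `r_{n+1} - r_{n+2} + s r_{n+1}`.
* `conv_f_u`: induction on `n`. `n = 0`: `f_0 u_0 = 1 - s = u_1`. Step: for `k ≤ n`,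
  `u_{n+1-k} = u_{n-k} - b_{n-k}`, so `c_{n+1} = c_n - (f*b)_n + f_{n+1} = u_{n+1} - b_{n+1} = u_{n+2}`.
-/

namespace Pool.Agent.Helper96.PK

theorem uu_zero (s : ℝ) : uu s 0 = 1 := by
  simp [uu]

theorem uu_succ (s : ℝ) (n : ℕ) : uu s (n + 1) = uu s n - bb s n := by
  rw [uu, uu, Finset.sum_range_succ]
  ring

theorem sum_f (s : ℝ) (n : ℕ) : ∑ k ∈ Finset.range n, ff s k = 1 - rr s n := by
  have h := Finset.sum_range_sub' (rr s) n
  rw [rr_zero] at h
  exact h

theorem conv_b_r (s : ℝ) (n : ℕ) :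
    ∑ k ∈ Finset.range (n + 1), bb s k * rr s (n - k) = rr s (n + 1) := by
  rw [← rr_conv, Finset.mul_sum]
  apply Finset.sum_congr rfl
  intro k _
  rw [bb]
  ring

theorem conv_r_b (s : ℝ) (n : ℕ) :
    ∑ k ∈ Finset.range (n + 1), rr s (n - k) * bb s k = rr s (n + 1) := by
  rw [← conv_b_r]
  apply Finset.sum_congr rfl
  intro k _
  ring

theorem conv_r_b' (s : ℝ) (n : ℕ) :
    ∑ k ∈ Finset.range (n + 1), rr s (n - k) * bb s (k + 1) = rr s (n + 2) - s * rr s (n + 1) := by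
  have h := conv_r_b s (n + 1)
  rw [Finset.sum_range_succ'] at h
  have h1 : ∑ k ∈ Finset.range (n + 1), rr s (n + 1 - (k + 1)) * bb s (k + 1) =
      ∑ k ∈ Finset.range (n + 1), rr s (n - k) * bb s (k + 1) := by
    apply Finset.sum_congr rfl
    intro k _
    rw [Nat.add_sub_add_right]
  rw [h1, Nat.sub_zero, bb_zero] at h
  linarith

theorem conv_f_b (s : ℝ) (n : ℕ) :
    ∑ k ∈ Finset.range (n + 1), ff s k * bb s (n - k) = ff s (n + 1) + bb s (n + 1) := by
  have h1 := conv_b_r s n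
  have h2 := conv_r_b' s n
  have h3 : ∑ k ∈ Finset.range (n + 1), ff s k * bb s (n - k) =
      ∑ k ∈ Finset.range (n + 1), bb s k * rr s (n - k) -
        ∑ k ∈ Finset.range (n + 1), rr s (n - k) * bb s (k + 1) := by
    rw [← Finset.sum_sub_distrib]
    apply Finset.sum_congr rfl
    intro k _
    simp only [ff, fr, bb]
    ring
  rw [h3, h1, h2]
  simp only [ff, fr, bb]
  ring

theorem conv_f_u (s : ℝ) (n : ℕ) :
    ∑ k ∈ Finset.range (n + 1), ff s k * uu s (n - k) = uu s (n + 1) := by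
  induction n with
  | zero =>
    rw [Finset.sum_range_one, Nat.sub_zero, uu_succ, uu_zero, bb_zero, ff_zero, mul_one]
  | succ n ih =>
    rw [Finset.sum_range_succ, Nat.sub_self, uu_zero, mul_one]
    have h1 : ∑ k ∈ Finset.range (n + 1), ff s k * uu s (n + 1 - k) =
        ∑ k ∈ Finset.range (n + 1), ff s k * uu s (n - k) -
          ∑ k ∈ Finset.range (n + 1), ff s k * bb s (n - k) := by
      rw [← Finset.sum_sub_distrib]
      apply Finset.sum_congr rfl
      intro k hk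
      have h2 : n + 1 - k = (n - k) + 1 := by
        have := Finset.mem_range.1 hk
        omega
      rw [h2, uu_succ]
      ring
    rw [h1, ih, conv_f_b, uu_succ s (n + 1)]
    ring

end Pool.Agent.Helper96.PK
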