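import Pool.Agent.Helper96.PK.Cat2

set_option autoImplicit false

/-!
# PK-03: limits, `s = ρ (1 - ρ)` with `1/2 < ρ < 1`

* `4 s = 1 - (2ρ - 1)^2 < 1`; `r_n ≤ (4s)^n` (`rr_le_pow`), so `r` is summable, `r_n → 0`.
* `sum_bb_le`: induction on `n`: with `S_n = ∑_{k<n} b_k`: `S_{n+1} = s + ∑_{1≤k≤n} b_k` and
  `b_k = s r_k = s ∑_{j<k} b_j r_{k-1-j}`, i.e. `b_{k} = ∑_{j+l=k-1} b_j b_l` (`conv_b_r` times `s`);
  hence `S_{n+1} ≤ s + S_n^2 ≤ ρ(1-ρ) + (1-ρ)^2 = 1 - ρ` (all terms nonnegative; the double sum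
  over `j + l ≤ n - 1` is at most `S_n^2`).
* `hasSum_bb`: let `V` be the sum. The Cauchy product (`tsum_mul_tsum_eq_tsum_sum_range` or
  `..._antidiagonal` for summable norms) gives `V = s + V^2`, so `(V - ρ)(V - (1-ρ)) = 0`, and
  `V ≤ 1 - ρ < ρ`, so `V = 1 - ρ`.
* `tsum_rr`: `s ∑ r = 1 - ρ` and `s = ρ (1 - ρ)`.
* `hasSum_ff`: `sum_f` and `r_n → 0`.
-/

namespace Pool.Agent.Helper96.PK

open Filter Topology

variable {ρ : ℝ}

theorem s_pos (h0 : 1 / 2 < ρ) (h1 : ρ < 1) : 0 < ρ * (1 - ρ) :=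
  mul_pos (by linarith) (by linarith)

theorem four_s_lt (h0 : 1 / 2 < ρ) : 4 * (ρ * (1 - ρ)) < 1 := by
  nlinarith [mul_pos (show (0 : ℝ) < 2 * ρ - 1 by linarith) (show (0 : ℝ) < 2 * ρ - 1 by linarith)]

theorem summable_rr (h0 : 1 / 2 < ρ) (h1 : ρ < 1) : Summable (rr (ρ * (1 - ρ))) := by
  have hs := s_pos h0 h1
  exact Summable.of_nonneg_of_le (fun n => (rr_pos hs n).le) (fun n => rr_le_pow hs n)
    (summable_geometric_of_lt_one (by linarith) (four_s_lt h0))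

theorem tendsto_rr (h0 : 1 / 2 < ρ) (h1 : ρ < 1) :
    Tendsto (rr (ρ * (1 - ρ))) atTop (𝓝 0) :=
  (summable_rr h0 h1).tendsto_atTop_zero

private theorem bb_succ_conv (s : ℝ) (n : ℕ) :
    bb s (n + 1) = ∑ k ∈ Finset.range (n + 1), bb s k * bb s (n - k) := by
  have h := conv_b_r s n
  have h1 : bb s (n + 1) = s * rr s (n + 1) := rfl
  rw [h1, ← h, Finset.mul_sum]
  refine Finset.sum_congr rfl (fun k _ => ?_)
  have h2 : bb s (n - k) = s * rr s (n - k) := rfl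
  rw [h2]
  ring

theorem sum_bb_le (h0 : 1 / 2 < ρ) (h1 : ρ < 1) (n : ℕ) :
    ∑ k ∈ Finset.range n, bb (ρ * (1 - ρ)) k ≤ 1 - ρ := by
  have hs := s_pos h0 h1
  induction n with
  | zero => simp; linarith
  | succ n ih =>
    rw [Finset.sum_range_succ', bb_zero]
    have hnn : ∀ k, 0 ≤ bb (ρ * (1 - ρ)) k := fun k => (bb_pos hs k).le
    have hS0 : 0 ≤ ∑ k ∈ Finset.range n, bb (ρ * (1 - ρ)) k :=
      Finset.sum_nonneg (fun k _ => hnn k)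
    have h2 : ∑ k ∈ Finset.range n, bb (ρ * (1 - ρ)) (k + 1) ≤
        (∑ k ∈ Finset.range n, bb (ρ * (1 - ρ)) k) * ∑ k ∈ Finset.range n, bb (ρ * (1 - ρ)) k := by
      calc ∑ k ∈ Finset.range n, bb (ρ * (1 - ρ)) (k + 1)
          = ∑ k ∈ Finset.range n, ∑ j ∈ Finset.range (k + 1),
              bb (ρ * (1 - ρ)) j * bb (ρ * (1 - ρ)) (k - j) :=
            Finset.sum_congr rfl (fun k _ => bb_succ_conv _ k)
        _ = ∑ j ∈ Finset.range n, ∑ l ∈ Finset.range (n - j),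
              bb (ρ * (1 - ρ)) j * bb (ρ * (1 - ρ)) l :=
            Finset.sum_range_diag_flip n (fun j l => bb (ρ * (1 - ρ)) j * bb (ρ * (1 - ρ)) l)
        _ ≤ ∑ j ∈ Finset.range n, ∑ l ∈ Finset.range n,
              bb (ρ * (1 - ρ)) j * bb (ρ * (1 - ρ)) l := by
            refine Finset.sum_le_sum (fun j _ => ?_)
            refine Finset.sum_le_sum_of_subset_of_nonneg ?_ (fun l _ _ => mul_nonneg (hnn j) (hnn l))
            intro l hl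
            rw [Finset.mem_range] at hl ⊢
            omega
        _ = _ := by rw [Finset.sum_mul_sum]
    have h3 : (∑ k ∈ Finset.range n, bb (ρ * (1 - ρ)) k) *
        ∑ k ∈ Finset.range n, bb (ρ * (1 - ρ)) k ≤ (1 - ρ) * (1 - ρ) :=
      mul_le_mul ih ih hS0 (by linarith)
    nlinarith

private theorem summable_bb (h0 : 1 / 2 < ρ) (h1 : ρ < 1) : Summable (bb (ρ * (1 - ρ))) :=
  (summable_rr h0 h1).mul_left (ρ * (1 - ρ))

theorem hasSum_bb (h0 : 1 / 2 < ρ) (h1 : ρ < 1) : HasSum (bb (ρ * (1 - ρ))) (1 - ρ) := by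
  have hs := s_pos h0 h1
  have hsum := summable_bb h0 h1
  have hnn : ∀ k, 0 ≤ bb (ρ * (1 - ρ)) k := fun k => (bb_pos hs k).le
  have hle : ∑' k, bb (ρ * (1 - ρ)) k ≤ 1 - ρ :=
    Real.tsum_le_of_sum_range_le hnn (fun n => sum_bb_le h0 h1 n)
  have hnorm : Summable (fun k => ‖bb (ρ * (1 - ρ)) k‖) := hsum.norm
  have hprod := tsum_mul_tsum_eq_tsum_sum_range_of_summable_norm hnorm hnorm
  have h2 : (∑' k, bb (ρ * (1 - ρ)) k) * (∑' k, bb (ρ * (1 - ρ)) k) =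
      ∑' n, bb (ρ * (1 - ρ)) (n + 1) := by
    rw [hprod]
    exact tsum_congr (fun n => (bb_succ_conv _ n).symm)
  have h3 : ∑' k, bb (ρ * (1 - ρ)) k = bb (ρ * (1 - ρ)) 0 + ∑' n, bb (ρ * (1 - ρ)) (n + 1) :=
    hsum.tsum_eq_zero_add
  rw [← h2, bb_zero] at h3
  set V := ∑' k, bb (ρ * (1 - ρ)) k with hV
  have h4 : (V - ρ) * (V - (1 - ρ)) = 0 := by nlinarith
  have h5 : V = 1 - ρ := by
    rcases mul_eq_zero.1 h4 with h | h
    · linarith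
    · linarith
  have h6 := hsum.hasSum
  rw [← hV, h5] at h6
  exact h6

theorem le_uu (h0 : 1 / 2 < ρ) (h1 : ρ < 1) (n : ℕ) : ρ ≤ uu (ρ * (1 - ρ)) n := by
  have h := sum_bb_le h0 h1 n
  unfold uu
  linarith

theorem uu_le_one (h0 : 1 / 2 < ρ) (h1 : ρ < 1) (n : ℕ) : uu (ρ * (1 - ρ)) n ≤ 1 := by
  have h : 0 ≤ ∑ k ∈ Finset.range n, bb (ρ * (1 - ρ)) k :=
    Finset.sum_nonneg (fun k _ => (bb_pos (s_pos h0 h1) k).le)
  unfold uu
  linarith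

theorem tsum_rr (h0 : 1 / 2 < ρ) (h1 : ρ < 1) : ρ * ∑' n, rr (ρ * (1 - ρ)) n = 1 := by
  have h := (hasSum_bb h0 h1).tsum_eq
  have h2 : ∑' n, bb (ρ * (1 - ρ)) n = ρ * (1 - ρ) * ∑' n, rr (ρ * (1 - ρ)) n := tsum_mul_left
  rw [h2] at h
  have h3 : (1 - ρ) ≠ 0 := by
    intro h4
    linarith
  have h4 : (1 - ρ) * (ρ * ∑' n, rr (ρ * (1 - ρ)) n) = (1 - ρ) * 1 := by
    rw [mul_one]
    linarith [h, mul_comm ρ (1 - ρ), mul_assoc (1 - ρ) ρ (∑' n, rr (ρ * (1 - ρ)) n),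
      congrArg (fun t => t * ∑' n, rr (ρ * (1 - ρ)) n) (mul_comm ρ (1 - ρ))]
  exact mul_left_cancel₀ h3 h4

theorem hasSum_ff (h0 : 1 / 2 < ρ) (h1 : ρ < 1) : HasSum (ff (ρ * (1 - ρ))) 1 := by
  have hs := s_pos h0 h1
  rw [hasSum_iff_tendsto_nat_of_nonneg (fun i => (ff_pos hs (four_s_lt h0) i).le)]
  have h : Tendsto (fun n => 1 - rr (ρ * (1 - ρ)) n) atTop (𝓝 (1 - 0)) :=
    tendsto_const_nhds.sub (tendsto_rr h0 h1)
  rw [sub_zero] at h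
  refine h.congr (fun n => ?_)
  rw [sum_f]

end Pool.Agent.Helper96.PK
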