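import Pool.Agent.Helper96.PK.Defs

set_option autoImplicit false

/-!
# PK-28: coordinates

* `cs_length`: `(lev n).length = 2 (3n+4)`.
* `edge_injective`: case distinction on `fl` and the side.
* `cs_nodup`: the elements of `cs n` have level `< n`, those of `lev n` have level `n`; in `lev n` the
  index and the side determine the position.
* `fwd_*`: the meaning of the forward field, by unfolding `pos`, `edge`, `fwd`, `Arrow` (`omega`/`push_cast`
  for the coordinates).
-/

namespace Pool.Agent.Helper96.PK

theorem cs_length (n : ℕ) : (cs n).length = Nn n := by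
  induction n with
  | zero => rfl
  | succ n ih =>
    have h : (lev n).length = 2 * (3 * n + 4) := by
      simp [lev, List.length_flatMap, mul_comm]
    rw [cs, List.length_append, ih, h]
    rfl

theorem edge_injective (fl : Bool) : Function.Injective (edge fl) := by
  rintro ⟨n, i, b⟩ ⟨n', i', b'⟩ h
  cases fl <;> cases b <;> cases b' <;> simp [edge] at h ⊢ <;> omega

private theorem cs_level (n : ℕ) : ∀ c ∈ cs n, c.1 < n := by
  induction n with
  | zero =>
    intro c hc
    simp [cs] at hc
  | succ n ih =>
    intro c hc
    rw [cs, List.mem_append] at hc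
    rcases hc with hc | hc
    · exact (ih c hc).trans (Nat.lt_succ_self n)
    · have : c.1 = n := by
        simp only [lev, List.mem_flatMap, List.mem_cons, List.not_mem_nil, or_false] at hc
        obtain ⟨j, _, h | h⟩ := hc
        · rw [h]
        · rw [h]
      omega

private theorem lev_nodup (n : ℕ) : (lev n).Nodup := by
  rw [lev, List.nodup_flatMap]
  constructor
  · intro j _
    simp
  · have e : (do let a ← List.range (3 * n + 4); pure (a : ℤ) : List ℤ) =
        (List.range (3 * n + 4)).map (fun a : ℕ => (a : ℤ)) := by
      rw [List.map_eq_flatMap]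
      rfl
    rw [e]
    refine List.Pairwise.imp ?_ (List.Nodup.map Nat.cast_injective (List.nodup_range (n := 3 * n + 4)))
    intro a b hab
    simp only [Function.onFun, List.Disjoint, List.mem_cons, List.not_mem_nil, or_false]
    rintro c (rfl | rfl) (h | h)
    · simp only [Prod.mk.injEq, and_true, true_and] at h
      omega
    · simp at h
    · simp at h
    · simp only [Prod.mk.injEq, and_true, true_and] at h
      omega

theorem cs_nodup (n : ℕ) : (cs n).Nodup := by
  induction n with
  | zero => simp [cs]
  | succ n ih =>
    rw [cs, List.nodup_append']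
    refine ⟨ih, lev_nodup n, ?_⟩
    intro c hc hc'
    have h1 := cs_level n c hc
    have h2 : c.1 = n := by
      simp only [lev, List.mem_flatMap, List.mem_cons, List.not_mem_nil, or_false] at hc'
      obtain ⟨j, _, h | h⟩ := hc'
      · rw [h]
      · rw [h]
    omega

theorem fwd_right {fl : Bool} {ω : ℤ × ℤ × Bool → Bool} {n : ℕ} {i : ℤ}
    (h : fwd fl ω (n, i, false) = true) : Arrow ω (pos fl n i) (pos fl (n + 1) (i + 1)) := by
  cases fl with
  | false =>
    simp only [fwd, edge, Bool.false_eq_true, if_false, Bool.false_xor] at h
    left
    simp only [pos, Bool.false_eq_true, if_false]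
    refine ⟨?_, h⟩
    push_cast
    ext <;> simp
  | true =>
    simp only [fwd, edge, if_true, Bool.true_xor, Bool.not_eq_true'] at h
    right; left
    simp only [pos, if_true]
    refine ⟨?_, h⟩
    push_cast
    ext <;> simp <;> ring

theorem bwd_right {fl : Bool} {ω : ℤ × ℤ × Bool → Bool} {n : ℕ} {i : ℤ}
    (h : fwd fl ω (n, i, false) = false) : Arrow ω (pos fl (n + 1) (i + 1)) (pos fl n i) := by
  cases fl with
  | false =>
    simp only [fwd, edge, Bool.false_eq_true, if_false, Bool.false_xor] at h
    right; left
    have e : pos false (n + 1) (i + 1) = (i + 1, (n : ℤ) - i) := by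
      simp only [pos, Bool.false_eq_true, if_false]
      push_cast
      ext <;> simp
    rw [e]
    simp only [pos, Bool.false_eq_true, if_false, add_sub_cancel_right]
    exact ⟨trivial, h⟩
  | true =>
    simp only [fwd, edge, if_true, Bool.true_xor, Bool.not_eq_false'] at h
    left
    have e : pos true (n + 1) (i + 1) = (-i - 1, -((n : ℤ) - i)) := by
      simp only [pos, if_true]
      push_cast
      ext <;> simp <;> ring
    rw [e]
    simp only [pos, if_true, sub_add_cancel]
    exact ⟨trivial, h⟩

theorem fwd_left {fl : Bool} {ω : ℤ × ℤ × Bool → Bool} {n : ℕ} {i : ℤ}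
    (h : fwd fl ω (n, i, true) = true) : Arrow ω (pos fl n i) (pos fl (n + 1) i) := by
  cases fl with
  | false =>
    simp only [fwd, edge, Bool.false_eq_true, if_false, Bool.false_xor] at h
    right; right; left
    simp only [pos, Bool.false_eq_true, if_false]
    refine ⟨?_, h⟩
    push_cast
    ext <;> simp <;> ring
  | true =>
    simp only [fwd, edge, if_true, Bool.true_xor, Bool.not_eq_true'] at h
    right; right; right
    simp only [pos, if_true]
    refine ⟨?_, h⟩
    push_cast
    ext <;> simp <;> ring

theorem bwd_left {fl : Bool} {ω : ℤ × ℤ × Bool → Bool} {n : ℕ} {i : ℤ}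
    (h : fwd fl ω (n, i, true) = false) : Arrow ω (pos fl (n + 1) i) (pos fl n i) := by
  cases fl with
  | false =>
    simp only [fwd, edge, Bool.false_eq_true, if_false, Bool.false_xor] at h
    right; right; right
    have e : pos false (n + 1) i = (i, (n : ℤ) - i + 1) := by
      simp only [pos, Bool.false_eq_true, if_false]
      push_cast
      ext <;> simp <;> ring
    rw [e]
    simp only [pos, Bool.false_eq_true, if_false, add_sub_cancel_right]
    exact ⟨trivial, h⟩
  | true =>
    simp only [fwd, edge, if_true, Bool.true_xor, Bool.not_eq_false'] at h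
    right; right; left
    have e : pos true (n + 1) i = (-i, -((n : ℤ) - i) - 1) := by
      simp only [pos, if_true]
      push_cast
      ext <;> simp <;> ring
    rw [e]
    simp only [pos, if_true, sub_add_cancel]
    exact ⟨trivial, h⟩

/-- Different levels are different sites. -/
theorem pos_level {fl : Bool} {n n' : ℕ} {i i' : ℤ} (h : pos fl n i = pos fl n' i') : n = n' := by
  cases fl <;> simp [pos] at h <;> omega

theorem pos_zero (fl : Bool) : pos fl 0 0 = (0, 0) := by
  cases fl <;> simp [pos]

end Pool.Agent.Helper96.PK
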