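import Pool.Agent.Helper96.PK.ExtPos

set_option autoImplicit false

/-!
# PK-21: the extension inequality

`L` is a functional on words with `L (y ++ [false]) = L y`; suppose that for every word `y` there is a
nonnegative sequence `γ y` with
`r_j (L(y0) - L(y1)) - (L(y 0 1^j) - L(y 1 1^j)) = ∑_{n<j} r_(j-1-n) γ y n`.
Then `L (y ++ w) ≤ ext r w (fun j => L (y ++ ones j))`.

Induction on `w`, for all `y`. `w = []`: equality (`ones 0 = []`).
`true :: w`: `y ++ true :: w = (y ++ [true]) ++ w`, and `(y ++ [true]) ++ ones j = y ++ ones (j+1)`.
`false :: w`: by induction `L (y ++ false :: w) ≤ ext w (fun j => L (y ++ false :: ones j))`, and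
`ext (false::w) (fun j => L (y ++ ones j)) - ext w (fun j => L (y ++ false :: ones j))
  = ext w (fun j => L (y ++ true :: ones j) + r_j (L y - L (y ++ [true])) - L (y ++ false :: ones j))`
(linearity, `VR r w 0 = ext r w r`, and `L y = L (y ++ [false])`)
`= ext w (fun j => ∑_{n<j} r_(j-1-n) γ y n) ≥ 0` by `ext_conv_nonneg`.
-/

namespace Pool.Agent.Helper96.PK

theorem ext_ineq {r : ℕ → ℝ} (hr : Antitone r) (hr0 : r 0 = 1) (hrn : ∀ n, 0 ≤ r n)
    {L : List Bool → ℝ} (hL : ∀ y, L (y ++ [false]) = L y) (γ : List Bool → ℕ → ℝ)
    (hγ : ∀ y n, 0 ≤ γ y n)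
    (hD : ∀ y j, r j * (L (y ++ [false]) - L (y ++ [true])) -
      (L (y ++ false :: ones j) - L (y ++ true :: ones j)) =
      ∑ n ∈ Finset.range j, r (j - 1 - n) * γ y n) (w y : List Bool) :
    L (y ++ w) ≤ ext r w (fun j => L (y ++ ones j)) := by
  induction w generalizing y with
  | nil => simp [ext, ones]
  | cons b w ih =>
    cases b with
    | true =>
      have h1 := ih (y ++ [true])
      have e1 : y ++ true :: w = (y ++ [true]) ++ w := by simp
      have e2 : (fun j => L ((y ++ [true]) ++ ones j)) = (fun j => L (y ++ ones (j + 1))) := by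
        funext j
        congr 1
        simp [ones, List.replicate_succ]
      rw [e1]
      rw [e2] at h1
      simpa only [ext] using h1
    | false =>
      have h1 := ih (y ++ [false])
      have e1 : y ++ false :: w = (y ++ [false]) ++ w := by simp
      have e2 : (fun j => L ((y ++ [false]) ++ ones j)) = (fun j => L (y ++ false :: ones j)) := by
        funext j
        congr 1
        simp
      rw [e1]
      rw [e2] at h1
      have e3 : ext r (false :: w) (fun j => L (y ++ ones j)) =
          ext r w (fun j => L (y ++ true :: ones j)) +
            VR r w 0 * (L (y ++ [false]) - L (y ++ [true])) := by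
        have e4 : (fun j => L (y ++ ones (j + 1))) = (fun j => L (y ++ true :: ones j)) := by
          funext j
          congr 1
        have e5 : L (y ++ ones 0) = L (y ++ [false]) := by
          rw [hL y]
          simp [ones]
        have e6 : L (y ++ ones 1) = L (y ++ [true]) := by
          congr 1
        simp only [ext]
        rw [e4, e5, e6]
      have e7 : VR r w 0 * (L (y ++ [false]) - L (y ++ [true])) =
          ext r w (fun j => (L (y ++ [false]) - L (y ++ [true])) * r j) := by
        rw [ext_mul, VR_eq_ext]
        simp only [Nat.zero_add]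
        ring
      have e8 : ext r w (fun j => L (y ++ true :: ones j)) +
          ext r w (fun j => (L (y ++ [false]) - L (y ++ [true])) * r j) -
          ext r w (fun j => L (y ++ false :: ones j)) =
          ext r w (fun j => ∑ n ∈ Finset.range j, r (j - 1 - n) * γ y n) := by
        rw [← ext_add, ← ext_sub]
        congr 1
        funext j
        have := hD y j
        linarith
      have h9 := ext_conv_nonneg r hr hr0 hrn (γ y) (hγ y) w
      rw [e3, e7]
      linarith

end Pool.Agent.Helper96.PK
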