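import Pool.Agent.Helper96.PK.ExtPos

set_option autoImplicit false

/-!
# PK-23: comparison of the sequences on `1^j`

`l j = L(1^j)`, `l 0 = 1`, `l j → 0`; `γ ≥ 0`, and with `X j = l j - l (j+1)`
(`= L(0 1^j) - L(1 1^j)` by stationarity): `r_j X_0 - X_j = ∑_{n<j} r_(j-1-n) γ n`. Claim:
`ext r w l ≤ ext r w (fun j => 1 - ρ ∑_{k<j} r k)`.

Put `γ' n = X 0 - ρ - ∑_{k<n} γ k` (antitone) and `ψ j = 1 - ρ ∑_{k<j} r k - l j`.
(1) `ψ j = ∑_{n<j} r_(j-1-n) γ' n`: induction on `j`; `ψ (j+1) - ψ j = X j - ρ r_j`, and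
`∑_{n<j+1} r_(j-n) γ' n = r_j γ' 0 + ∑_{n<j} r_(j-1-n) γ' (n+1)`, `γ' (n+1) = γ' n - γ n`.
(2) `γ' n ≥ 0` for all `n`: otherwise `γ' n ≤ -η < 0` for all `n ≥ n0`, and then for `j > n0`
`ψ j ≤ ∑_{n<n0} r_(j-1-n) γ' n - η r_0` (the terms `n ≥ n0` are `≤ 0`, the last one is
`r_0 γ' (j-1) ≤ -η`), whose limit for `j → ∞` is `-η` (`r → 0`), but `ψ j → 0` because
`ρ ∑ r = 1` and `l → 0`. Contradiction.
(3) `ext_conv_nonneg` and `ext_sub`.
-/

namespace Pool.Agent.Helper96.PK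

open Filter Topology

private lemma conv_formula {r : ℕ → ℝ} {ρ : ℝ} {l : ℕ → ℝ} (hl0 : l 0 = 1) {γ : ℕ → ℝ}
    (hX : ∀ j, r j * (l 0 - l 1) - (l j - l (j + 1)) =
      ∑ n ∈ Finset.range j, r (j - 1 - n) * γ n) (j : ℕ) :
    1 - ρ * ∑ k ∈ Finset.range j, r k - l j =
      ∑ n ∈ Finset.range j, r (j - 1 - n) *
        (l 0 - l 1 - ρ - ∑ k ∈ Finset.range n, γ k) := by
  induction j with
  | zero => simp [hl0]
  | succ j ih =>
    have h1 : ∑ n ∈ Finset.range (j + 1), r (j + 1 - 1 - n) *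
          (l 0 - l 1 - ρ - ∑ k ∈ Finset.range n, γ k) =
        ∑ n ∈ Finset.range j, r (j - 1 - n) * (l 0 - l 1 - ρ - ∑ k ∈ Finset.range n, γ k) -
          ∑ n ∈ Finset.range j, r (j - 1 - n) * γ n + r j * (l 0 - l 1 - ρ) := by
      rw [Finset.sum_range_succ', ← Finset.sum_sub_distrib]
      congr 1
      · refine Finset.sum_congr rfl fun n _ => ?_
        have h2 : j + 1 - 1 - (n + 1) = j - 1 - n := by omega
        rw [h2, Finset.sum_range_succ]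
        ring
      · simp
    rw [h1, ← ih, ← hX j, Finset.sum_range_succ]
    ring

private lemma tail_nonneg {r : ℕ → ℝ} {ρ : ℝ} (hr0 : r 0 = 1) (hrn : ∀ n, 0 ≤ r n)
    (hs : Summable r) (hρ : ρ * ∑' n, r n = 1) {l : ℕ → ℝ} (hl0 : l 0 = 1)
    (hl : Tendsto l atTop (𝓝 0)) {γ : ℕ → ℝ} (hγ : ∀ n, 0 ≤ γ n)
    (hX : ∀ j, r j * (l 0 - l 1) - (l j - l (j + 1)) =
      ∑ n ∈ Finset.range j, r (j - 1 - n) * γ n) (n₀ : ℕ) :
    0 ≤ l 0 - l 1 - ρ - ∑ k ∈ Finset.range n₀, γ k := by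
  set γ' : ℕ → ℝ := fun n => l 0 - l 1 - ρ - ∑ k ∈ Finset.range n, γ k with hγ'
  have hanti : Antitone γ' := by
    refine antitone_nat_of_succ_le fun n => ?_
    simp only [hγ', Finset.sum_range_succ]
    linarith [hγ n]
  have hlim : Tendsto (fun j => 1 - ρ * ∑ k ∈ Finset.range j, r k - l j) atTop (𝓝 0) := by
    have h1 := ((hs.hasSum.tendsto_sum_nat.const_mul ρ).const_sub 1).sub hl
    rw [hρ] at h1
    simpa using h1
  have hlim2 : Tendsto (fun m => 1 - ρ * ∑ k ∈ Finset.range (m + (n₀ + 1)), r k -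
      l (m + (n₀ + 1))) atTop (𝓝 0) :=
    hlim.comp (tendsto_add_atTop_nat (n₀ + 1))
  have hsum : Tendsto (fun m => ∑ n ∈ Finset.range n₀, r (m + n₀ - n) * γ' n) atTop (𝓝 0) := by
    have h1 : Tendsto (fun m => ∑ n ∈ Finset.range n₀, r (m + n₀ - n) * γ' n) atTop
        (𝓝 (∑ n ∈ Finset.range n₀, 0 * γ' n)) := by
      refine tendsto_finsetSum _ fun n hn => ?_
      refine Tendsto.mul_const _ ?_
      refine hs.tendsto_atTop_zero.comp ?_
      refine tendsto_atTop_mono (fun m => ?_) tendsto_id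
      have := Finset.mem_range.mp hn
      simp only [id]
      omega
    simpa using h1
  by_contra hneg
  rw [not_le] at hneg
  have hneg' : γ' n₀ < 0 := hneg
  have hle : ∀ m, 1 - ρ * ∑ k ∈ Finset.range (m + (n₀ + 1)), r k - l (m + (n₀ + 1)) ≤
      ∑ n ∈ Finset.range n₀, r (m + n₀ - n) * γ' n + γ' n₀ := by
    intro m
    rw [conv_formula hl0 hX (m + (n₀ + 1))]
    have h1 : m + (n₀ + 1) = n₀ + (m + 1) := by ring
    have h2 : ∑ n ∈ Finset.range (m + (n₀ + 1)), r (m + (n₀ + 1) - 1 - n) * γ' n =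
        ∑ n ∈ Finset.range n₀, r (m + n₀ - n) * γ' n +
          (∑ i ∈ Finset.range m, r (m - i) * γ' (n₀ + i) + γ' (n₀ + m)) := by
      rw [h1, Finset.sum_range_add, Finset.sum_range_succ]
      congr 1
      · refine Finset.sum_congr rfl fun n _ => ?_
        congr 2
        omega
      · congr 1
        · refine Finset.sum_congr rfl fun i _ => ?_
          congr 2
          omega
        · have h3 : n₀ + (m + 1) - 1 - (n₀ + m) = 0 := by omega
          rw [h3, hr0, one_mul]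
    have h4 : ∑ i ∈ Finset.range m, r (m - i) * γ' (n₀ + i) ≤ 0 := by
      refine Finset.sum_nonpos fun i _ => ?_
      have h5 : γ' (n₀ + i) ≤ γ' n₀ := hanti (Nat.le_add_right _ _)
      exact mul_nonpos_of_nonneg_of_nonpos (hrn _) (by linarith)
    have h6 : γ' (n₀ + m) ≤ γ' n₀ := hanti (Nat.le_add_right _ _)
    refine h2.le.trans ?_
    linarith
  have h7 := le_of_tendsto_of_tendsto' hlim2 (hsum.add_const (γ' n₀)) hle
  linarith

theorem final_ext {r : ℕ → ℝ} {ρ : ℝ} (hr : Antitone r) (hr0 : r 0 = 1) (hrn : ∀ n, 0 ≤ r n)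
    (hs : Summable r) (hρ : ρ * ∑' n, r n = 1) {l : ℕ → ℝ} (hl0 : l 0 = 1)
    (hl : Tendsto l atTop (𝓝 0)) {γ : ℕ → ℝ} (hγ : ∀ n, 0 ≤ γ n)
    (hX : ∀ j, r j * (l 0 - l 1) - (l j - l (j + 1)) =
      ∑ n ∈ Finset.range j, r (j - 1 - n) * γ n) (w : List Bool) :
    ext r w l ≤ ext r w (fun j => 1 - ρ * ∑ k ∈ Finset.range j, r k) := by
  have h1 := ext_conv_nonneg r hr hr0 hrn
    (fun n => l 0 - l 1 - ρ - ∑ k ∈ Finset.range n, γ k)
    (tail_nonneg hr0 hrn hs hρ hl0 hl hγ hX) w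
  have h2 : (fun j => ∑ n ∈ Finset.range j, r (j - 1 - n) *
      (l 0 - l 1 - ρ - ∑ k ∈ Finset.range n, γ k)) =
      fun j => (1 - ρ * ∑ k ∈ Finset.range j, r k) - l j :=
    funext fun j => (conv_formula hl0 hX j).symm
  rw [h2, ext_sub] at h1
  linarith

end Pool.Agent.Helper96.PK
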