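import Pool.Agent.Helper96.PK.ExtPos

set_option autoImplicit false

/-!
# PK-20: the stationary avoidance probability `RR`

Hypotheses: `r 0 = 1`, `r` antitone, nonnegative, summable, `ρ ∑ r = 1`, `0 < ρ`.
* `RR_eq_tsum`: `RR r ρ w = ρ ∑_i VR r w i`. By `VR_eq_ext` and `∑_i r (i+j) = ∑_i r i - ∑_{k<j} r k`
  this is `ext` of a sum = sum of `ext`; prove it by induction on `w` in the form
  `∀ N, ext r w (fun j => 1 - ρ ∑_{k<j+N} r k) = ρ ∑'_i VR r w (i + N)`:
  for `[]`: `1 - ρ ∑_{k<N} r k = ρ ∑'_i r (i+N)` (`Summable.sum_add_tsum_nat_add`);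
  `true :: w`: `VR r (true::w) (i+N) = VR r w (i+(N+1))`;
  `false :: w`: `VR r (false::w) (i+N) = fr r (i+N) * VR r w 0 + VR r w (i+N+1)` and
  `∑'_i fr r (i+N) = r N` (telescoping, `r → 0`), while `ψ 0 - ψ 1 = ρ r N`.
* the rest from `0 ≤ VR r w i ≤ r i`, `VR_zeros`.
-/

namespace Pool.Agent.Helper96.PK

variable {r : ℕ → ℝ} {ρ : ℝ}

theorem summable_VR (hr : Antitone r) (hr0 : r 0 = 1) (hrn : ∀ n, 0 ≤ r n) (hs : Summable r)
    (w : List Bool) : Summable (VR r w) := by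
  exact Summable.of_nonneg_of_le (VR_nonneg r hr hrn w) (VR_le r hr hr0 hrn w) hs

private theorem tsum_fr (hs : Summable r) (N : ℕ) :
    HasSum (fun i => fr r (i + N)) (r N) := by
  have h1 : Summable fun i => r (i + N) := (summable_nat_add_iff N).2 hs
  have h2 : Summable fun i => r (i + 1 + N) := by
    have h3 := (summable_nat_add_iff 1).2 h1
    exact h3
  have h3 : ∑' i, r (i + N) = r (0 + N) + ∑' i, r (i + 1 + N) := h1.tsum_eq_zero_add
  have h4 := h1.hasSum.sub h2.hasSum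
  have h5 : ∑' i, r (i + N) - ∑' i, r (i + 1 + N) = r N := by
    rw [h3, zero_add]
    ring
  rw [h5] at h4
  refine h4.congr_fun ?_
  intro i
  unfold fr
  rw [add_right_comm]

private theorem ext_tail (hr : Antitone r) (hr0 : r 0 = 1) (hrn : ∀ n, 0 ≤ r n) (hs : Summable r)
    (hρ : ρ * ∑' n, r n = 1) (w : List Bool) : ∀ N : ℕ,
    ext r w (fun j => 1 - ρ * ∑ k ∈ Finset.range (j + N), r k) = ρ * ∑' i, VR r w (i + N) := by
  induction w with
  | nil =>
    intro N
    change 1 - ρ * ∑ k ∈ Finset.range (0 + N), r k = ρ * ∑' i, r (i + N)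
    have h1 := hs.sum_add_tsum_nat_add N
    rw [zero_add, ← hρ, ← h1]
    ring
  | cons b w ih =>
    intro N
    have h0 : ext r w (fun j => 1 - ρ * ∑ k ∈ Finset.range (j + 1 + N), r k) =
        ρ * ∑' i, VR r w (i + N + 1) := by
      have h1 := ih (N + 1)
      have h2 : (fun j => 1 - ρ * ∑ k ∈ Finset.range (j + 1 + N), r k) =
          fun j => 1 - ρ * ∑ k ∈ Finset.range (j + (N + 1)), r k := by
        funext j
        rw [add_assoc, add_comm 1 N]
      rw [h2, h1]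
      rfl
    cases b with
    | true =>
      change ext r w (fun j => 1 - ρ * ∑ k ∈ Finset.range (j + 1 + N), r k) =
        ρ * ∑' i, VR r w (i + N + 1)
      exact h0
    | false =>
      change ext r w (fun j => 1 - ρ * ∑ k ∈ Finset.range (j + 1 + N), r k) +
        VR r w 0 * ((1 - ρ * ∑ k ∈ Finset.range (0 + N), r k) -
          (1 - ρ * ∑ k ∈ Finset.range (1 + N), r k)) =
        ρ * ∑' i, (fr r (i + N) * VR r w 0 + VR r w (i + N + 1))
      have h1 : Summable fun i => VR r w (i + N + 1) := by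
        have h2 := (summable_nat_add_iff (N + 1)).2 (summable_VR hr hr0 hrn hs w)
        exact h2
      have h2 := ((tsum_fr hs N).mul_right (VR r w 0)).add h1.hasSum
      rw [h2.tsum_eq, h0, zero_add, add_comm 1 N, Finset.sum_range_succ]
      ring

theorem RR_eq_tsum (hr : Antitone r) (hr0 : r 0 = 1) (hrn : ∀ n, 0 ≤ r n) (hs : Summable r)
    (hρ : ρ * ∑' n, r n = 1) (w : List Bool) : RR r ρ w = ρ * ∑' i, VR r w i := by
  have h1 := ext_tail hr hr0 hrn hs hρ w 0
  simp only [add_zero] at h1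
  exact h1

theorem RR_nonneg (hr : Antitone r) (hr0 : r 0 = 1) (hrn : ∀ n, 0 ≤ r n) (hs : Summable r)
    (hρ : ρ * ∑' n, r n = 1) (hρ0 : 0 < ρ) (w : List Bool) : 0 ≤ RR r ρ w := by
  rw [RR_eq_tsum hr hr0 hrn hs hρ]
  exact mul_nonneg hρ0.le (tsum_nonneg (VR_nonneg r hr hrn w))

theorem RR_le_one (hr : Antitone r) (hr0 : r 0 = 1) (hrn : ∀ n, 0 ≤ r n) (hs : Summable r)
    (hρ : ρ * ∑' n, r n = 1) (hρ0 : 0 < ρ) (w : List Bool) : RR r ρ w ≤ 1 := by
  rw [RR_eq_tsum hr hr0 hrn hs hρ, ← hρ]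
  exact mul_le_mul_of_nonneg_left
    ((summable_VR hr hr0 hrn hs w).tsum_le_tsum (VR_le r hr hr0 hrn w) hs) hρ0.le

theorem RR_eq_one (hr : Antitone r) (hr0 : r 0 = 1) (hrn : ∀ n, 0 ≤ r n) (hs : Summable r)
    (hρ : ρ * ∑' n, r n = 1) (w : List Bool) (hw : true ∉ w) : RR r ρ w = 1 := by
  rw [RR_eq_tsum hr hr0 hrn hs hρ]
  have h1 : w = zeros w.length := by
    refine List.eq_replicate_iff.2 ⟨rfl, fun b hb => ?_⟩
    cases b with
    | false => rfl
    | true => exact absurd hb hw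
  rw [h1]
  have h2 : (fun i => VR r (zeros w.length) i) = r := by
    funext i
    exact VR_zeros r hr0 _ i
  rw [h2, hρ]

theorem RR_true (hr0 : r 0 = 1) : RR r ρ [true] = 1 - ρ := by
  change 1 - ρ * ∑ k ∈ Finset.range (0 + 1), r k = 1 - ρ
  rw [zero_add, Finset.sum_range_one, hr0, mul_one]

end Pool.Agent.Helper96.PK
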