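import Pool.Agent.Helper96.PK.LimOnes
import Pool.Agent.Helper96.PK.FinalExt
import Pool.Agent.Helper96.PK.Cstar
import Pool.Agent.Helper96.PK.RRsum

set_option autoImplicit false

/-! # The core inequality `L(w) ≤ R(w)` -/

namespace Pool.Agent.Helper96.PK

theorem LL_le_RR {a g ρ κ : ℝ} (h : Good a g ρ κ) (w : List Bool) :
    LL a g (rr (ρ * (1 - ρ))) ρ w ≤ RR (rr (ρ * (1 - ρ))) ρ w := by
  have hs := s_pos h.ρ0 h.ρ1
  have h4 := four_s_lt h.ρ0
  have hr := rr_antitone hs h4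
  have hr0 := rr_zero (ρ * (1 - ρ))
  have hrn : ∀ n, 0 ≤ rr (ρ * (1 - ρ)) n := fun n => (rr_pos hs n).le
  have h1 := ext_ineq hr hr0 hrn (L := LL a g (rr (ρ * (1 - ρ))) ρ) (LL_append_false h)
    (fun y n => ρ * ∑' i, Gam a g (ρ * (1 - ρ)) n y (St.c i)) (fun y n => gam_nonneg h n y)
    (LL_decomp h) w []
  have h2 := final_ext (ρ := ρ) hr hr0 hrn (summable_rr h.ρ0 h.ρ1) (tsum_rr h.ρ0 h.ρ1)
    (l := fun j => LL a g (rr (ρ * (1 - ρ))) ρ (ones j)) (LL_nil h) (tendsto_LL_ones h)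
    (γ := fun n => ρ * ∑' i, Gam a g (ρ * (1 - ρ)) n [] (St.c i)) (fun n => gam_nonneg h n [])
    (by
      intro j
      have h3 := LL_decomp h [] j
      simp only [List.nil_append] at h3
      rw [← h3]
      have e1 : LL a g (rr (ρ * (1 - ρ))) ρ [false] = LL a g (rr (ρ * (1 - ρ))) ρ (ones 0) :=
        LL_false h []
      have e2 : LL a g (rr (ρ * (1 - ρ))) ρ (false :: ones j) =
        LL a g (rr (ρ * (1 - ρ))) ρ (ones j) := LL_false h _
      rw [e1, e2]
      rfl) w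
  simp only [List.nil_append] at h1
  exact h1.trans h2

end Pool.Agent.Helper96.PK
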