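import Mathlib

set_option autoImplicit false

/-!
# Project PK (MP_27014f_pr): definitions

`r` is the tail of a gap law, `fr r i = r i - r (i+1)`. The words are lists of Booleans: `true`
means that the letter is avoided by the renewal set, `false` means that there is no condition.
-/

noncomputable section

namespace Pool.Agent.Helper96.PK

/-! ## The Catalan sequences -/

/-- `r_n = s^n C_n`. -/
def rr (s : ℝ) (n : ℕ) : ℝ := s ^ n * (catalan n : ℝ)

/-- The gap law of the tail `r`. -/
def fr (r : ℕ → ℝ) (i : ℕ) : ℝ := r i - r (i + 1)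

/-- `f_i = r_i - r_(i+1)`. -/
def ff (s : ℝ) (i : ℕ) : ℝ := fr (rr s) i

/-- `b_n = s r_n`. -/
def bb (s : ℝ) (n : ℕ) : ℝ := s * rr s n

/-- The renewal sequence: `u_n - u_(n+1) = b_n`. -/
def uu (s : ℝ) (n : ℕ) : ℝ := 1 - ∑ k ∈ Finset.range n, bb s k

/-! ## The states and the recursion -/

/-- States: `c i` closed, `o i` open just after an avoided letter, `q i` open; the last particle
is at distance `i + 1` to the left of the next letter. -/
inductive St : Type
  | c (i : ℕ) : St
  | o (i : ℕ) : St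
  | q (i : ℕ) : St

/-- The hitting probabilities from the left. -/
def al (a g : ℝ) : ℕ → ℝ
  | 0 => a
  | 1 => g
  | _ => 0

/-- The recursion with terminal function `t`. -/
def Ev (a g : ℝ) (r : ℕ → ℝ) (t : St → ℝ) : List Bool → St → ℝ
  | [], x => t x
  | false :: w, St.c i => fr r i * Ev a g r t w (St.c 0) + Ev a g r t w (St.c (i + 1))
  | true :: w, St.c i => (1 - al a g i) *
      ((1 - a) * fr r i * Ev a g r t w (St.c 0) + Ev a g r t w (St.o (i + 1)))
  | false :: w, St.o i => (1 - g) * fr r i * Ev a g r t w (St.c 0) + Ev a g r t w (St.q (i + 1))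
  | true :: w, St.o i => (1 - a) * fr r i * Ev a g r t w (St.c 0) + Ev a g r t w (St.o (i + 1))
  | false :: w, St.q i => fr r i * Ev a g r t w (St.c 0) + Ev a g r t w (St.q (i + 1))
  | true :: w, St.q i => (1 - a) * fr r i * Ev a g r t w (St.c 0) + Ev a g r t w (St.o (i + 1))

/-- The terminal function of the avoidance weights. -/
def t0 (g : ℝ) (r : ℕ → ℝ) : St → ℝ
  | St.c i => r i
  | St.o i => r i - g * fr r i
  | St.q i => r i

/-- The avoidance weight of the word `w` from the state `x`. -/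
def VV (a g : ℝ) (r : ℕ → ℝ) (w : List Bool) (x : St) : ℝ := Ev a g r (t0 g r) w x

/-- The stationary avoidance weight. -/
def LL (a g : ℝ) (r : ℕ → ℝ) (ρ : ℝ) (w : List Bool) : ℝ := ρ * ∑' i : ℕ, VV a g r w (St.c i)

/-- Avoidance probability of the renewal set itself; last particle at distance `i + 1`. -/
def VR (r : ℕ → ℝ) : List Bool → ℕ → ℝ
  | [], i => r i
  | false :: w, i => fr r i * VR r w 0 + VR r w (i + 1)
  | true :: w, i => VR r w (i + 1)

/-- The extension of a sequence to all words. -/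
def ext (r : ℕ → ℝ) : List Bool → (ℕ → ℝ) → ℝ
  | [], ψ => ψ 0
  | true :: w, ψ => ext r w (fun j => ψ (j + 1))
  | false :: w, ψ => ext r w (fun j => ψ (j + 1)) + VR r w 0 * (ψ 0 - ψ 1)

/-- The stationary avoidance probability of the renewal set. -/
def RR (r : ℕ → ℝ) (ρ : ℝ) (w : List Bool) : ℝ :=
  ext r w (fun j => 1 - ρ * ∑ k ∈ Finset.range j, r k)

/-- The word `1^j`. -/
abbrev ones (j : ℕ) : List Bool := List.replicate j true

/-- The word `0^j`. -/
abbrev zeros (j : ℕ) : List Bool := List.replicate j false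

/-! ## The sequence `x` and the coefficients -/

/-- The sequence `x_n`, by strong recursion. -/
def xx (a g s : ℝ) : ℕ → ℝ
  | n => (1 - a) ^ 2 * ∑ k : Fin n, ff s (n - 1 - k) * xx a g s k +
      (1 - a) * ((if n = 0 then 1 - a else 0) + (a - g * ff s 0) * bb s n + g * bb s (n + 1))
  termination_by n => n
  decreasing_by exact k.2

/-- `A = 1 - a f_0 - g f_1`. -/
def A1 (a g s : ℝ) : ℝ := 1 - a * ff s 0 - g * ff s 1

/-- `B_n`. -/
def Bn (a g s : ℝ) (n : ℕ) : ℝ := (a - g * ff s 0) * bb s n - a * xx a g s n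

/-- `e1_n`. -/
def e1 (a g s : ℝ) (n : ℕ) : ℝ :=
  g * A1 a g s * bb s n - (a - g) / (1 - a) * xx a g s (n + 1) - g * (1 - a) * ff s 0 * xx a g s n

/-- `e2_n`. -/
def e2 (a g s : ℝ) (n : ℕ) : ℝ :=
  -g * (xx a g s (n + 2) / (1 - a) + A1 a g s * bb s (n + 1) - (1 - a) * ff s 0 * xx a g s (n + 1))

/-- `δ_n`. -/
def dl (a g s : ℝ) (n : ℕ) : ℝ := g * bb s n + Bn a g s n + e1 a g s n + e2 a g s n

/-- `Λ_n = δ_n - κ (2 g b_n + B_n - e2_n)`. -/
def Lam (a g s κ : ℝ) (n : ℕ) : ℝ := dl a g s n - κ * (2 * g * bb s n + Bn a g s n - e2 a g s n)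

/-- The terminal functions `K_n`. -/
def Kf (a g s : ℝ) (n : ℕ) : St → ℝ
  | St.c i => a * ff s i * (bb s n - xx a g s n) + g * ff s (i + 1) * bb s n +
      (if i = 0 then e1 a g s n else 0) + (if i = 1 then e2 a g s n else 0)
  | St.o i => (a - g) * ff s i * (bb s n - xx a g s n) + g * ff s (i + 1) * bb s n
  | St.q i => a * ff s i * (bb s n - xx a g s n) + g * ff s (i + 1) * bb s n

/-- `Γ_n`. -/
def Gam (a g s : ℝ) (n : ℕ) (w : List Bool) (x : St) : ℝ := Ev a g (rr s) (Kf a g s n) w x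

/-- `pu_k(j)`: weight of a particle at the slot `k` from the state `j`. -/
def pu (s : ℝ) (k j : ℕ) : ℝ := ∑ l ∈ Finset.range (k + 1), ff s (j + l) * uu s (k - l)

/-- `G_d(i)`: weight of a particle `d` slots to the right of an avoided letter. -/
def GG (a g s : ℝ) : ℕ → ℕ → ℝ
  | 0, i => (1 - a) * ff s i
  | 1, i => (1 - a) * ff s i * uu s 1 + (1 - g) * ff s (i + 1)
  | d + 2, i => (1 - a) * ff s i * uu s (d + 2) + (1 - g) * ff s (i + 1) * uu s (d + 1) +
      pu s d (i + 2)

/-- The hypotheses on the parameters; `s = ρ (1 - ρ)`. -/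
structure Good (a g ρ κ : ℝ) : Prop where
  a0 : 0 < a
  a1 : a < 1
  g0 : 0 ≤ g
  ga : g ≤ a
  ρ0 : 1 / 2 < ρ
  ρ1 : ρ < 1
  κ0 : 0 ≤ κ
  /-- the `N`-family -/
  B : ∀ n, 0 ≤ Bn a g (ρ * (1 - ρ)) n
  E : ∀ n, e2 a g (ρ * (1 - ρ)) n ≤ 0
  L : ∀ n, 0 ≤ Lam a g (ρ * (1 - ρ)) κ n
  /-- the `(d, i)`-family -/
  G : ∀ i d, 1 ≤ d → ∀ e, d ≤ e → e ≤ d + 2 →
    -(κ * GG a g (ρ * (1 - ρ)) d i) ≤ GG a g (ρ * (1 - ρ)) e i - GG a g (ρ * (1 - ρ)) (e - 1) i
  /-- the case `d = 0` -/
  H : ∀ i, (1 - a) * (1 - ff (ρ * (1 - ρ)) 0) * ff (ρ * (1 - ρ)) i ≤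
    (1 - g / a) * ff (ρ * (1 - ρ)) (i + 1)
  H' : ∀ i, (1 - a) * (1 - ff (ρ * (1 - ρ)) 0 ^ 2 - ff (ρ * (1 - ρ)) 1) * ff (ρ * (1 - ρ)) i ≤
    (1 - g / a) * ff (ρ * (1 - ρ)) 0 * ff (ρ * (1 - ρ)) (i + 1) + ff (ρ * (1 - ρ)) (i + 2)

/-! ## The process -/

/-- Letters with their two edges `(x, l, r)`; `true` means forward. -/
abbrev Tr : Type := Bool × Bool × Bool

/-- The slot to the left of the first letter is hit by the letters. -/
def hitL : List Tr → Bool
  | [] => false
  | [(x, l, _)] => x && l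
  | (x, l, r) :: (x', l', _) :: _ => (x && l) || (x' && l' && !r && l)

/-- The slots hit; `c` is true if the letter before is present and its right edge is forward. -/
def phi : Bool → List Tr → List Bool
  | _, [] => []
  | c, (x, l, r) :: T => ((x && r) || (c && !l && r) || hitL T) :: phi (x && r) T

/-- The letters with a flat list of edges. -/
def trip : List Bool → List Bool → List Tr
  | x :: w, l :: r :: e => (x, l, r) :: trip w e
  | _, _ => []

/-- The padded word. -/
def pad (w : List Bool) : List Bool := false :: false :: (w ++ [false])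

/-- One step of the process. -/
def step (w e : List Bool) : List Bool := phi false (trip (pad w) e)

/-- Average over `k` independent Booleans which are `true` with probability `p`. -/
def Avg (p : ℝ) : ℕ → (List Bool → ℝ) → ℝ
  | 0, F => F []
  | k + 1, F => p * Avg p k (fun l => F (true :: l)) + (1 - p) * Avg p k (fun l => F (false :: l))

/-- Average over the edges of the letters of a word. -/
def EE (p : ℝ) : List Bool → (List Tr → ℝ) → ℝ
  | [], F => F []
  | x :: w, F =>
      p * p * EE p w (fun T => F ((x, true, true) :: T)) +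
      p * (1 - p) * EE p w (fun T => F ((x, true, false) :: T)) +
      (1 - p) * p * EE p w (fun T => F ((x, false, true) :: T)) +
      (1 - p) * (1 - p) * EE p w (fun T => F ((x, false, false) :: T))

/-- Number of edges used before level `n`. -/
def Nn : ℕ → ℕ
  | 0 => 0
  | n + 1 => Nn n + 2 * (3 * n + 4)

/-- The word at level `n` as a function of the list of all edges used. -/
def Wf : ℕ → List Bool → List Bool
  | 0, _ => [true]
  | n + 1, e => step (Wf n (e.take (Nn n))) (e.drop (Nn n))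

/-- The edges of level `n` in the order in which they are used: letters `-n-2, ..., 2n+1`,
first the left edge (`true`), then the right edge (`false`). -/
def lev (n : ℕ) : List (ℕ × ℤ × Bool) :=
  (List.range (3 * n + 4)).flatMap fun j =>
    [(n, (j : ℤ) - n - 2, true), (n, (j : ℤ) - n - 2, false)]

/-- All edges used before level `n`. -/
def cs : ℕ → List (ℕ × ℤ × Bool)
  | 0 => []
  | n + 1 => cs n ++ lev n

/-- The word at level `n` in the environment `ξ`. -/
def WW (ξ : ℕ × ℤ × Bool → Bool) (n : ℕ) : List Bool := Wf n ((cs n).map ξ)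

/-! ## The lattice -/

/-- The oriented edges of the lattice in the environment `ω`. -/
def Arrow (ω : ℤ × ℤ × Bool → Bool) (x y : ℤ × ℤ) : Prop :=
  (y = (x.1 + 1, x.2) ∧ ω (x.1, x.2, false) = true) ∨
  (y = (x.1 - 1, x.2) ∧ ω (x.1 - 1, x.2, false) = false) ∨
  (y = (x.1, x.2 + 1) ∧ ω (x.1, x.2, true) = true) ∨
  (y = (x.1, x.2 - 1) ∧ ω (x.1, x.2 - 1, true) = false)

/-- The sites: level `n`, index `i`; `fl` is the reflection. -/
def pos (fl : Bool) (n : ℕ) (i : ℤ) : ℤ × ℤ :=
  if fl then (-i, -((n : ℤ) - i)) else (i, (n : ℤ) - i)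

/-- The edges: level, index, `true` = left edge (vertical), `false` = right edge (horizontal). -/
def edge (fl : Bool) : ℕ × ℤ × Bool → ℤ × ℤ × Bool
  | (n, i, true) => if fl then (-i, -((n : ℤ) - i) - 1, true) else (i, (n : ℤ) - i, true)
  | (n, i, false) => if fl then (-i - 1, -((n : ℤ) - i), false) else (i, (n : ℤ) - i, false)

/-- The forward field. -/
def fwd (fl : Bool) (ω : ℤ × ℤ × Bool → Bool) (c : ℕ × ℤ × Bool) : Bool :=
  xor fl (ω (edge fl c))

end Pool.Agent.Helper96.PK

end
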