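import Pool.Agent.Helper96.PK.Defs

set_option autoImplicit false

/-!
# PK-19: the extension functional `ext`

* linearity: induction on `w`, generalizing `ψ`.
* `VR_nonneg`: induction on `w`; `fr r i = r i - r (i+1) ≥ 0`.
* `VR_eq_ext`: `VR r w i = ext r w (fun j => r (i + j))`, induction on `w`: for `false :: w` the
  difference `ψ 0 - ψ 1 = r i - r (i+1) = fr r i`.
* `ext_conv_nonneg`: induction on `w`, generalizing `γ`. Put `ψ j = ∑_{n<j} r (j-1-n) γ n` (`ψ 0 = 0`).
  `w = []`: `ψ 0 = 0`. Otherwise `ψ (j+1) = r j * γ 0 + ψ' j` with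
  `ψ' j = ∑_{n<j} r (j-1-n) γ (n+1)` (`Finset.sum_range_succ'`), `ψ 1 = γ 0` (`r 0 = 1`). For
  `true :: w`: `ext w (S ψ) = γ 0 * ext w r + ext w ψ' = γ 0 * VR w 0 + ext w ψ' ≥ 0`. For
  `false :: w` the term `VR w 0 * (ψ 0 - ψ 1) = -VR w 0 * γ 0` cancels the first term.
-/

namespace Pool.Agent.Helper96.PK

variable (r : ℕ → ℝ)

theorem ext_add (w : List Bool) (φ ψ : ℕ → ℝ) :
    ext r w (fun j => φ j + ψ j) = ext r w φ + ext r w ψ := by
  induction w generalizing φ ψ with
  | nil => rfl
  | cons b w ih =>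
    cases b with
    | true => exact ih _ _
    | false =>
      change ext r w (fun j => φ (j + 1) + ψ (j + 1)) +
        VR r w 0 * ((φ 0 + ψ 0) - (φ 1 + ψ 1)) =
        (ext r w (fun j => φ (j + 1)) + VR r w 0 * (φ 0 - φ 1)) +
        (ext r w (fun j => ψ (j + 1)) + VR r w 0 * (ψ 0 - ψ 1))
      rw [ih]
      ring

theorem ext_sub (w : List Bool) (φ ψ : ℕ → ℝ) :
    ext r w (fun j => φ j - ψ j) = ext r w φ - ext r w ψ := by
  induction w generalizing φ ψ with
  | nil => rfl
  | cons b w ih =>
    cases b with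
    | true => exact ih _ _
    | false =>
      change ext r w (fun j => φ (j + 1) - ψ (j + 1)) +
        VR r w 0 * ((φ 0 - ψ 0) - (φ 1 - ψ 1)) =
        (ext r w (fun j => φ (j + 1)) + VR r w 0 * (φ 0 - φ 1)) -
        (ext r w (fun j => ψ (j + 1)) + VR r w 0 * (ψ 0 - ψ 1))
      rw [ih]
      ring

theorem ext_mul (w : List Bool) (k : ℝ) (ψ : ℕ → ℝ) :
    ext r w (fun j => k * ψ j) = k * ext r w ψ := by
  induction w generalizing ψ with
  | nil => rfl
  | cons b w ih =>
    cases b with
    | true => exact ih _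
    | false =>
      change ext r w (fun j => k * ψ (j + 1)) + VR r w 0 * (k * ψ 0 - k * ψ 1) =
        k * (ext r w (fun j => ψ (j + 1)) + VR r w 0 * (ψ 0 - ψ 1))
      rw [ih]
      ring

theorem VR_nonneg (hr : Antitone r) (hrn : ∀ n, 0 ≤ r n) (w : List Bool) (i : ℕ) :
    0 ≤ VR r w i := by
  induction w generalizing i with
  | nil => exact hrn i
  | cons b w ih =>
    cases b with
    | true => exact ih _
    | false =>
      have h1 : 0 ≤ fr r i := sub_nonneg.2 (hr (Nat.le_succ i))
      exact add_nonneg (mul_nonneg h1 (ih 0)) (ih (i + 1))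

theorem VR_le (hr : Antitone r) (hr0 : r 0 = 1) (hrn : ∀ n, 0 ≤ r n) (w : List Bool) (i : ℕ) :
    VR r w i ≤ r i := by
  have _ := hrn 0
  induction w generalizing i with
  | nil => exact le_refl _
  | cons b w ih =>
    cases b with
    | true => exact (ih (i + 1)).trans (hr (Nat.le_succ i))
    | false =>
      have h1 : 0 ≤ fr r i := sub_nonneg.2 (hr (Nat.le_succ i))
      have h2 : VR r w 0 ≤ 1 := by
        rw [← hr0]
        exact ih 0
      have h3 : fr r i * VR r w 0 ≤ fr r i * 1 := mul_le_mul_of_nonneg_left h2 h1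
      have h4 := ih (i + 1)
      change fr r i * VR r w 0 + VR r w (i + 1) ≤ r i
      unfold fr at *
      linarith

theorem VR_eq_ext (w : List Bool) (i : ℕ) : VR r w i = ext r w (fun j => r (i + j)) := by
  induction w generalizing i with
  | nil => rfl
  | cons b w ih =>
    have h : (fun j => r (i + (j + 1))) = fun j => r (i + 1 + j) := by
      funext j
      congr 1
      omega
    cases b with
    | true =>
      change VR r w (i + 1) = ext r w (fun j => r (i + (j + 1)))
      rw [h]
      exact ih (i + 1)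
    | false =>
      change fr r i * VR r w 0 + VR r w (i + 1) =
        ext r w (fun j => r (i + (j + 1))) + VR r w 0 * (r (i + 0) - r (i + 1))
      rw [h, ← ih (i + 1)]
      unfold fr
      rw [mul_comm (r i - r (i + 1)), add_comm]
      rfl

/-- Without letters `true` nothing is avoided. -/
theorem VR_zeros (hr0 : r 0 = 1) (n i : ℕ) : VR r (zeros n) i = r i := by
  induction n generalizing i with
  | zero => rfl
  | succ n ih =>
    change fr r i * VR r (zeros n) 0 + VR r (zeros n) (i + 1) = r i
    rw [ih, ih, hr0]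
    unfold fr
    ring

theorem ext_conv_nonneg (hr : Antitone r) (hr0 : r 0 = 1) (hrn : ∀ n, 0 ≤ r n) (γ : ℕ → ℝ)
    (hγ : ∀ n, 0 ≤ γ n) (w : List Bool) :
    0 ≤ ext r w (fun j => ∑ n ∈ Finset.range j, r (j - 1 - n) * γ n) := by
  induction w generalizing γ with
  | nil =>
    change (0 : ℝ) ≤ ∑ n ∈ Finset.range 0, r (0 - 1 - n) * γ n
    simp
  | cons b w ih =>
    have hs : (fun j => ∑ n ∈ Finset.range (j + 1), r (j + 1 - 1 - n) * γ n) =
        fun j => γ 0 * r j + ∑ n ∈ Finset.range j, r (j - 1 - n) * γ (n + 1) := by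
      funext j
      rw [Finset.sum_range_succ', add_comm]
      congr 1
      · rw [Nat.add_sub_cancel, Nat.sub_zero, mul_comm]
      · apply Finset.sum_congr rfl
        intro n hn
        have := Finset.mem_range.1 hn
        congr 2
        omega
    have h0 : VR r w 0 = ext r w (fun j => r j) := by
      rw [VR_eq_ext]
      congr 1
      funext j
      rw [Nat.zero_add]
    have hmain : ext r w (fun j => ∑ n ∈ Finset.range (j + 1), r (j + 1 - 1 - n) * γ n) =
        γ 0 * VR r w 0 + ext r w (fun j => ∑ n ∈ Finset.range j, r (j - 1 - n) * γ (n + 1)) := by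
      rw [hs, ext_add, ext_mul, h0]
    have hih := ih (fun n => γ (n + 1)) (fun n => hγ (n + 1))
    cases b with
    | true =>
      change 0 ≤ ext r w (fun j => ∑ n ∈ Finset.range (j + 1), r (j + 1 - 1 - n) * γ n)
      rw [hmain]
      exact add_nonneg (mul_nonneg (hγ 0) (VR_nonneg r hr hrn w 0)) hih
    | false =>
      change 0 ≤ ext r w (fun j => ∑ n ∈ Finset.range (j + 1), r (j + 1 - 1 - n) * γ n) +
        VR r w 0 * ((∑ n ∈ Finset.range 0, r (0 - 1 - n) * γ n) -
          ∑ n ∈ Finset.range 1, r (1 - 1 - n) * γ n)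
      rw [hmain]
      have h1 : (∑ n ∈ Finset.range 1, r (1 - 1 - n) * γ n) = γ 0 := by
        rw [Finset.sum_range_one, Nat.sub_self, hr0, one_mul]
      rw [h1, Finset.sum_range_zero]
      have h2 : γ 0 * VR r w 0 +
          ext r w (fun j => ∑ n ∈ Finset.range j, r (j - 1 - n) * γ (n + 1)) +
          VR r w 0 * (0 - γ 0) =
          ext r w (fun j => ∑ n ∈ Finset.range j, r (j - 1 - n) * γ (n + 1)) := by ring
      rw [h2]
      exact hih

end Pool.Agent.Helper96.PK
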