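import Pool.Agent.Helper96.PK.GDiff

set_option autoImplicit false

/-!
# PK-17: the `(d, i)`-family for set 1 (`s = 2331/10000`, `R = 4 s = .9324`, `κ = 9/1000`)

Cases `e = k + 1`; for `e = 1` (so `d = 1`) `GG_diff_zero` and `0 ≤ (1-g) f_(i+1) - (1-a) s f_i`
(the hypothesis `hH`, `1 - f_0 = s`, `1 - g ≥ 1 - g/a`). For `k ≥ 1`:
* `i ≥ 2`: `GG_mono`, with `Ξ_2 = 1.0054 ≥ 1`, `Ξ_3 = 1.0215 ≥ 1` (`f_0 = 1-s, f_1 = s - 2s^2,
  f_2 = 2 s^2 - 5 s^3, f_3 = 5 s^3 - 14 s^4`).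
* `i = 0`: `G_(k+1) - G_k = a f_0 b_k + g f_1 b_(k-1) - b_(k+1) ≥ -252/100000`: for `k = 1, 2, 3, 4`
  numerically (the worst case is `k = 3`: `-.0019827`), for `k ≥ 5`:
  `b_k ≥ b_(k+1)/R`, so it is `≥ -b_(k+1) (1 - a f_0/R) ≥ -.4777 b_6 = -.00236`
  (`b_(k+1) ≤ b_6`). And `GG d 0 ≥ 28/100` for `d ≥ 1`: `d = 1, 2` numerically (`.3208, .3262`), for `d ≥ 3`
  `G_d = u_(d+1) - a f_0 u_d - g f_1 u_(d-1) = (1 - a f_0) u_d - b_d - g f_1 u_(d-1)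
   ≥ .51302 * .63 - b_3 - g f_1 = .2901` (`ρ ≤ u ≤ 1`, `b_d ≤ b_3`); `κ * .28 = .00252`.
* `i = 1`: `G_(k+1) - G_k = f_0 b_(k+1) + a f_1 b_k + g f_2 b_(k-1) - b_(k+2)`: `≥ 0` numerically for
  `k = 1, 2, 3`; for `k ≥ 4` it is `≥ -(1 - f_0/R - a f_1/R^2 - g f_2/R^3) b_(k+2) ≥ -.0784 b_6 = -.00039`.
  And `GG d 1 ≥ 529/10000` for `d ≥ 1` (`(1-a) f_1 u_d + (1-g) f_2 u_(d-1) ≥ .0841 * .63`);
  `κ * .0529 = .000476`.
`b_0..b_6 = s^(n+1) C_n` with `C = 1, 1, 2, 5, 14, 42, 132`.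
-/

namespace Pool.Agent.Helper96.PK

private theorem k_catv : catalan 2 = 2 ∧ catalan 3 = 5 ∧ catalan 4 = 14 ∧ catalan 5 = 42 ∧
    catalan 6 = 132 := by
  simp only [catalan_eq_centralBinom_div]
  decide

private theorem k_r {s : ℝ} (hs : s = 2331 / 10000) :
    rr s 0 = 1 ∧ rr s 1 = 2331 / 10000 ∧ rr s 2 = 2 * (2331 / 10000) ^ 2 ∧
    rr s 3 = 5 * (2331 / 10000) ^ 3 ∧ rr s 4 = 14 * (2331 / 10000) ^ 4 ∧
    rr s 5 = 42 * (2331 / 10000) ^ 5 ∧ rr s 6 = 132 * (2331 / 10000) ^ 6 := by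
  obtain ⟨c2, c3, c4, c5, c6⟩ := k_catv
  refine ⟨rr_zero s, ?_, ?_, ?_, ?_, ?_, ?_⟩
  · rw [rr_one, hs]
  · unfold rr; rw [c2, hs]; norm_num
  · unfold rr; rw [c3, hs]; norm_num
  · unfold rr; rw [c4, hs]; norm_num
  · unfold rr; rw [c5, hs]; norm_num
  · unfold rr; rw [c6, hs]; norm_num

private theorem k_fe (s : ℝ) (i : ℕ) : ff s i = rr s i - rr s (i + 1) := rfl

private theorem k_be (s : ℝ) (i : ℕ) : bb s i = s * rr s i := rfl

private theorem k_Gnn {a g s : ℝ} (ha : a ≤ 1) (hg : g ≤ 1) (hf : ∀ i, 0 ≤ ff s i)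
    (hu : ∀ n, 0 ≤ uu s n) (d i : ℕ) : 0 ≤ GG a g s d i := by
  have h1 : 0 ≤ 1 - a := by linarith
  have h2 : 0 ≤ 1 - g := by linarith
  match d with
  | 0 => exact mul_nonneg h1 (hf i)
  | 1 =>
    exact add_nonneg (mul_nonneg (mul_nonneg h1 (hf i)) (hu 1)) (mul_nonneg h2 (hf (i + 1)))
  | d + 2 =>
    refine add_nonneg (add_nonneg (mul_nonneg (mul_nonneg h1 (hf i)) (hu _))
      (mul_nonneg (mul_nonneg h2 (hf (i + 1))) (hu _))) ?_
    exact Finset.sum_nonneg fun l _ => mul_nonneg (hf _) (hu _)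

private theorem k_diff0 (a g s : ℝ) {k : ℕ} (hk : 1 ≤ k) :
    GG a g s (k + 1) 0 - GG a g s k 0 = a * ff s 0 * bb s k + g * ff s 1 * bb s (k - 1) -
      bb s (k + 1) := by
  rw [GG_diff a g s hk 0]; simp

private theorem k_diff1 (a g s : ℝ) {k : ℕ} (hk : 1 ≤ k) :
    GG a g s (k + 1) 1 - GG a g s k 1 = ff s 0 * bb s (k + 1) + a * ff s 1 * bb s k +
      g * ff s 2 * bb s (k - 1) - bb s (k + 2) := by
  rw [GG_diff a g s hk 1]; simp

private theorem k_G0 {s : ℝ} (hs : s = 2331 / 10000) (hu : ∀ n, 63 / 100 ≤ uu s n)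
    (hu1 : ∀ n, uu s n ≤ 1) (hb : ∀ m n, m ≤ n → bb s n ≤ bb s m) (d : ℕ) (hd : 1 ≤ d) :
    28 / 100 ≤ GG (127 / 200) (147 / 1000) s d 0 := by
  obtain ⟨r0, r1, r2, r3, r4, r5, r6⟩ := k_r hs
  have u1 : uu s 1 = 1 - bb s 0 := by rw [uu_succ, uu_zero]
  have u2 : uu s 2 = 1 - bb s 0 - bb s 1 := by rw [uu_succ, u1]
  by_cases h1 : d = 1
  · subst h1
    change 28 / 100 ≤ (1 - 127 / 200) * ff s 0 * uu s 1 + (1 - 147 / 1000) * ff s (0 + 1)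
    rw [u1, k_be, k_fe, k_fe]
    norm_num only
    rw [r0, r1, r2, hs]
    norm_num
  by_cases h2 : d = 2
  · subst h2
    change 28 / 100 ≤ (1 - 127 / 200) * ff s 0 * uu s (0 + 2) + (1 - 147 / 1000) * ff s (0 + 1) *
      uu s (0 + 1) + pu s 0 (0 + 2)
    rw [pu_zero]
    norm_num only
    rw [u1, u2, k_be, k_be, k_fe, k_fe, k_fe]
    norm_num only
    rw [r0, r1, r2, r3, hs]
    norm_num
  have h3 : 3 ≤ d := by omega
  rw [GG_eq _ _ _ hd 0]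
  simp only [Finset.range_zero, Finset.sum_empty, Nat.add_zero, Nat.zero_add]
  rw [uu_succ, k_fe s 0, k_fe s 1]
  norm_num only
  have hb3 := hb 3 d h3
  rw [k_be s 3, r3, hs] at hb3
  have hud := hu d
  have hu' := hu1 (d - 1)
  rw [r0, r1, r2]
  rw [hs] at *
  nlinarith [hb3, hud, hu']

private theorem k_G1 {s : ℝ} (hs : s = 2331 / 10000) (hu : ∀ n, 63 / 100 ≤ uu s n)
    (hf : ∀ i, 0 ≤ ff s i) (d : ℕ) (hd : 1 ≤ d) :
    529 / 10000 ≤ GG (127 / 200) (147 / 1000) s d 1 := by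
  obtain ⟨r0, r1, r2, r3, r4, r5, r6⟩ := k_r hs
  have hf1 : ff s 1 = 2331 / 10000 - 2 * (2331 / 10000) ^ 2 := by
    rw [k_fe, r1, r2]
  have hf2 : ff s 2 = 2 * (2331 / 10000) ^ 2 - 5 * (2331 / 10000) ^ 3 := by
    rw [k_fe, r2, r3]
  match d, hd with
  | 1, _ =>
    change 529 / 10000 ≤ (1 - 127 / 200) * ff s 1 * uu s 1 + (1 - 147 / 1000) * ff s 2
    have h := hu 1
    rw [hf1, hf2]
    nlinarith
  | d + 2, _ =>
    change 529 / 10000 ≤ (1 - 127 / 200) * ff s 1 * uu s (d + 2) + (1 - 147 / 1000) * ff s 2 *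
      uu s (d + 1) + pu s d 3
    have hp : 0 ≤ pu s d 3 := Finset.sum_nonneg fun l _ => mul_nonneg (hf _)
      (le_trans (by norm_num) (hu _))
    have h := hu (d + 2)
    have h' := hu (d + 1)
    rw [hf1, hf2]
    nlinarith

private theorem k_D0 {s : ℝ} (hs : s = 2331 / 10000)
    (hb0 : ∀ n, 0 ≤ bb s n) (hb : ∀ m n, m ≤ n → bb s n ≤ bb s m)
    (hb4 : ∀ n, bb s (n + 1) ≤ 4 * s * bb s n) (k : ℕ) (hk : 1 ≤ k) :
    -(252 / 100000) ≤ GG (127 / 200) (147 / 1000) s (k + 1) 0 -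
      GG (127 / 200) (147 / 1000) s k 0 := by
  obtain ⟨r0, r1, r2, r3, r4, r5, r6⟩ := k_r hs
  rw [k_diff0 _ _ _ hk, k_fe s 0, k_fe s 1]
  norm_num only
  rw [r0, r1, r2]
  by_cases h1 : k = 1
  · subst h1; norm_num only; rw [k_be, k_be, k_be, r0, r1, r2, hs]; norm_num
  by_cases h2 : k = 2
  · subst h2; norm_num only; rw [k_be, k_be, k_be, r1, r2, r3, hs]; norm_num
  by_cases h3 : k = 3
  · subst h3; norm_num only; rw [k_be, k_be, k_be, r2, r3, r4, hs]; norm_num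
  by_cases h4 : k = 4
  · subst h4; norm_num only; rw [k_be, k_be, k_be, r3, r4, r5, hs]; norm_num
  have h5 : 6 ≤ k + 1 := by omega
  have hb6 := hb 6 (k + 1) h5
  rw [k_be s 6, r6, hs] at hb6
  have hk4 := hb4 k
  have hk1 := hb0 (k - 1)
  have hk2 := hb0 (k + 1)
  rw [hs] at *
  nlinarith

private theorem k_D1 {s : ℝ} (hs : s = 2331 / 10000)
    (hb0 : ∀ n, 0 ≤ bb s n) (hb : ∀ m n, m ≤ n → bb s n ≤ bb s m)
    (hb4 : ∀ n, bb s (n + 1) ≤ 4 * s * bb s n) (k : ℕ) (hk : 1 ≤ k) :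
    -(476 / 1000000) ≤ GG (127 / 200) (147 / 1000) s (k + 1) 1 -
      GG (127 / 200) (147 / 1000) s k 1 := by
  obtain ⟨r0, r1, r2, r3, r4, r5, r6⟩ := k_r hs
  rw [k_diff1 _ _ _ hk, k_fe s 0, k_fe s 1, k_fe s 2]
  norm_num only
  rw [r0, r1, r2, r3]
  by_cases h1 : k = 1
  · subst h1; norm_num only; rw [k_be, k_be, k_be, k_be, r0, r1, r2, r3, hs]; norm_num
  by_cases h2 : k = 2
  · subst h2; norm_num only; rw [k_be, k_be, k_be, k_be, r1, r2, r3, r4, hs]; norm_num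
  by_cases h3 : k = 3
  · subst h3; norm_num only; rw [k_be, k_be, k_be, k_be, r2, r3, r4, r5, hs]; norm_num
  have h5 : 6 ≤ k + 2 := by omega
  have hb6 := hb 6 (k + 2) h5
  rw [k_be s 6, r6, hs] at hb6
  obtain ⟨j, rfl⟩ : ∃ j, k = j + 1 := ⟨k - 1, by omega⟩
  have hk4 := hb4 j
  have hk5 := hb4 (j + 1)
  have hk6 := hb4 (j + 2)
  have hk1 := hb0 j
  have hk2 := hb0 (j + 1)
  have hk3 := hb0 (j + 1 + 2)
  simp only [Nat.add_sub_cancel]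
  rw [hs] at *
  norm_num only at *
  nlinarith

private theorem k_main {s : ℝ} (hs : s = 2331 / 10000) (hu : ∀ n, 63 / 100 ≤ uu s n)
    (hu1 : ∀ n, uu s n ≤ 1)
    (hH : ∀ i, (1 - 127 / 200) * (1 - ff s 0) * ff s i ≤
      (1 - (147 / 1000) / (127 / 200)) * ff s (i + 1))
    (i d : ℕ) (hd : 1 ≤ d) (e : ℕ) (h1 : d ≤ e) (h2 : e ≤ d + 2) :
    -(9 / 1000 * GG (127 / 200) (147 / 1000) s d i) ≤
      GG (127 / 200) (147 / 1000) s e i - GG (127 / 200) (147 / 1000) s (e - 1) i := by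
  have hs0 : 0 < s := by rw [hs]; norm_num
  have h4 : 4 * s < 1 := by rw [hs]; norm_num
  have hf : ∀ i, 0 ≤ ff s i := fun i => (ff_pos hs0 h4 i).le
  have hb0 : ∀ n, 0 ≤ bb s n := fun n => (bb_pos hs0 n).le
  have hb : ∀ m n, m ≤ n → bb s n ≤ bb s m := fun m n hmn =>
    mul_le_mul_of_nonneg_left (rr_antitone hs0 h4 hmn) hs0.le
  have hb4 : ∀ n, bb s (n + 1) ≤ 4 * s * bb s n := bb_succ_le hs0
  have hG : 0 ≤ GG (127 / 200) (147 / 1000) s d i :=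
    k_Gnn (by norm_num) (by norm_num) hf (fun n => le_trans (by norm_num) (hu n)) d i
  obtain ⟨k, rfl⟩ : ∃ k, e = k + 1 := ⟨e - 1, by omega⟩
  rw [Nat.add_sub_cancel]
  by_cases hk0 : k = 0
  · subst hk0
    rw [Nat.zero_add, GG_diff_zero]
    have h := hH i
    rw [ff_zero] at h
    have hf1 := hf (i + 1)
    have hfi := hf i
    nlinarith
  have hk : 1 ≤ k := by omega
  obtain ⟨r0, r1, r2, r3, r4, r5, r6⟩ := k_r hs
  match i with
  | 0 =>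
    have hx := k_G0 hs hu hu1 hb d hd
    have hy := k_D0 hs hb0 hb hb4 k hk
    linarith
  | 1 =>
    have hx := k_G1 hs hu hf d hd
    have hy := k_D1 hs hb0 hb hb4 k hk
    linarith
  | i + 2 =>
    have hx : GG (127 / 200) (147 / 1000) s k (i + 2) ≤
        GG (127 / 200) (147 / 1000) s (k + 1) (i + 2) := by
      refine GG_mono (by norm_num) (by norm_num) hs0 h4 ?_ ?_ hk (by omega)
      · rw [k_fe, k_fe, k_fe, k_fe]
        norm_num only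
        rw [r0, r1, r2, r3, r4, hs]
        norm_num
      · rw [k_fe, k_fe, k_fe]
        norm_num only
        rw [r0, r1, r2, r3, hs]
        norm_num
    linarith

theorem G1 (hH : ∀ i, (1 - 127 / 200) * (1 - ff (63 / 100 * (1 - 63 / 100)) 0) *
      ff (63 / 100 * (1 - 63 / 100)) i ≤
      (1 - (147 / 1000) / (127 / 200)) * ff (63 / 100 * (1 - 63 / 100)) (i + 1))
    (i d : ℕ) (hd : 1 ≤ d) (e : ℕ) (h1 : d ≤ e) (h2 : e ≤ d + 2) :
    -(9 / 1000 * GG (127 / 200) (147 / 1000) (63 / 100 * (1 - 63 / 100)) d i) ≤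
      GG (127 / 200) (147 / 1000) (63 / 100 * (1 - 63 / 100)) e i -
        GG (127 / 200) (147 / 1000) (63 / 100 * (1 - 63 / 100)) (e - 1) i := by
  have hs : (63 / 100 * (1 - 63 / 100) : ℝ) = 2331 / 10000 := by norm_num
  exact k_main hs (le_uu (by norm_num) (by norm_num)) (uu_le_one (by norm_num) (by norm_num))
    hH i d hd e h1 h2

end Pool.Agent.Helper96.PK
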