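import Pool.Agent.Helper96.PK.GDiff

set_option autoImplicit false

/-!
# PK-18: the `(d, i)`-family for set 2 (`s = 126/625 = .2016`, `R = 4 s = .8064`, `κ = 1/200`, `g = 0`)

Cases `e = k + 1`; for `e = 1` (so `d = 1`) `GG_diff_zero` and `0 ≤ f_(i+1) - (1-a) s f_i`
(the hypothesis `hH`, `1 - f_0 = s`). For `k ≥ 1`:
* `i ≥ 2`: `GG_mono`, `Ξ_2 = 1.2289`, `Ξ_3 = 1.2520`; `i = 1`: `GG_mono_one`, `Ξ_1 = 1.1196`.
* `i = 0`: `G_(k+1) - G_k = a f_0 b_k - b_(k+1) ≥ -143/100000`: `k = 1, 2` numerically (`≥ 0`), for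
  `k ≥ 3`: `≥ -b_(k+1) (1 - a f_0/R) ≥ -.307 b_4 = -.00143`. More precisely `b_4 = 14 s^5 = .0046620`,
  `1 - a f_0/R = .30695`, product `.001431`; use the bound `-15/10000`. And `GG d 0 ≥ 3/10` for `d ≥ 1`:
  `d = 1` numerically (`.3115`), `d ≥ 2`: `(1 - a f_0) u_d - b_d ≥ .44112 * .72 - b_2 = .3012`;
  `κ * .3 = .0015`.
-/

namespace Pool.Agent.Helper96.PK

private theorem bb_anti {s : ℝ} (hs : 0 < s) (h4 : 4 * s < 1) {m n : ℕ} (h : m ≤ n) :
    bb s n ≤ bb s m := by
  unfold bb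
  exact mul_le_mul_of_nonneg_left (rr_antitone hs h4 h) hs.le

private theorem GG_nn {a g s : ℝ} (ha : a ≤ 1) (hg : g ≤ 1) (hs : 0 < s) (h4 : 4 * s < 1)
    (hu : ∀ n, 0 ≤ uu s n) (d i : ℕ) : 0 ≤ GG a g s d i := by
  have hf : ∀ i, 0 ≤ ff s i := fun i => (ff_pos hs h4 i).le
  have ha' : 0 ≤ 1 - a := by linarith
  have hg' : 0 ≤ 1 - g := by linarith
  have hpu : ∀ k j, 0 ≤ pu s k j := fun k j => by
    unfold pu
    exact Finset.sum_nonneg fun l _ => mul_nonneg (hf _) (hu _)
  match d with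
  | 0 => exact mul_nonneg ha' (hf _)
  | 1 => exact add_nonneg (mul_nonneg (mul_nonneg ha' (hf _)) (hu _)) (mul_nonneg hg' (hf _))
  | d + 2 =>
    exact add_nonneg (add_nonneg (mul_nonneg (mul_nonneg ha' (hf _)) (hu _))
      (mul_nonneg (mul_nonneg hg' (hf _)) (hu _))) (hpu _ _)

private theorem rr_two' (s : ℝ) : rr s 2 = 2 * s ^ 2 := by
  have h := rr_succ_mul s 1
  rw [rr_one] at h
  norm_num at h
  linarith

private theorem rr_three' (s : ℝ) : rr s 3 = 5 * s ^ 3 := by
  have h := rr_succ_mul s 2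
  rw [rr_two'] at h
  norm_num at h
  linarith

private theorem rr_four' (s : ℝ) : rr s 4 = 14 * s ^ 4 := by
  have h := rr_succ_mul s 3
  rw [rr_three'] at h
  norm_num at h
  linarith

theorem G2 (hH : ∀ i, (1 - 7 / 10) * (1 - ff (18 / 25 * (1 - 18 / 25)) 0) *
      ff (18 / 25 * (1 - 18 / 25)) i ≤ (1 - 0 / (7 / 10)) * ff (18 / 25 * (1 - 18 / 25)) (i + 1))
    (i d : ℕ) (hd : 1 ≤ d) (e : ℕ) (h1 : d ≤ e) (h2 : e ≤ d + 2) :
    -(1 / 200 * GG (7 / 10) 0 (18 / 25 * (1 - 18 / 25)) d i) ≤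
      GG (7 / 10) 0 (18 / 25 * (1 - 18 / 25)) e i -
        GG (7 / 10) 0 (18 / 25 * (1 - 18 / 25)) (e - 1) i := by
  have hρ0 : (1 / 2 : ℝ) < 18 / 25 := by norm_num
  have hρ1 : (18 / 25 : ℝ) < 1 := by norm_num
  have hlu : ∀ n, (18 / 25 : ℝ) ≤ uu (18 / 25 * (1 - 18 / 25)) n := fun n => le_uu hρ0 hρ1 n
  have hs0 : (18 / 25 * (1 - 18 / 25) : ℝ) = 126 / 625 := by norm_num
  rw [hs0] at hH hlu ⊢
  obtain ⟨s, hs⟩ : ∃ s : ℝ, s = 126 / 625 := ⟨_, rfl⟩
  rw [← hs] at hH hlu ⊢
  have hsp : 0 < s := by rw [hs]; norm_num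
  have h4 : 4 * s < 1 := by rw [hs]; norm_num
  have f0 : ff s 0 = 1 - s := ff_zero s
  have f1 : ff s 1 = s - 2 * s ^ 2 := ff_one s
  have f2 : ff s 2 = 2 * s ^ 2 - 5 * s ^ 3 := by
    change rr s 2 - rr s 3 = _
    rw [rr_two', rr_three']
  have f3 : ff s 3 = 5 * s ^ 3 - 14 * s ^ 4 := by
    change rr s 3 - rr s 4 = _
    rw [rr_three', rr_four']
  have b1 : bb s 1 = s ^ 2 := bb_one s
  have b2 : bb s 2 = 2 * s ^ 3 := by
    unfold bb
    rw [rr_two']
    ring
  have b3 : bb s 3 = 5 * s ^ 4 := by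
    unfold bb
    rw [rr_three']
    ring
  have b4 : bb s 4 = 14 * s ^ 5 := by
    unfold bb
    rw [rr_four']
    ring
  have hnn : ∀ d i, 0 ≤ GG (7 / 10) 0 s d i := fun d i =>
    GG_nn (by norm_num) (by norm_num) hsp h4 (fun n => by linarith [hlu n]) d i
  obtain ⟨k, rfl⟩ : ∃ k, e = k + 1 := ⟨e - 1, by omega⟩
  rw [Nat.add_sub_cancel]
  rcases Nat.eq_zero_or_pos k with rfl | hk
  · have hd1 : d = 1 := by omega
    subst hd1
    rw [zero_add, GG_diff_zero]
    have h := hH i
    rw [f0] at h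
    norm_num at h
    have := hnn 1 i
    nlinarith
  · rcases Nat.lt_or_ge i 2 with hi | hi
    · rcases Nat.lt_or_ge i 1 with hi0 | hi1
      · -- i = 0
        have hi00 : i = 0 := by omega
        subst hi00
        rw [GG_diff _ _ _ hk]
        simp only [Finset.range_zero, Finset.sum_empty, zero_add, zero_mul, add_zero]
        -- lower bound for the left-hand side
        have hG : (3 / 10 : ℝ) ≤ GG (7 / 10) 0 s d 0 := by
          rcases Nat.lt_or_ge d 2 with hd2 | hd2
          · have hd1 : d = 1 := by omega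
            subst hd1
            change (3 / 10 : ℝ) ≤ (1 - 7 / 10) * ff s 0 * uu s 1 + (1 - 0) * ff s (0 + 1)
            have hu1 : uu s 1 = 1 - s := by
              rw [show (1 : ℕ) = 0 + 1 from rfl, uu_succ, uu_zero, bb_zero]
            rw [hu1, zero_add, f0, f1, hs]
            norm_num
          · rw [GG_eq _ _ _ hd]
            simp only [Finset.range_zero, Finset.sum_empty, add_zero, sub_zero, zero_mul]
            rw [uu_succ]
            have hb : bb s d ≤ bb s 2 := bb_anti hsp h4 hd2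
            have hu := hlu d
            have hb' : 2 * s ^ 3 = 4000752 / 244140625 := by rw [hs]; norm_num
            rw [b2, hb'] at hb
            rw [f0]
            have h1s : (1 : ℝ) - s = 499 / 625 := by rw [hs]; norm_num
            rw [h1s]
            nlinarith
        have hmain : -(15 / 10000 : ℝ) ≤ 7 / 10 * ff s 0 * bb s k - bb s (k + 1) := by
          rcases Nat.lt_or_ge k 3 with hk3 | hk3
          · have : k = 1 ∨ k = 2 := by omega
            rcases this with rfl | rfl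
            · change -(15 / 10000 : ℝ) ≤ 7 / 10 * ff s 0 * bb s 1 - bb s 2
              rw [f0, b1, b2, hs]
              norm_num
            · change -(15 / 10000 : ℝ) ≤ 7 / 10 * ff s 0 * bb s 2 - bb s 3
              rw [f0, b2, b3, hs]
              norm_num
          · have hb : bb s (k + 1) ≤ 4 * s * bb s k := bb_succ_le hsp k
            have hb4 : bb s (k + 1) ≤ bb s 4 := bb_anti hsp h4 (by omega)
            have hb' : 14 * s ^ 5 = 444611571264 / 95367431640625 := by rw [hs]; norm_num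
            rw [b4, hb'] at hb4
            rw [f0]
            have h1s : (1 : ℝ) - s = 499 / 625 := by rw [hs]; norm_num
            have h4s : 4 * s = 504 / 625 := by rw [hs]; norm_num
            rw [h4s] at hb
            rw [h1s]
            nlinarith
        linarith
      · have hi11 : i = 1 := by omega
        subst hi11
        have := GG_mono_one (a := 7 / 10) (g := 0) (s := s) (by norm_num) le_rfl hsp h4
          (by rw [f0, f1, f2, hs]; norm_num) hk
        linarith [hnn d 1]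
    · have := GG_mono (a := 7 / 10) (g := 0) (s := s) (by norm_num) le_rfl hsp h4
        (by rw [f0, f1, f2, f3, hs]; norm_num) (by rw [f0, f1, f2, hs]; norm_num) hk hi
      linarith [hnn d i]

end Pool.Agent.Helper96.PK
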