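import Pool.Agent.Helper96.PK.Cat1

set_option autoImplicit false

/-!
# PK-16: the inequalities `H`, `H'` for both parameter sets

`f_i = r_i - r_(i+1)` and `(i+2) r_(i+1) = s (4i+2) r_i` (`rr_succ_mul`), so with `r = r_i > 0`:
`(i+2) f_i = r ((i+2) - s (4i+2))`, `(i+2)(i+3) f_(i+1) = r s (4i+2) ((i+3) - s (4i+6))`.
* `H1`: `(i+2)(i+3) * (RHS - LHS) = r s * (quadratic polynomial in i with positive coefficients)`
  (for set 1 about `.183 i^2 + 4.39 i + .78`).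
* `H1'`: for `i = 0` numerically (`.11867 ≥ .08046`); for `i ≥ 1` drop `f_(i+2) ≥ 0` and use
  `f_(i+1) ≥ f_i / 4`, which is again a quadratic inequality in `i` (`i = k + 1`).
  (`(1-g/a) f_0 / 4 = .1473 ≥ (1-a)(1 - f_0^2 - f_1) = .1049` for set 1.)
* set 2 (`s = 126/625`): the same; `f_0 = .7984`, `f_1 = .12032`, `H2'` for `i = 0`:
  `f_0 f_1 + f_2 = .1363.. ≥ .3 * (1 - f_0^2 - f_1) * f_0 = .0580`.
-/

namespace Pool.Agent.Helper96.PK

private theorem key {s : ℝ} (hs : 0 < s) (i : ℕ) (c d : ℝ)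
    (h : c * (((i : ℝ) + 3) * (((i : ℝ) + 2) - s * (4 * i + 2))) ≤
      d * (s * (4 * (i : ℝ) + 2) * (((i : ℝ) + 3) - s * (4 * i + 6)))) :
    c * ff s i ≤ d * ff s (i + 1) := by
  have hr := rr_pos hs i
  have h1 := rr_succ_mul s i
  have h2 := rr_succ_mul s (i + 1)
  push_cast at h2
  have hi : (0 : ℝ) ≤ (i : ℝ) := Nat.cast_nonneg i
  have hp : (0 : ℝ) < ((i : ℝ) + 2) * ((i : ℝ) + 3) := by positivity
  have e1 : ((i : ℝ) + 2) * ((i : ℝ) + 3) * ff s i =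
      rr s i * (((i : ℝ) + 3) * (((i : ℝ) + 2) - s * (4 * i + 2))) := by
    unfold ff fr
    linear_combination (-(((i : ℝ) + 3))) * h1
  have e2 : ((i : ℝ) + 2) * ((i : ℝ) + 3) * ff s (i + 1) =
      rr s i * (s * (4 * (i : ℝ) + 2) * (((i : ℝ) + 3) - s * (4 * i + 6))) := by
    unfold ff fr
    have h3 : ((i : ℝ) + 3) * rr s (i + 1 + 1) = s * (4 * i + 6) * rr s (i + 1) := by
      linear_combination h2
    linear_combination (((i : ℝ) + 3) - s * (4 * i + 6)) * h1 - ((i : ℝ) + 2) * h3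
  have h4 := mul_le_mul_of_nonneg_left h hr.le
  have h5 : ((i : ℝ) + 2) * ((i : ℝ) + 3) * (c * ff s i) ≤
      ((i : ℝ) + 2) * ((i : ℝ) + 3) * (d * ff s (i + 1)) := by
    have l : ((i : ℝ) + 2) * ((i : ℝ) + 3) * (c * ff s i) =
        rr s i * (c * (((i : ℝ) + 3) * (((i : ℝ) + 2) - s * (4 * i + 2)))) := by
      linear_combination c * e1
    have r : ((i : ℝ) + 2) * ((i : ℝ) + 3) * (d * ff s (i + 1)) =
        rr s i * (d * (s * (4 * (i : ℝ) + 2) * (((i : ℝ) + 3) - s * (4 * i + 6)))) := by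
      linear_combination d * e2
    rw [l, r]
    exact h4
  exact le_of_mul_le_mul_left h5 hp

private theorem ff_two (s : ℝ) : ff s 2 = 2 * s ^ 2 - 5 * s ^ 3 := by
  have h2 : rr s 2 = 2 * s ^ 2 := by
    have := rr_succ_mul s 1
    rw [rr_one] at this
    push_cast at this
    linear_combination (1 / 3) * this
  have h3 : rr s 3 = 5 * s ^ 3 := by
    have := rr_succ_mul s 2
    rw [h2] at this
    push_cast at this
    linear_combination (1 / 4) * this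
  unfold ff fr
  rw [h2, h3]

private theorem quarter {s : ℝ} (hs : 0 < s) (i : ℕ)
    (h : (1 / 4 : ℝ) * (((((i + 1 : ℕ) : ℝ)) + 3) * (((((i + 1 : ℕ) : ℝ)) + 2) -
        s * (4 * ((i + 1 : ℕ) : ℝ) + 2))) ≤
      1 * (s * (4 * ((i + 1 : ℕ) : ℝ) + 2) * (((((i + 1 : ℕ) : ℝ)) + 3) -
        s * (4 * ((i + 1 : ℕ) : ℝ) + 6)))) :
    (1 / 4 : ℝ) * ff s (i + 1) ≤ ff s (i + 2) := by
  have := key hs (i + 1) (1 / 4) 1 h
  rw [one_mul] at this
  exact this

theorem H1 (i : ℕ) :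
    (1 - 127 / 200) * (1 - ff (63 / 100 * (1 - 63 / 100)) 0) * ff (63 / 100 * (1 - 63 / 100)) i ≤
      (1 - (147 / 1000) / (127 / 200)) * ff (63 / 100 * (1 - 63 / 100)) (i + 1) := by
  have hi : (0 : ℝ) ≤ (i : ℝ) := Nat.cast_nonneg i
  refine key (by norm_num) i _ _ ?_
  rw [ff_zero]
  nlinarith [mul_nonneg hi hi]

theorem H1' (i : ℕ) :
    (1 - 127 / 200) * (1 - ff (63 / 100 * (1 - 63 / 100)) 0 ^ 2 - ff (63 / 100 * (1 - 63 / 100)) 1) *
        ff (63 / 100 * (1 - 63 / 100)) i ≤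
      (1 - (147 / 1000) / (127 / 200)) * ff (63 / 100 * (1 - 63 / 100)) 0 *
        ff (63 / 100 * (1 - 63 / 100)) (i + 1) + ff (63 / 100 * (1 - 63 / 100)) (i + 2) := by
  rcases i with _ | i
  · simp only [zero_add]
    rw [ff_zero, ff_one, ff_two]
    norm_num
  · have hi : (0 : ℝ) ≤ (i : ℝ) := Nat.cast_nonneg i
    have hp : (0 : ℝ) < ff (63 / 100 * (1 - 63 / 100)) (i + 1) := ff_pos (by norm_num) (by norm_num) _
    have hp3 : (0 : ℝ) < ff (63 / 100 * (1 - 63 / 100)) (i + 1 + 2) :=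
      ff_pos (by norm_num) (by norm_num) _
    have hq := quarter (s := 63 / 100 * (1 - 63 / 100)) (by norm_num) i (by
      push_cast
      nlinarith [mul_nonneg hi hi])
    rw [show i + 1 + 1 = i + 2 by ring]
    rw [ff_zero, ff_one]
    nlinarith

theorem H2 (i : ℕ) :
    (1 - 7 / 10) * (1 - ff (18 / 25 * (1 - 18 / 25)) 0) * ff (18 / 25 * (1 - 18 / 25)) i ≤
      (1 - 0 / (7 / 10)) * ff (18 / 25 * (1 - 18 / 25)) (i + 1) := by
  have hi : (0 : ℝ) ≤ (i : ℝ) := Nat.cast_nonneg i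
  refine key (by norm_num) i _ _ ?_
  rw [ff_zero]
  nlinarith [mul_nonneg hi hi]

theorem H2' (i : ℕ) :
    (1 - 7 / 10) * (1 - ff (18 / 25 * (1 - 18 / 25)) 0 ^ 2 - ff (18 / 25 * (1 - 18 / 25)) 1) *
        ff (18 / 25 * (1 - 18 / 25)) i ≤
      (1 - 0 / (7 / 10)) * ff (18 / 25 * (1 - 18 / 25)) 0 *
        ff (18 / 25 * (1 - 18 / 25)) (i + 1) + ff (18 / 25 * (1 - 18 / 25)) (i + 2) := by
  rcases i with _ | i
  · simp only [zero_add]
    rw [ff_zero, ff_one, ff_two]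
    norm_num
  · have hi : (0 : ℝ) ≤ (i : ℝ) := Nat.cast_nonneg i
    have hp : (0 : ℝ) < ff (18 / 25 * (1 - 18 / 25)) (i + 1) := ff_pos (by norm_num) (by norm_num) _
    have hp3 : (0 : ℝ) < ff (18 / 25 * (1 - 18 / 25)) (i + 1 + 2) :=
      ff_pos (by norm_num) (by norm_num) _
    have hq := quarter (s := 18 / 25 * (1 - 18 / 25)) (by norm_num) i (by
      push_cast
      nlinarith [mul_nonneg hi hi])
    rw [show i + 1 + 1 = i + 2 by ring]
    rw [ff_zero, ff_one]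
    nlinarith

end Pool.Agent.Helper96.PK
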