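import Pool.Agent.Helper96.PK.LamRec

set_option autoImplicit false

/-!
# PK-14: the `N`-family for `a = 7/10, g = 0, ρ = 18/25, κ = 1/200` (`s = 126/625`)

As `Nfam1.lean`, but simpler because `g = 0`: `e2 = 0`, `c1 = c4 = 0`,
`c0 = (1-κ) a = c2`, `c3 = a/(1-a)`.
* `Bn 0 ≥ 0` and `Lam 0 ≥ 0` numerically (`Bn_0/b_0 = .2405`, `Lam_0/b_0 = .0305`).
* `PsiB n ≥ 0` for `n ≥ 1`: `a b_n [(1 - m) - m/s - a (1-a)] + a b_(n+1) m/s`, `m = .09`,
  `(1-m) - m/s - a (1-a) = .91 - .44643 - .21 > 0`.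
* `Psi n ≥ 0` for `n ≥ 1`: `(n+2)(n+3)(n+4) Psi n = b_n P(n)` with
  `P(n) = .730897.. + .492702.. n + .0996093 n^2 + .00552874 n^3` (positive coefficients).
  In fact `(n+2) Psi n` is already `b_n` times a linear polynomial.
-/

namespace Pool.Agent.Helper96.PK

private theorem n2_s : (18 / 25 * (1 - 18 / 25) : ℝ) = 126 / 625 := by norm_num

private theorem n2_spos : (0 : ℝ) < 126 / 625 := by norm_num

private theorem n2_s4 : (4 : ℝ) * (126 / 625) < 1 := by norm_num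

private theorem n2_ff (n : ℕ) :
    ff (126 / 625) n = (bb (126 / 625) n - bb (126 / 625) (n + 1)) * (625 / 126) := by
  have h := s_mul_ff (126 / 625) n
  linear_combination (625 / 126 : ℝ) * h

private theorem n2_b1 (n : ℕ) :
    ((n : ℝ) + 2) * bb (126 / 625) (n + 1) = 126 / 625 * (4 * n + 2) * bb (126 / 625) n :=
  bb_succ_mul (126 / 625) n

private theorem n2_x0 : xx (7 / 10) 0 (126 / 625) 0 = 3 / 10 * (1 - 7 / 10 * (1 - 126 / 625)) := by
  rw [xx_zero, A1, ff_zero]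
  norm_num

private theorem n2_x1 : xx (7 / 10) 0 (126 / 625) 1 =
    9 / 100 * ((1 - 126 / 625) * (3 / 10 * (1 - 7 / 10 * (1 - 126 / 625)))) +
      3 / 10 * (7 / 10 * (126 / 625) ^ 2) := by
  rw [xx_eq, Finset.sum_range_one]
  simp only [Nat.sub_self, n2_x0, ff_zero, bb_one]
  norm_num

theorem N2_B (n : ℕ) : 0 ≤ Bn (7 / 10) 0 (18 / 25 * (1 - 18 / 25)) n := by
  rw [n2_s]
  refine Bn_nonneg_of n2_spos n2_s4 1 le_rfl ?_ ?_ n
  · intro k hk
    have hk0 : k = 0 := by omega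
    subst hk0
    rw [Bn, bb_zero, n2_x0]
    norm_num
  · intro k _
    have hb0 := bb_pos n2_spos k
    have hb1 := bb_pos n2_spos (k + 1)
    rw [PsiB, n2_ff k]
    nlinarith

theorem N2_E (n : ℕ) : e2 (7 / 10) 0 (18 / 25 * (1 - 18 / 25)) n ≤ 0 := by
  rw [e2]
  simp

theorem N2_L (n : ℕ) : 0 ≤ Lam (7 / 10) 0 (18 / 25 * (1 - 18 / 25)) (1 / 200) n := by
  rw [n2_s]
  refine Lam_nonneg_of n2_spos n2_s4 1 le_rfl ?_ ?_ n
  · intro k hk
    have hk0 : k = 0 := by omega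
    subst hk0
    rw [Lam, dl, Bn, e1, e2, bb_zero, n2_x0, zero_add, n2_x1]
    norm_num
  · intro k _
    have hb0 := bb_pos n2_spos k
    have hb1 := n2_b1 k
    have hk : (0 : ℝ) ≤ (k : ℝ) := Nat.cast_nonneg k
    rw [Psi, c0, c1, c2, c3, c4, n2_ff k, n2_x0]
    have hk2 : (0 : ℝ) < (k : ℝ) + 2 := by linarith
    have key : ∀ X : ℝ, 0 ≤ ((k : ℝ) + 2) * X → 0 ≤ X := by
      intro X hX
      by_contra hneg
      push Not at hneg
      nlinarith
    apply key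
    set B := bb (126 / 625) k with hB
    set B1 := bb (126 / 625) (k + 1) with hB1
    have hkB : 0 ≤ (k : ℝ) * B := mul_nonneg hk hb0.le
    nlinarith

end Pool.Agent.Helper96.PK
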