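import Pool.Agent.Helper96.PK.Nfam1
import Pool.Agent.Helper96.PK.Nfam2
import Pool.Agent.Helper96.PK.Gfam1
import Pool.Agent.Helper96.PK.Gfam2
import Pool.Agent.Helper96.PK.HH

set_option autoImplicit false

/-! # The two parameter sets -/

namespace Pool.Agent.Helper96.PK

theorem good1 : Good (127 / 200) (147 / 1000) (63 / 100) (9 / 1000) where
  a0 := by norm_num
  a1 := by norm_num
  g0 := by norm_num
  ga := by norm_num
  ρ0 := by norm_num
  ρ1 := by norm_num
  κ0 := by norm_num
  B := N1_B
  E := N1_E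
  L := N1_L
  G := fun i d hd e h1 h2 => G1 H1 i d hd e h1 h2
  H := H1
  H' := H1'

theorem good2 : Good (7 / 10) 0 (18 / 25) (1 / 200) where
  a0 := by norm_num
  a1 := by norm_num
  g0 := le_rfl
  ga := by norm_num
  ρ0 := by norm_num
  ρ1 := by norm_num
  κ0 := by norm_num
  B := N2_B
  E := N2_E
  L := N2_L
  G := fun i d hd e h1 h2 => G2 H2 i d hd e h1 h2
  H := H2
  H' := H2'

end Pool.Agent.Helper96.PK
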