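import Pool.Agent.Helper96.PK.AvgL
import Pool.Agent.Helper96.PK.Coord

set_option autoImplicit false

/-!
# PK-29: the law of finitely many coordinates

`μ = Measure.infinitePi (fun _ => (PMF.bernoulli p hp).toMeasure)` on `ℤ × ℤ × Bool → Bool`, `q = p` if
`fl = false` and `q = 1 - p` if `fl = true`.

`integral_coords`: for a list `L : List (ℤ × ℤ × Bool)` without repetitions and every `F`
`∫ F (L.map (fun c => xor fl (ω c))) dμ = Avg q L.length F`. Induction on `L`, generalizing `F`. For
`L = c :: L'` split according to the value `b` of `xor fl (ω c)`: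
`F (b :: rest) = 1[b] F (true :: rest) + 1[¬b] F (false :: rest)`. Coordinates are independent under
`infinitePi` (`ProbabilityTheory.iIndepFun_infinitePi`), so `ω c` is independent of the restriction of
`ω` to `L'.toFinset` (`iIndepFun.indepFun_finset` for `{c}` and `L'.toFinset`), and the integral of the
product is the product of the integrals (`IndepFun.integral_mul_eq_mul_integral`...);
`μ {ω | ω c = true} = p` (`infinitePi` marginal: `measurePreserving_eval_infinitePi` or
`infinitePi_map_eval`, `PMF.bernoulli`).
Measurability: `ω ↦ L.map (fun c => xor fl (ω c))` factors through the restriction to `L.toFinset`, i.e.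
a finite discrete space (`measurable_of_finite`-type lemmas), or: `F (L.map ..)` is measurable by
induction on `L` (`Measurable.ite`).

`measure_alive`: apply it to `L = (cs n).map (edge fl)` (`cs_nodup`, `edge_injective`,
`List.Nodup.map`) and `F = ` indicator; `(cs n).map (fwd fl ω) = L.map (fun c => xor fl (ω c))`.
-/

namespace Pool.Agent.Helper96.PK

open MeasureTheory
open scoped ENNReal NNReal

section coords

variable {ι : Type*} [DecidableEq ι]

/-- The function of the restriction to the coordinates of the list. -/
private def phiL {β : Type*} (fl : Bool) (L : List ι) (F : List Bool → β)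
    (y : L.toFinset → Bool) : β :=
  F (L.map fun c => xor fl (if h : c ∈ L.toFinset then y ⟨c, h⟩ else false))

omit [DecidableEq ι] in
private lemma phiL_eq [DecidableEq ι] {β : Type*} (fl : Bool) (L : List ι) (F : List Bool → β)
    (ω : ι → Bool) :
    phiL fl L F (fun c : L.toFinset => ω c) = F (L.map fun c => xor fl (ω c)) := by
  unfold phiL
  congr 1
  apply List.map_congr_left
  intro c hc
  have h : c ∈ L.toFinset := List.mem_toFinset.2 hc
  rw [dif_pos h]

omit [DecidableEq ι] in
private lemma measurable_coords {β : Type*} [MeasurableSpace β] (fl : Bool) (L : List ι)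
    (F : List Bool → β) :
    Measurable (fun ω : ι → Bool => F (L.map fun c => xor fl (ω c))) := by
  classical
  have h1 : Measurable (fun (ω : ι → Bool) (c : L.toFinset) => ω c) :=
    measurable_pi_lambda _ fun c => measurable_pi_apply _
  have h2 : Measurable (phiL fl L F) := measurable_of_finite _
  have h3 := h2.comp h1
  have h4 : (phiL fl L F) ∘ (fun (ω : ι → Bool) (c : L.toFinset) => ω c) =
      fun ω : ι → Bool => F (L.map fun c => xor fl (ω c)) := by
    funext ω
    exact phiL_eq fl L F ω
  rwa [h4] at h3

omit [DecidableEq ι] in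
private lemma integrable_coords (μ : Measure (ι → Bool)) [IsFiniteMeasure μ] (fl : Bool)
    (L : List ι) (F : List Bool → ℝ) :
    Integrable (fun ω : ι → Bool => F (L.map fun c => xor fl (ω c))) μ := by
  classical
  have h1 : Measurable (fun (ω : ι → Bool) (c : L.toFinset) => ω c) :=
    measurable_pi_lambda _ fun c => measurable_pi_apply _
  have h2 : Integrable (phiL fl L F) (μ.map (fun (ω : ι → Bool) (c : L.toFinset) => ω c)) :=
    Integrable.of_finite
  have h3 := h2.comp_measurable h1
  have h4 : (phiL fl L F) ∘ (fun (ω : ι → Bool) (c : L.toFinset) => ω c) =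
      fun ω : ι → Bool => F (L.map fun c => xor fl (ω c)) := by
    funext ω
    exact phiL_eq fl L F ω
  rwa [h4] at h3

omit [DecidableEq ι] in
private lemma integral_one (p : ℝ≥0) (hp : p ≤ 1) (fl : Bool) (c : ι) (G : Bool → ℝ) :
    ∫ ω, G (xor fl (ω c)) ∂(Measure.infinitePi (fun _ : ι => (PMF.bernoulli p hp).toMeasure)) =
      (if fl then 1 - (p : ℝ) else p) * G true +
        (1 - (if fl then 1 - (p : ℝ) else p)) * G false := by
  have hmp := measurePreserving_eval_infinitePi
    (fun _ : ι => (PMF.bernoulli p hp).toMeasure) c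
  have h1 : ∫ ω, G (xor fl (ω c))
      ∂(Measure.infinitePi (fun _ : ι => (PMF.bernoulli p hp).toMeasure)) =
      ∫ b, G (xor fl b) ∂((PMF.bernoulli p hp).toMeasure) := by
    have h2 := integral_map (μ := Measure.infinitePi
      (fun _ : ι => (PMF.bernoulli p hp).toMeasure)) (φ := Function.eval c)
      (f := fun b : Bool => G (xor fl b)) hmp.measurable.aemeasurable
      (measurable_of_finite _).aestronglyMeasurable
    rw [hmp.map_eq] at h2
    exact h2.symm
  rw [h1, PMF.integral_eq_sum]
  simp only [PMF.bernoulli_apply, Fintype.sum_bool, smul_eq_mul, Bool.cond_true, Bool.cond_false]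
  have h3 : ((p : ℝ≥0∞)).toReal = (p : ℝ) := by simp
  have h4 : (((1 - p : ℝ≥0) : ℝ≥0∞)).toReal = 1 - (p : ℝ) := by
    rw [ENNReal.coe_toReal, NNReal.coe_sub hp, NNReal.coe_one]
  rw [h3, h4]
  cases fl <;> simp <;> ring

omit [DecidableEq ι] in
private lemma integral_coords' (p : ℝ≥0) (hp : p ≤ 1) (fl : Bool) (L : List ι)
    (hL : L.Nodup) (F : List Bool → ℝ) :
    ∫ ω, F (L.map fun c => xor fl (ω c))
      ∂(Measure.infinitePi (fun _ : ι => (PMF.bernoulli p hp).toMeasure)) =
      Avg (if fl then 1 - (p : ℝ) else p) L.length F := by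
  classical
  induction L generalizing F with
  | nil => simp [Avg]
  | cons c L ih =>
    obtain ⟨hc, hL'⟩ := List.nodup_cons.1 hL
    set μ := Measure.infinitePi (fun _ : ι => (PMF.bernoulli p hp).toMeasure) with hμ
    have hind : ProbabilityTheory.iIndepFun (fun (i : ι) (ω : ι → Bool) => ω i) μ :=
      ProbabilityTheory.iIndepFun_infinitePi
        (P := fun _ : ι => (PMF.bernoulli p hp).toMeasure) (X := fun _ x => x)
        (fun _ => measurable_id)
    have hdis : Disjoint ({c} : Finset ι) L.toFinset := by
      rw [Finset.disjoint_singleton_left]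
      simpa using hc
    have hI := hind.indepFun_finset ({c} : Finset ι) L.toFinset hdis
      (fun i => measurable_pi_apply i)
    -- the product formula
    have key : ∀ (b : Bool) (F' : List Bool → ℝ),
        ∫ ω, (if xor fl (ω c) = b then (1 : ℝ) else 0) *
          F' (L.map fun c => xor fl (ω c)) ∂μ =
        (∫ ω, (if xor fl (ω c) = b then (1 : ℝ) else 0) ∂μ) *
          ∫ ω, F' (L.map fun c => xor fl (ω c)) ∂μ := by
      intro b F'
      have h1 := hI.comp
        (φ := fun y : (({c} : Finset ι) → Bool) =>
          if xor fl (y ⟨c, Finset.mem_singleton_self c⟩) = b then (1 : ℝ) else 0)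
        (ψ := phiL fl L F') (measurable_of_finite _) (measurable_of_finite _)
      have h2 : (phiL fl L F') ∘ (fun (ω : ι → Bool) (c : L.toFinset) => ω c) =
          fun ω : ι → Bool => F' (L.map fun c => xor fl (ω c)) := by
        funext ω
        exact phiL_eq fl L F' ω
      rw [h2] at h1
      refine h1.integral_fun_mul_eq_mul_integral ?_ ?_
      · exact ((measurable_of_finite _).comp
          (measurable_pi_lambda _ fun i => measurable_pi_apply _)).aestronglyMeasurable
      · exact (measurable_coords fl L F').aestronglyMeasurable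
    have hsplit : ∀ ω : ι → Bool, F ((c :: L).map fun c => xor fl (ω c)) =
        (if xor fl (ω c) = true then (1 : ℝ) else 0) *
          F (true :: L.map fun c => xor fl (ω c)) +
        (if xor fl (ω c) = false then (1 : ℝ) else 0) *
          F (false :: L.map fun c => xor fl (ω c)) := by
      intro ω
      rw [List.map_cons]
      rcases hb : xor fl (ω c) with _ | _ <;> simp
    have hint : ∀ (b : Bool) (F' : List Bool → ℝ),
        Integrable (fun ω : ι → Bool => (if xor fl (ω c) = b then (1 : ℝ) else 0) *
          F' (L.map fun c => xor fl (ω c))) μ := by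
      intro b F'
      have h1 := integrable_coords μ fl (c :: L)
        (fun l => (if l.head? = some b then (1 : ℝ) else 0) * F' l.tail)
      simpa using h1
    have h3 : ∫ ω, F ((c :: L).map fun c => xor fl (ω c)) ∂μ =
        (∫ ω, (if xor fl (ω c) = true then (1 : ℝ) else 0) ∂μ) *
          (∫ ω, F (true :: L.map fun c => xor fl (ω c)) ∂μ) +
        (∫ ω, (if xor fl (ω c) = false then (1 : ℝ) else 0) ∂μ) *
          (∫ ω, F (false :: L.map fun c => xor fl (ω c)) ∂μ) := by
      rw [integral_congr_ae (Filter.Eventually.of_forall hsplit),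
        integral_add (hint true (fun l => F (true :: l))) (hint false (fun l => F (false :: l))),
        key true (fun l => F (true :: l)), key false (fun l => F (false :: l))]
    rw [h3, ih hL' (fun l => F (true :: l)), ih hL' (fun l => F (false :: l))]
    have h4 := integral_one p hp fl c (fun b => if b = true then (1 : ℝ) else 0)
    have h5 := integral_one p hp fl c (fun b => if b = false then (1 : ℝ) else 0)
    simp only [if_true, reduceCtorEq, if_false, mul_one, mul_zero, add_zero, zero_add] at h4 h5
    rw [h4, h5, List.length_cons]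
    rfl

end coords

theorem integral_coords (p : ℝ≥0) (hp : p ≤ 1) (fl : Bool) (L : List (ℤ × ℤ × Bool))
    (hL : L.Nodup) (F : List Bool → ℝ) :
    (Integrable (fun ω : ℤ × ℤ × Bool → Bool => F (L.map fun c => xor fl (ω c)))
      (Measure.infinitePi (fun _ : ℤ × ℤ × Bool => (PMF.bernoulli p hp).toMeasure))) ∧
    ∫ ω, F (L.map fun c => xor fl (ω c))
      ∂(Measure.infinitePi (fun _ : ℤ × ℤ × Bool => (PMF.bernoulli p hp).toMeasure)) =
      Avg (if fl then 1 - (p : ℝ) else p) L.length F :=
  ⟨integrable_coords _ fl L F, integral_coords' p hp fl L hL F⟩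

private lemma WW_eq (fl : Bool) (n : ℕ) (ω : ℤ × ℤ × Bool → Bool) :
    WW (fwd fl ω) n = Wf n (((cs n).map (edge fl)).map fun c => xor fl (ω c)) := by
  unfold WW
  rw [List.map_map]
  rfl

theorem measurable_alive (fl : Bool) (n : ℕ) :
    MeasurableSet {ω : ℤ × ℤ × Bool → Bool | true ∈ WW (fwd fl ω) n} := by
  classical
  have h := measurable_coords fl ((cs n).map (edge fl)) (fun l => decide (true ∈ Wf n l))
  have h2 : {ω : ℤ × ℤ × Bool → Bool | true ∈ WW (fwd fl ω) n} =
      (fun ω : ℤ × ℤ × Bool → Bool =>
        decide (true ∈ Wf n (((cs n).map (edge fl)).map fun c => xor fl (ω c)))) ⁻¹' {true} := by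
    ext ω
    simp [WW_eq]
  rw [h2]
  exact h (measurableSet_singleton _)

theorem measure_alive (p : ℝ≥0) (hp : p ≤ 1) (fl : Bool) (n : ℕ) {ρ : ℝ}
    (h : ρ ≤ Avg (if fl then 1 - (p : ℝ) else p) (Nn n)
      (fun l => if true ∈ Wf n l then 1 else 0)) :
    ENNReal.ofReal ρ ≤ (Measure.infinitePi (fun _ : ℤ × ℤ × Bool =>
      (PMF.bernoulli p hp).toMeasure)) {ω | true ∈ WW (fwd fl ω) n} := by
  classical
  set μ := Measure.infinitePi (fun _ : ℤ × ℤ × Bool => (PMF.bernoulli p hp).toMeasure) with hμ
  have hnd : ((cs n).map (edge fl)).Nodup := (cs_nodup n).map (edge_injective fl)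
  have h1 := (integral_coords p hp fl ((cs n).map (edge fl)) hnd
    (fun l => if true ∈ Wf n l then 1 else 0)).2
  rw [List.length_map, cs_length] at h1
  rw [← h1] at h
  have h2 : (fun ω : ℤ × ℤ × Bool → Bool =>
      (if true ∈ Wf n (((cs n).map (edge fl)).map fun c => xor fl (ω c)) then (1 : ℝ) else 0)) =
      Set.indicator {ω : ℤ × ℤ × Bool → Bool | true ∈ WW (fwd fl ω) n} (fun _ => (1 : ℝ)) := by
    funext ω
    simp only [Set.indicator, Set.mem_setOf_eq, WW_eq]
  rw [h2, integral_indicator (measurable_alive fl n)] at h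
  simp only [integral_const, smul_eq_mul, mul_one, MeasurableSet.univ, measureReal_restrict_apply,
    Set.univ_inter] at h
  exact ENNReal.ofReal_le_of_le_toReal h

end Pool.Agent.Helper96.PK
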