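import Pool.Agent.Helper96.PK.Coord

set_option autoImplicit false

/-!
# PK-30: alive words give reachable sites

`WW ξ (n+1) = step (WW ξ n) ((lev n).map ξ)` (`List.map_append`, `take`/`drop` with `cs_length`), and
the word `WW ξ n` has length `3n+1`; its entry `j` belongs to the site `pos n (j - n)`.
`trip (pad w) ((lev n).map ξ)` is the list of `(x_k, ξ (n, i_k, true), ξ (n, i_k, false))` with
`i_k = k - n - 2`, `x_k` = entry `k` of `pad w`, i.e. entry `k - 2` of `w` (`false` outside), `k < 3n+4`.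
`phi_true`: if entry `k` of `phi false T` is `true` then (with `T_k = (x_k, l_k, r_k)`)
 (a) `x_k` and `r_k`; or (b) `k ≥ 1`, `x_(k-1)`, `r_(k-1)`, `¬ l_k`, `r_k`; or (c) `x_(k+1)`, `l_(k+1)`; or
 (d) `x_(k+2)`, `l_(k+2)`, `¬ r_(k+1)`, `l_(k+1)` (indices in range). (Induction on `T`; for the
 inductive statement allow a general carry `c`, where (b) for `k = 0` reads: `c`, `¬ l_0`, `r_0`.)
Entry `k` of `step` is the site `pos (n+1) (i_k + 1)`. In the cases: `x_m` true means that `pos n i_m` is
reachable by induction, and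
 (a) `pos n i_k → pos (n+1) (i_k+1)` (`fwd_right`);
 (b) `pos n i_(k-1) → pos (n+1) (i_k) → pos n i_k → pos (n+1) (i_k+1)` (`fwd_right`, `bwd_left`, `fwd_right`);
 (c) `pos n i_(k+1) → pos (n+1) i_(k+1)` (`fwd_left`);
 (d) `pos n i_(k+2) → pos (n+1) i_(k+2) → pos n i_(k+1) → pos (n+1) i_(k+1)` (`fwd_left`, `bwd_right`,
 `fwd_left`).
-/

namespace Pool.Agent.Helper96.PK

theorem WW_succ (ξ : ℕ × ℤ × Bool → Bool) (n : ℕ) :
    WW ξ (n + 1) = step (WW ξ n) ((lev n).map ξ) := by
  have hl : ((cs n).map ξ).length = Nn n := by rw [List.length_map, cs_length]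
  change Wf (n + 1) ((cs n ++ lev n).map ξ) = _
  rw [List.map_append]
  change step (Wf n (((cs n).map ξ ++ (lev n).map ξ).take (Nn n)))
    (((cs n).map ξ ++ (lev n).map ξ).drop (Nn n)) = _
  rw [List.take_left' hl, List.drop_left' hl]
  rfl

/-- The entry `k` of `phi c T` is `true` for one of four reasons. -/
private theorem phi_true (T : List Tr) : ∀ (c : Bool) (k : ℕ), (phi c T)[k]? = some true →
    (∃ l, T[k]? = some (true, l, true)) ∨
    (∃ x, T[k]? = some (x, false, true) ∧
      ((k = 0 ∧ c = true) ∨ ∃ k' l', k = k' + 1 ∧ T[k']? = some (true, l', true))) ∨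
    (∃ r', T[k + 1]? = some (true, true, r')) ∨
    ∃ x' r'', T[k + 1]? = some (x', true, false) ∧ T[k + 2]? = some (true, true, r'') := by
  induction T with
  | nil => intro c k h; simp [phi] at h
  | cons t T ih =>
    obtain ⟨x, l, r⟩ := t
    intro c k h
    cases k with
    | zero =>
      simp only [phi, List.getElem?_cons_zero, Option.some.injEq, Bool.or_eq_true,
        Bool.and_eq_true, Bool.not_eq_true'] at h
      rcases h with (⟨h1, h2⟩ | ⟨⟨h1, h2⟩, h3⟩) | h
      · left
        exact ⟨l, by simp [h1, h2]⟩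
      · right
        left
        exact ⟨x, by simp [h2, h3], Or.inl ⟨rfl, h1⟩⟩
      · match T, h with
        | [(x', l', r')], h =>
          simp only [hitL, Bool.and_eq_true] at h
          right
          right
          left
          exact ⟨r', by simp [h.1, h.2]⟩
        | (x', l', r') :: (x'', l'', r'') :: T', h =>
          simp only [hitL, Bool.or_eq_true, Bool.and_eq_true, Bool.not_eq_true'] at h
          right
          right
          rcases h with ⟨h1, h2⟩ | ⟨⟨⟨h1, h2⟩, h3⟩, h4⟩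
          · left
            exact ⟨r', by simp [h1, h2]⟩
          · right
            exact ⟨x', r'', by simp [h3, h4], by simp [h1, h2]⟩
    | succ k =>
      simp only [phi, List.getElem?_cons_succ] at h
      rcases ih _ k h with ⟨l', h'⟩ | ⟨x', h1, h2⟩ | ⟨r', h'⟩ | ⟨x', r'', h1, h2⟩
      · left
        exact ⟨l', by simpa using h'⟩
      · right
        left
        refine ⟨x', by simpa using h1, Or.inr ?_⟩
        rcases h2 with ⟨h3, h4⟩ | ⟨k', l', h3, h4⟩
        · rw [Bool.and_eq_true] at h4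
          exact ⟨0, l, by rw [h3], by simp [h4.1, h4.2]⟩
        · exact ⟨k' + 1, l', by rw [h3], by simpa using h4⟩
      · right
        right
        left
        exact ⟨r', by simpa using h'⟩
      · right
        right
        right
        exact ⟨x', r'', by simpa using h1, by simpa using h2⟩

private theorem trip_get (f g : ℕ → Bool) (w : List Bool) : ∀ (L : List ℕ) (k : ℕ) (x l r : Bool),
    (trip w (L.flatMap fun j => [f j, g j]))[k]? = some (x, l, r) →
    w[k]? = some x ∧ ∃ j, L[k]? = some j ∧ l = f j ∧ r = g j := by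
  induction w with
  | nil =>
    intro L k x l r h
    have : trip [] (L.flatMap fun j => [f j, g j]) = [] := by
      cases (L.flatMap fun j => [f j, g j]) <;> rfl
    rw [this] at h
    simp at h
  | cons y w ih =>
    intro L k x l r h
    cases L with
    | nil => simp [trip] at h
    | cons j L =>
      have e : trip (y :: w) ((j :: L).flatMap fun j => [f j, g j]) =
        (y, f j, g j) :: trip w (L.flatMap fun j => [f j, g j]) := rfl
      rw [e] at h
      cases k with
      | zero =>
        simp only [List.getElem?_cons_zero, Option.some.injEq, Prod.mk.injEq] at h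
        obtain ⟨h1, h2, h3⟩ := h
        exact ⟨by simp [h1], j, by simp, h2.symm, h3.symm⟩
      | succ k =>
        rw [List.getElem?_cons_succ] at h
        obtain ⟨h1, j', h2, h3⟩ := ih L k x l r h
        exact ⟨by simpa using h1, j', by simpa using h2, h3⟩

private theorem pad_get (w : List Bool) (k : ℕ) (h : (pad w)[k]? = some true) :
    ∃ k', k = k' + 2 ∧ w[k']? = some true := by
  unfold pad at h
  match k, h with
  | 0, h => simp at h
  | 1, h => simp at h
  | k' + 2, h =>
    refine ⟨k', rfl, ?_⟩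
    simp only [List.getElem?_cons_succ] at h
    rcases Nat.lt_or_ge k' w.length with h1 | h1
    · rwa [List.getElem?_append_left h1] at h
    · rw [List.getElem?_append_right h1] at h
      exfalso
      cases hk : k' - w.length with
      | zero => rw [hk] at h; simp at h
      | succ m => rw [hk] at h; simp at h

private theorem lev_get (ξ : ℕ × ℤ × Bool → Bool) (n : ℕ) (w : List Bool) (k : ℕ) (x l r : Bool)
    (h : (trip (pad w) ((lev n).map ξ))[k]? = some (x, l, r)) :
    (pad w)[k]? = some x ∧ l = ξ (n, (k : ℤ) - n - 2, true) ∧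
      r = ξ (n, (k : ℤ) - n - 2, false) := by
  have e : (lev n).map ξ = (List.range (3 * n + 4)).flatMap fun j : ℕ =>
      [ξ (n, (j : ℤ) - n - 2, true), ξ (n, (j : ℤ) - n - 2, false)] := by
    unfold lev
    rw [List.map_flatMap]
    simp only [List.pure_def, List.bind_eq_flatMap, List.flatMap_assoc]
    simp
  rw [e] at h
  obtain ⟨h1, j, h2, h3, h4⟩ := trip_get _ _ _ _ _ _ _ _ h
  have : j = k := by
    rw [List.getElem?_eq_some_iff] at h2
    obtain ⟨h5, h6⟩ := h2
    rw [List.getElem_range] at h6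
    exact h6.symm
  subst this
  exact ⟨h1, h3, h4⟩

theorem reach_of_true (fl : Bool) (ω : ℤ × ℤ × Bool → Bool) (n : ℕ) (j : ℕ)
    (h : (WW (fwd fl ω) n)[j]? = some true) :
    Relation.ReflTransGen (Arrow ω) (0, 0) (pos fl n ((j : ℤ) - n)) := by
  induction n generalizing j with
  | zero =>
    have hj : j = 0 := by
      by_contra hj
      obtain ⟨j', rfl⟩ : ∃ j', j = j' + 1 := ⟨j - 1, by omega⟩
      have : WW (fwd fl ω) 0 = [true] := rfl
      rw [this] at h
      simp at h
    subst hj
    have : ((0 : ℕ) : ℤ) - ((0 : ℕ) : ℤ) = 0 := by norm_num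
    rw [this, pos_zero]
  | succ n ih =>
    rw [WW_succ] at h
    unfold step at h
    -- reachable sites of level `n`
    have key : ∀ (k : ℕ) (l r : Bool), (trip (pad (WW (fwd fl ω) n)) ((lev n).map (fwd fl ω)))[k]? =
        some (true, l, r) →
        Relation.ReflTransGen (Arrow ω) (0, 0) (pos fl n ((k : ℤ) - n - 2)) := by
      intro k l r hk
      obtain ⟨h1, -, -⟩ := lev_get _ _ _ _ _ _ _ hk
      obtain ⟨k', rfl, h2⟩ := pad_get _ _ h1
      have := ih k' h2
      have e : ((k' + 2 : ℕ) : ℤ) - n - 2 = (k' : ℤ) - n := by push_cast; ring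
      rw [e]
      exact this
    rcases phi_true _ _ _ h with ⟨l, h1⟩ | ⟨x, h1, h2⟩ | ⟨r', h1⟩ | ⟨x', r'', h1, h2⟩
    · obtain ⟨-, -, g3⟩ := lev_get _ _ _ _ _ _ _ h1
      have e : (j : ℤ) - ((n + 1 : ℕ) : ℤ) = (j : ℤ) - n - 2 + 1 := by push_cast; ring
      rw [e]
      exact (key _ _ _ h1).tail (fwd_right g3.symm)
    · obtain ⟨-, g2, g3⟩ := lev_get _ _ _ _ _ _ _ h1
      rcases h2 with ⟨-, h2⟩ | ⟨k', l', rfl, h3⟩
      · exact absurd h2 (by decide)
      · obtain ⟨-, -, g4⟩ := lev_get _ _ _ _ _ _ _ h3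
        have r1 := (key _ _ _ h3).tail (fwd_right g4.symm)
        have e1 : (k' : ℤ) - n - 2 + 1 = ((k' + 1 : ℕ) : ℤ) - n - 2 := by push_cast; ring
        rw [e1] at r1
        have r2 := r1.tail (bwd_left g2.symm)
        have r3 := r2.tail (fwd_right g3.symm)
        have e : ((k' + 1 : ℕ) : ℤ) - ((n + 1 : ℕ) : ℤ) = ((k' + 1 : ℕ) : ℤ) - n - 2 + 1 := by
          push_cast; ring
        rw [e]
        exact r3
    · obtain ⟨-, g2, -⟩ := lev_get _ _ _ _ _ _ _ h1
      have e : (j : ℤ) - ((n + 1 : ℕ) : ℤ) = ((j + 1 : ℕ) : ℤ) - n - 2 := by push_cast; ring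
      rw [e]
      exact (key _ _ _ h1).tail (fwd_left g2.symm)
    · obtain ⟨-, g2, g3⟩ := lev_get _ _ _ _ _ _ _ h1
      obtain ⟨-, g4, -⟩ := lev_get _ _ _ _ _ _ _ h2
      have r1 := (key _ _ _ h2).tail (fwd_left g4.symm)
      have e1 : ((j + 2 : ℕ) : ℤ) - n - 2 = ((j + 1 : ℕ) : ℤ) - n - 2 + 1 := by push_cast; ring
      rw [e1] at r1
      have r2 := r1.tail (bwd_right g3.symm)
      have r3 := r2.tail (fwd_left g2.symm)
      have e : (j : ℤ) - ((n + 1 : ℕ) : ℤ) = ((j + 1 : ℕ) : ℤ) - n - 2 := by push_cast; ring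
      rw [e]
      exact r3

/-- Once dead, dead for ever. -/
theorem alive_mono (ξ : ℕ × ℤ × Bool → Bool) (n : ℕ) (h : true ∈ WW ξ (n + 1)) :
    true ∈ WW ξ n := by
  rw [WW_succ] at h
  unfold step at h
  have key : ∀ (k : ℕ) (l r : Bool), (trip (pad (WW ξ n)) ((lev n).map ξ))[k]? = some (true, l, r) →
      true ∈ WW ξ n := by
    intro k l r hk
    obtain ⟨h1, -, -⟩ := lev_get _ _ _ _ _ _ _ hk
    obtain ⟨k', rfl, h2⟩ := pad_get _ _ h1
    exact List.mem_of_getElem? h2
  obtain ⟨k, hk⟩ := List.getElem?_of_mem h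
  rcases phi_true _ _ _ hk with ⟨l, h1⟩ | ⟨x, h1, h2⟩ | ⟨r', h1⟩ | ⟨x', r'', h1, h2⟩
  · exact key _ _ _ h1
  · rcases h2 with ⟨-, h2⟩ | ⟨k', l', -, h3⟩
    · exact absurd h2 (by decide)
    · exact key _ _ _ h3
  · exact key _ _ _ h1
  · exact key _ _ _ h2

end Pool.Agent.Helper96.PK
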