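import Pool.Agent.Helper96.PK.Survive
import Pool.Agent.Helper96.PK.GoodInst
import Pool.Agent.Helper96.PK.Meas
import Pool.Agent.Helper96.PK.Reach
import Pool.Agent.Helper96.PK.Koenig

set_option autoImplicit false

/-!
# PK-32: the final theorem
-/

namespace Pool.Agent.Helper96.PK

open MeasureTheory
open scoped ENNReal NNReal

/-- Out-neighbours are finitely many. -/
theorem arrow_finite (ω : ℤ × ℤ × Bool → Bool) (x : ℤ × ℤ) : {y | Arrow ω x y}.Finite := by
  apply Set.Finite.subset (Set.toFinite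
    ({(x.1 + 1, x.2), (x.1 - 1, x.2), (x.1, x.2 + 1), (x.1, x.2 - 1)} : Set (ℤ × ℤ)))
  rintro y (⟨h, _⟩ | ⟨h, _⟩ | ⟨h, _⟩ | ⟨h, _⟩) <;> simp [h]

/-- Survival on all levels gives an infinite self-avoiding path. -/
theorem path_of_alive (fl : Bool) (ω : ℤ × ℤ × Bool → Bool)
    (h : ∀ n, true ∈ WW (fwd fl ω) n) :
    ∃ f : ℕ → ℤ × ℤ, f 0 = (0, 0) ∧ Function.Injective f ∧ ∀ n, Arrow ω (f n) (f (n + 1)) := by
  have h1 : ∀ n, ∃ j : ℕ, (WW (fwd fl ω) n)[j]? = some true := fun n =>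
    List.mem_iff_getElem?.1 (h n)
  choose j hj using h1
  apply koenig (Arrow ω) (arrow_finite ω)
  apply Set.infinite_of_injective_forall_mem (f := fun n => pos fl n ((j n : ℤ) - n))
  · intro n n' hn
    exact pos_level hn
  · intro n
    exact reach_of_true fl ω n (j n) (hj n)

theorem percolation_of_good {a g ρ κ : ℝ} (hG : Good a g ρ κ) (p : ℝ≥0) (hp : p ≤ 1) (fl : Bool)
    (hap : a ≤ if fl then 1 - (p : ℝ) else p)
    (hgp : g ≤ (if fl then 1 - (p : ℝ) else p) ^ 2 * (1 - if fl then 1 - (p : ℝ) else p)) :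
    ENNReal.ofReal ρ ≤ (Measure.infinitePi (fun _ : ℤ × ℤ × Bool =>
      (PMF.bernoulli p hp).toMeasure)) {ω | ∃ f : ℕ → ℤ × ℤ, f 0 = (0, 0) ∧
        Function.Injective f ∧ ∀ n, Arrow ω (f n) (f (n + 1))} := by
  have hp' : (p : ℝ) ≤ 1 := by exact_mod_cast hp
  have hp0 : (0 : ℝ) ≤ p := p.2
  have hp1 : (if fl then 1 - (p : ℝ) else p) ≤ 1 := by
    cases fl
    · simpa using hp'
    · simp
  set μ := Measure.infinitePi (fun _ : ℤ × ℤ × Bool => (PMF.bernoulli p hp).toMeasure) with hμ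
  have h1 : ∀ n, ENNReal.ofReal ρ ≤ μ {ω | true ∈ WW (fwd fl ω) n} := fun n =>
    measure_alive p hp fl n (survive hG hap hp1 hgp n)
  have hanti : Antitone fun n => {ω : ℤ × ℤ × Bool → Bool | true ∈ WW (fwd fl ω) n} := by
    apply antitone_nat_of_succ_le
    intro n ω hω
    exact alive_mono _ n hω
  have h2 := tendsto_measure_iInter_atTop (μ := μ)
    (s := fun n => {ω : ℤ × ℤ × Bool → Bool | true ∈ WW (fwd fl ω) n})
    (fun n => (measurable_alive fl n).nullMeasurableSet) hanti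
    ⟨0, measure_ne_top μ _⟩
  have h3 : ENNReal.ofReal ρ ≤
      μ (⋂ n, {ω : ℤ × ℤ × Bool → Bool | true ∈ WW (fwd fl ω) n}) :=
    ge_of_tendsto' h2 h1
  refine h3.trans (measure_mono ?_)
  intro ω hω
  exact path_of_alive fl ω fun n => Set.mem_iInter.1 hω n

private theorem q_ineq {q : ℝ} (h1 : 127 / 200 ≤ q) (h2 : q ≤ 7 / 10) :
    147 / 1000 ≤ q ^ 2 * (1 - q) := by
  have h3 : 0 ≤ (7 / 10 - q) * (q ^ 2 - 3 / 10 * q - 21 / 100) := by
    apply mul_nonneg (by linarith)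
    nlinarith
  nlinarith [h3]

theorem main_percolation (p : ℝ≥0) (hp : p ≤ 1) (h : p ≤ 73 / 200 ∨ 127 / 200 ≤ p) :
    ENNReal.ofReal (63 / 100) ≤ (Measure.infinitePi (fun _ : ℤ × ℤ × Bool =>
      (PMF.bernoulli p hp).toMeasure)) {ω | ∃ f : ℕ → ℤ × ℤ, f 0 = (0, 0) ∧
        Function.Injective f ∧ ∀ n, Arrow ω (f n) (f (n + 1))} := by
  have hp' : (p : ℝ) ≤ 1 := by exact_mod_cast hp
  have key : ∀ fl : Bool, 127 / 200 ≤ (if fl then 1 - (p : ℝ) else p) →
      (if fl then 1 - (p : ℝ) else p) ≤ 1 →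
      ENNReal.ofReal (63 / 100) ≤ (Measure.infinitePi (fun _ : ℤ × ℤ × Bool =>
      (PMF.bernoulli p hp).toMeasure)) {ω | ∃ f : ℕ → ℤ × ℤ, f 0 = (0, 0) ∧
        Function.Injective f ∧ ∀ n, Arrow ω (f n) (f (n + 1))} := by
    intro fl h1 h2
    by_cases h3 : (if fl then 1 - (p : ℝ) else p) ≤ 7 / 10
    · exact percolation_of_good good1 p hp fl h1 (q_ineq h1 h3)
    · push Not at h3
      refine le_trans (ENNReal.ofReal_le_ofReal (by norm_num)) (percolation_of_good good2 p hp fl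
        h3.le ?_)
      have h4 : 0 ≤ 1 - (if fl then 1 - (p : ℝ) else p) := by linarith
      positivity
  rcases h with h | h
  · have h1 : (p : ℝ) ≤ 73 / 200 := by exact_mod_cast h
    apply key true
    · simp only [if_true]
      linarith
    · simp
  · have h1 : (127 / 200 : ℝ) ≤ p := by exact_mod_cast h
    apply key false
    · simpa using h1
    · simpa using hp'

end Pool.Agent.Helper96.PK
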