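import Pool.Agent.Helper96.PK.GamT
import Pool.Agent.Helper96.PK.Cat3

set_option autoImplicit false

/-!
# PK-15: differences of `G_d(i)`

* `pu_eq`: induction on `i` with `pu_at_zero` and `pu_succ`:
  `pu k (i+1) = pu (k+1) i - f_i u_(k+1)`.
* `GG_eq` (`k ≥ 1`): `GG k i = pu k i - a f_i u_k - g f_(i+1) u_(k-1)` (for `k = 1`:
  `pu 1 i = f_i u_1 + f_(i+1) u_0`; for `k ≥ 2`: `pu k i = f_i u_k + f_(i+1) u_(k-1) + pu (k-2) (i+2)`).
* `GG_diff`: `uu_succ`.
* `GG_mono`: `b_(n+1) ≤ R b_n` with `R = 4 s`; for `i ≥ 3` keep only the terms `l = 0, 1, 2` of the sum: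
  `b_(k+i) ≥ b_(k+i+1)/R`, `b_(k+i-1) ≥ b_(k+i+1)/R^2`, `b_(k+i-2) ≥ b_(k+i+1)/R^3`.
-/

namespace Pool.Agent.Helper96.PK

theorem pu_eq (s : ℝ) (k i : ℕ) :
    pu s k i = uu s (k + i + 1) - ∑ l ∈ Finset.range i, ff s l * uu s (k + i - l) := by
  induction i generalizing k with
  | zero => simp [pu_at_zero]
  | succ i ih =>
    have h1 := pu_succ s k i
    have h2 := ih (k + 1)
    rw [Finset.sum_range_succ]
    have e1 : k + (i + 1) - i = k + 1 := by omega
    have e2 : k + (i + 1) + 1 = k + 1 + i + 1 := by omega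
    have e3 : ∀ l, k + (i + 1) - l = k + 1 + i - l := fun l => by
      have : k + (i + 1) = k + 1 + i := by omega
      rw [this]
    rw [e1, e2, Finset.sum_congr rfl fun l _ => by rw [e3 l]]
    linarith

private theorem GG_pu (a g s : ℝ) {k : ℕ} (hk : 1 ≤ k) (i : ℕ) :
    GG a g s k i = pu s k i - a * ff s i * uu s k - g * ff s (i + 1) * uu s (k - 1) := by
  obtain ⟨d, rfl⟩ : ∃ d, k = d + 1 := ⟨k - 1, by omega⟩
  rcases d with _ | d
  · have h1 := pu_succ s 0 i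
    rw [pu_zero] at h1
    change (1 - a) * ff s i * uu s 1 + (1 - g) * ff s (i + 1) = _
    have h0 : uu s (0 + 1 - 1) = 1 := uu_zero s
    rw [h1, h0]
    simp only [zero_add]
    ring
  · have h1 := pu_succ s (d + 1) i
    have h2 := pu_succ s d (i + 1)
    change (1 - a) * ff s i * uu s (d + 2) + (1 - g) * ff s (i + 1) * uu s (d + 1) +
      pu s d (i + 2) = pu s (d + 1 + 1) i - a * ff s i * uu s (d + 2) -
        g * ff s (i + 1) * uu s (d + 1)
    rw [h1, h2]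
    have e : d + 1 + 1 = d + 2 := rfl
    have e' : i + 1 + 1 = i + 2 := rfl
    rw [e, e']
    ring

theorem GG_eq (a g s : ℝ) {k : ℕ} (hk : 1 ≤ k) (i : ℕ) :
    GG a g s k i = uu s (k + i + 1) - ∑ l ∈ Finset.range i, ff s l * uu s (k + i - l) -
      a * ff s i * uu s k - g * ff s (i + 1) * uu s (k - 1) := by
  rw [GG_pu a g s hk i, pu_eq]

theorem GG_diff (a g s : ℝ) {k : ℕ} (hk : 1 ≤ k) (i : ℕ) :
    GG a g s (k + 1) i - GG a g s k i =
      ∑ l ∈ Finset.range i, ff s l * bb s (k + i - l) + a * ff s i * bb s k +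
        g * ff s (i + 1) * bb s (k - 1) - bb s (k + i + 1) := by
  rw [GG_eq a g s (by omega : 1 ≤ k + 1) i, GG_eq a g s hk i]
  have h1 : uu s (k + 1 + i + 1) = uu s (k + i + 1) - bb s (k + i + 1) := by
    have e : k + 1 + i + 1 = (k + i + 1) + 1 := by omega
    rw [e, uu_succ]
  have h2 : uu s (k + 1) = uu s k - bb s k := uu_succ s k
  have h3 : uu s (k + 1 - 1) = uu s (k - 1) - bb s (k - 1) := by
    have e : k + 1 - 1 = (k - 1) + 1 := by omega
    rw [e, uu_succ]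
  have h4 : ∑ l ∈ Finset.range i, ff s l * uu s (k + 1 + i - l) =
      ∑ l ∈ Finset.range i, ff s l * uu s (k + i - l) -
        ∑ l ∈ Finset.range i, ff s l * bb s (k + i - l) := by
    rw [← Finset.sum_sub_distrib]
    refine Finset.sum_congr rfl fun l hl => ?_
    rw [Finset.mem_range] at hl
    have e : k + 1 + i - l = (k + i - l) + 1 := by omega
    rw [e, uu_succ]
    ring
  rw [h1, h2, h3, h4]
  ring

theorem GG_diff_zero (a g s : ℝ) (i : ℕ) :
    GG a g s 1 i - GG a g s 0 i = (1 - g) * ff s (i + 1) - (1 - a) * s * ff s i := by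
  change (1 - a) * ff s i * uu s (0 + 1) + (1 - g) * ff s (i + 1) - (1 - a) * ff s i = _
  rw [uu_succ, uu_zero, bb_zero]
  ring

private theorem bb_pow {s : ℝ} (hs : 0 < s) (n j : ℕ) :
    bb s (n + j) / (4 * s) ^ j ≤ bb s n := by
  have hR : 0 < 4 * s := by linarith
  rw [div_le_iff₀ (pow_pos hR j)]
  induction j with
  | zero => simp
  | succ j ih =>
    have h1 := bb_succ_le hs (n + j)
    calc bb s (n + (j + 1)) = bb s (n + j + 1) := rfl
      _ ≤ 4 * s * bb s (n + j) := h1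
      _ ≤ 4 * s * (bb s n * (4 * s) ^ j) := by gcongr
      _ = bb s n * (4 * s) ^ (j + 1) := by rw [pow_succ]; ring

/-- Monotonicity for `i ≥ 2`. -/
theorem GG_mono {a g s : ℝ} (ha : 0 ≤ a) (hg : 0 ≤ g) (hs : 0 < s) (h4 : 4 * s < 1)
    (h2 : 1 ≤ ff s 0 / (4 * s) + ff s 1 / (4 * s) ^ 2 + a * ff s 2 / (4 * s) ^ 3 +
      g * ff s 3 / (4 * s) ^ 4)
    (h3 : 1 ≤ ff s 0 / (4 * s) + ff s 1 / (4 * s) ^ 2 + ff s 2 / (4 * s) ^ 3)
    {k i : ℕ} (hk : 1 ≤ k) (hi : 2 ≤ i) : GG a g s k i ≤ GG a g s (k + 1) i := by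
  have hd := GG_diff a g s hk i
  have hf : ∀ l, 0 ≤ ff s l := fun l => (ff_pos hs h4 l).le
  have hb : ∀ l, 0 ≤ bb s l := fun l => (bb_pos hs l).le
  rcases Nat.lt_or_ge i 3 with h | h
  · obtain rfl : i = 2 := by omega
    obtain ⟨d, rfl⟩ : ∃ d, k = d + 1 := ⟨k - 1, by omega⟩
    have hS : ∑ l ∈ Finset.range 2, ff s l * bb s (d + 1 + 2 - l) =
        ff s 0 * bb s (d + 3) + ff s 1 * bb s (d + 2) := by
      rw [Finset.sum_range_succ, Finset.sum_range_one]
      rfl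
    rw [hS] at hd
    have b1 := bb_pow hs (d + 3) 1
    have b2 := bb_pow hs (d + 2) 2
    have b3 := bb_pow hs (d + 1) 3
    have b4 := bb_pow hs d 4
    have e0 : d + 1 + 2 + 1 = d + 4 := rfl
    have e1 : d + 3 + 1 = d + 4 := rfl
    have e2 : d + 2 + 2 = d + 4 := rfl
    have e3 : d + 1 + 3 = d + 4 := by omega
    have e4 : d + 1 - 1 = d := by omega
    rw [e1, pow_one] at b1
    rw [e2] at b2
    rw [e3] at b3
    rw [e0, e4] at hd
    have m1 := mul_le_mul_of_nonneg_left b1 (hf 0)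
    have m2 := mul_le_mul_of_nonneg_left b2 (hf 1)
    have m3 := mul_le_mul_of_nonneg_left b3 (mul_nonneg ha (hf 2))
    have m4 := mul_le_mul_of_nonneg_left b4 (mul_nonneg hg (hf 3))
    have m0 := mul_le_mul_of_nonneg_right h2 (hb (d + 4))
    have key : (ff s 0 / (4 * s) + ff s 1 / (4 * s) ^ 2 + a * ff s 2 / (4 * s) ^ 3 +
        g * ff s 3 / (4 * s) ^ 4) * bb s (d + 4) = ff s 0 * (bb s (d + 4) / (4 * s)) +
        ff s 1 * (bb s (d + 4) / (4 * s) ^ 2) + a * ff s 2 * (bb s (d + 4) / (4 * s) ^ 3) +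
        g * ff s 3 * (bb s (d + 4) / (4 * s) ^ 4) := by ring
    rw [key, one_mul] at m0
    have e5 : (2 : ℕ) + 1 = 3 := rfl
    rw [e5] at hd
    linarith
  · obtain ⟨j, rfl⟩ : ∃ j, i = j + 3 := ⟨i - 3, by omega⟩
    have hS : ff s 0 * bb s (k + j + 3) + ff s 1 * bb s (k + j + 2) + ff s 2 * bb s (k + j + 1) ≤
        ∑ l ∈ Finset.range (j + 3), ff s l * bb s (k + (j + 3) - l) := by
      have h5 : ∑ l ∈ Finset.range 3, ff s l * bb s (k + (j + 3) - l) ≤
          ∑ l ∈ Finset.range (j + 3), ff s l * bb s (k + (j + 3) - l) := by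
        refine Finset.sum_le_sum_of_subset_of_nonneg ?_ (fun l _ _ => mul_nonneg (hf l) (hb _))
        intro l hl
        rw [Finset.mem_range] at hl ⊢
        omega
      refine le_trans (le_of_eq ?_) h5
      rw [Finset.sum_range_succ, Finset.sum_range_succ, Finset.sum_range_one]
      have e1 : k + (j + 3) - 0 = k + j + 3 := by omega
      have e2 : k + (j + 3) - 1 = k + j + 2 := by omega
      have e3 : k + (j + 3) - 2 = k + j + 1 := by omega
      rw [e1, e2, e3]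
    have b1 := bb_pow hs (k + j + 3) 1
    have b2 := bb_pow hs (k + j + 2) 2
    have b3 := bb_pow hs (k + j + 1) 3
    have e1 : k + j + 3 + 1 = k + j + 4 := rfl
    have e2 : k + j + 2 + 2 = k + j + 4 := rfl
    have e3 : k + j + 1 + 3 = k + j + 4 := rfl
    have e0 : k + (j + 3) + 1 = k + j + 4 := by omega
    rw [e1, pow_one] at b1
    rw [e2] at b2
    rw [e3] at b3
    rw [e0] at hd
    have m1 := mul_le_mul_of_nonneg_left b1 (hf 0)
    have m2 := mul_le_mul_of_nonneg_left b2 (hf 1)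
    have m3 := mul_le_mul_of_nonneg_left b3 (hf 2)
    have m0 := mul_le_mul_of_nonneg_right h3 (hb (k + j + 4))
    have key : (ff s 0 / (4 * s) + ff s 1 / (4 * s) ^ 2 + ff s 2 / (4 * s) ^ 3) *
        bb s (k + j + 4) = ff s 0 * (bb s (k + j + 4) / (4 * s)) +
        ff s 1 * (bb s (k + j + 4) / (4 * s) ^ 2) +
        ff s 2 * (bb s (k + j + 4) / (4 * s) ^ 3) := by ring
    rw [key, one_mul] at m0
    have p1 : 0 ≤ a * ff s (j + 3) * bb s k := mul_nonneg (mul_nonneg ha (hf _)) (hb _)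
    have p2 : 0 ≤ g * ff s (j + 3 + 1) * bb s (k - 1) := mul_nonneg (mul_nonneg hg (hf _)) (hb _)
    linarith

/-- Monotonicity for `i = 1` under the analogous condition. -/
theorem GG_mono_one {a g s : ℝ} (ha : 0 ≤ a) (hg : 0 ≤ g) (hs : 0 < s) (h4 : 4 * s < 1)
    (h1 : 1 ≤ ff s 0 / (4 * s) + a * ff s 1 / (4 * s) ^ 2 + g * ff s 2 / (4 * s) ^ 3)
    {k : ℕ} (hk : 1 ≤ k) : GG a g s k 1 ≤ GG a g s (k + 1) 1 := by
  have hd := GG_diff a g s hk 1
  have hf : ∀ l, 0 ≤ ff s l := fun l => (ff_pos hs h4 l).le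
  have hb : ∀ l, 0 ≤ bb s l := fun l => (bb_pos hs l).le
  obtain ⟨d, rfl⟩ : ∃ d, k = d + 1 := ⟨k - 1, by omega⟩
  have hS : ∑ l ∈ Finset.range 1, ff s l * bb s (d + 1 + 1 - l) = ff s 0 * bb s (d + 2) := by
    rw [Finset.sum_range_one]
    rfl
  rw [hS] at hd
  have b1 := bb_pow hs (d + 2) 1
  have b2 := bb_pow hs (d + 1) 2
  have b3 := bb_pow hs d 3
  have e0 : d + 1 + 1 + 1 = d + 3 := rfl
  have e1 : d + 2 + 1 = d + 3 := rfl
  have e2 : d + 1 + 2 = d + 3 := by omega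
  have e4 : d + 1 - 1 = d := by omega
  rw [e1, pow_one] at b1
  rw [e2] at b2
  rw [e0, e4] at hd
  have m1 := mul_le_mul_of_nonneg_left b1 (hf 0)
  have m2 := mul_le_mul_of_nonneg_left b2 (mul_nonneg ha (hf 1))
  have m3 := mul_le_mul_of_nonneg_left b3 (mul_nonneg hg (hf 2))
  have m0 := mul_le_mul_of_nonneg_right h1 (hb (d + 3))
  have key : (ff s 0 / (4 * s) + a * ff s 1 / (4 * s) ^ 2 + g * ff s 2 / (4 * s) ^ 3) *
      bb s (d + 3) = ff s 0 * (bb s (d + 3) / (4 * s)) +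
      a * ff s 1 * (bb s (d + 3) / (4 * s) ^ 2) +
      g * ff s 2 * (bb s (d + 3) / (4 * s) ^ 3) := by ring
  rw [key, one_mul] at m0
  have e5 : (1 : ℕ) + 1 = 2 := rfl
  rw [e5] at hd
  linarith

end Pool.Agent.Helper96.PK
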