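import Pool.Agent.Helper96.PK.Cat1
import Pool.Agent.Helper96.PK.EvLin

set_option autoImplicit false

/-!
# PK-10: positivity of `Γ_n` on all words with a letter `true`

Let `t` be a terminal function with `0 ≤ Ev t (true :: zeros d) (q i)` for all `d, i`. Claim:
`0 ≤ Ev t w x` for all states `x` and all words `w` which contain `true`.
Note `Ev t (true :: w) (o i) = Ev t (true :: w) (q i)` and
`Ev t (true :: w) (c i) = (1 - al i) * Ev t (true :: w) (q i)`, `0 ≤ 1 - al i`.
Induction on the word `w`:
* `w = false :: w'` (then `true ∈ w'`): all states of `Ev t (false :: w')` are nonnegative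
  combinations of values of `Ev t w'`.
* `w = true :: w'`: by the note it suffices to treat `q i`. If `true ∈ w'` then
  `Ev t (true::w') (q i) = (1-a) f_i Ev t w' (c 0) + Ev t w' (o (i+1)) ≥ 0` by induction. Otherwise
  `w' = zeros w'.length` (`List.eq_replicate_iff`) and it is the hypothesis.
-/

namespace Pool.Agent.Helper96.PK

private theorem gp_al_le {a g : ℝ} (ha1 : a ≤ 1) (hg1 : g ≤ 1) (i : ℕ) : al a g i ≤ 1 := by
  match i with
  | 0 => exact ha1
  | 1 => exact hg1
  | _ + 2 => exact zero_le_one

theorem Ev_nonneg_of_true {a g : ℝ} {r : ℕ → ℝ} {t : St → ℝ} (ha0 : 0 ≤ a) (ha1 : a ≤ 1)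
    (hg0 : 0 ≤ g) (hg1 : g ≤ 1) (hr : Antitone r)
    (hT : ∀ d i : ℕ, 0 ≤ Ev a g r t (true :: zeros d) (St.q i)) (w : List Bool) (hw : true ∈ w)
    (x : St) : 0 ≤ Ev a g r t w x := by
  induction w generalizing x with
  | nil => simp at hw
  | cons b w ih =>
    have hf : ∀ i, 0 ≤ fr r i := fun i => sub_nonneg.2 (hr (Nat.le_succ i))
    have h1a : 0 ≤ 1 - a := sub_nonneg.2 ha1
    have h1g : 0 ≤ 1 - g := sub_nonneg.2 hg1
    cases b
    · have hw' : true ∈ w := by simpa using hw
      have h0 := ih hw'
      cases x with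
      | c i => exact add_nonneg (mul_nonneg (hf i) (h0 _)) (h0 _)
      | o i => exact add_nonneg (mul_nonneg (mul_nonneg h1g (hf i)) (h0 _)) (h0 _)
      | q i => exact add_nonneg (mul_nonneg (hf i) (h0 _)) (h0 _)
    · have hq : ∀ i, 0 ≤ Ev a g r t (true :: w) (St.q i) := by
        intro i
        by_cases hw' : true ∈ w
        · exact add_nonneg (mul_nonneg (mul_nonneg h1a (hf i)) (ih hw' _)) (ih hw' _)
        · have hz : w = zeros w.length := by
            rw [List.eq_replicate_iff]
            refine ⟨rfl, fun b hb => ?_⟩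
            cases b
            · rfl
            · exact absurd hb hw'
          rw [hz]
          exact hT _ i
      cases x with
      | c i => exact mul_nonneg (sub_nonneg.2 (gp_al_le ha1 hg1 i)) (hq i)
      | o i => exact hq i
      | q i => exact hq i

end Pool.Agent.Helper96.PK
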