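import Pool.Agent.Helper96.PK.Cat2
import Pool.Agent.Helper96.PK.EvLin

set_option autoImplicit false

/-!
# PK-08: `Γ_n` on the words `1 0^d`

Auxiliary sequences (private definitions): `ee : ℕ → ℕ → ℝ`, `ee 0 i = if i = 1 then 1 else 0`,
`ee (k+1) i = f_i * ee k 0 + ee k (i+1)`, and `eq : ℕ → ℕ → ℝ`, `eq 0 i = 0`,
`eq (k+1) i = f_i * ee k 0 + eq k (i+1)`. Then
* `ee 1 i = if i = 0 then 1 else 0`, `ee (k+2) i = pu s k i` (`pu s (k+1) i = f_i u_(k+1) + pu s k (i+1)`
  and `pu s k 0 = u_(k+1)`, `conv_f_u`), so `ee (k+1) 0 = u_k`; `eq 1 i = 0`, `eq (k+2) i = pu s k i`.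
* `Γ(0^d)(c i) = g b ee(d+3) i + B ee(d+2) i + e1 ee(d+1) i + e2 ee d i`: induction on `d`, for
  `d = 0` because `ee 3 i = f_i f_0 + f_(i+1)`, `ee 2 i = f_i` and
  `a f_i (b - x) + g f_(i+1) b = g b (f_i f_0 + f_(i+1)) + B f_i` (`B = (a - g f_0) b - a x`).
* the same for `q i` with `eq` in place of `ee`.
* `Γ(1 0^d)(q i) = (1-a) f_i Γ(0^d)(c 0) + Γ(0^d)(o (i+1))`, and for `d = d' + 1`
  `Γ(0^d)(o (i+1)) = (1-g) f_(i+1) Γ(0^d')(c 0) + Γ(0^d')(q (i+2))`; collect the coefficients: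
  `(1-a) f_i ee (k+1) 0 + (1-g) f_(i+1) ee k 0 + eq k (i+2) = GG k i` for every `k`
  (`ee 0 0 = 0`, `ee (k+1) 0 = u_k`).
-/

namespace Pool.Agent.Helper96.PK

theorem pu_zero (s : ℝ) (j : ℕ) : pu s 0 j = ff s j := by
  rw [pu, Finset.sum_range_one, Nat.add_zero, Nat.sub_zero, uu_zero, mul_one]

theorem pu_succ (s : ℝ) (k j : ℕ) : pu s (k + 1) j = ff s j * uu s (k + 1) + pu s k (j + 1) := by
  rw [pu, Finset.sum_range_succ', Nat.add_zero, Nat.sub_zero, add_comm, pu]
  congr 1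
  apply Finset.sum_congr rfl
  intro l _
  rw [Nat.add_sub_add_right, show j + (l + 1) = j + 1 + l by omega]

theorem pu_at_zero (s : ℝ) (k : ℕ) : pu s k 0 = uu s (k + 1) := by
  rw [← conv_f_u, pu]
  apply Finset.sum_congr rfl
  intro l _
  rw [Nat.zero_add]

/-- The coefficients from the closed states. -/
private def gamtE (s : ℝ) : ℕ → ℕ → ℝ
  | 0, i => if i = 1 then 1 else 0
  | k + 1, i => ff s i * gamtE s k 0 + gamtE s k (i + 1)

/-- The coefficients from the open states. -/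
private def gamtQ (s : ℝ) : ℕ → ℕ → ℝ
  | 0, _ => 0
  | k + 1, i => ff s i * gamtE s k 0 + gamtQ s k (i + 1)

private theorem gamtE_zero (s : ℝ) (i : ℕ) : gamtE s 0 i = if i = 1 then 1 else 0 := rfl

private theorem gamtE_succ (s : ℝ) (k i : ℕ) :
    gamtE s (k + 1) i = ff s i * gamtE s k 0 + gamtE s k (i + 1) := rfl

private theorem gamtQ_zero (s : ℝ) (i : ℕ) : gamtQ s 0 i = 0 := rfl

private theorem gamtQ_succ (s : ℝ) (k i : ℕ) :
    gamtQ s (k + 1) i = ff s i * gamtE s k 0 + gamtQ s k (i + 1) := rfl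

private theorem gamtE_one (s : ℝ) (i : ℕ) : gamtE s 1 i = if i = 0 then 1 else 0 := by
  rw [gamtE_succ, gamtE_zero, gamtE_zero]
  cases i <;> simp

private theorem gamtE_add_two (s : ℝ) (k i : ℕ) : gamtE s (k + 2) i = pu s k i := by
  induction k generalizing i with
  | zero =>
    rw [gamtE_succ, gamtE_one, gamtE_one, pu_zero]
    simp
  | succ k ih =>
    rw [gamtE_succ, ih, ih, pu_succ, pu_at_zero]

private theorem gamtQ_one (s : ℝ) (i : ℕ) : gamtQ s 1 i = 0 := by
  rw [gamtQ_succ, gamtQ_zero, gamtE_zero]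
  simp

private theorem gamtQ_add_two (s : ℝ) (k i : ℕ) : gamtQ s (k + 2) i = pu s k i := by
  induction k generalizing i with
  | zero =>
    rw [gamtQ_succ, gamtE_one, gamtQ_one, pu_zero]
    simp
  | succ k ih =>
    rw [gamtQ_succ, gamtE_add_two, ih, pu_succ, pu_at_zero]

private theorem gamtE_two (s : ℝ) (i : ℕ) : gamtE s 2 i = ff s i := by
  rw [gamtE_add_two s 0 i, pu_zero]

private theorem gamtE_three (s : ℝ) (i : ℕ) : gamtE s 3 i = ff s i * ff s 0 + ff s (i + 1) := by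
  rw [gamtE_succ, gamtE_two, gamtE_two]

private theorem gamtQ_two (s : ℝ) (i : ℕ) : gamtQ s 2 i = ff s i := by
  rw [gamtQ_add_two s 0 i, pu_zero]

private theorem gamtQ_three (s : ℝ) (i : ℕ) : gamtQ s 3 i = ff s i * ff s 0 + ff s (i + 1) := by
  rw [gamtQ_succ, gamtE_two, gamtQ_two]

/-- The combination of the coefficients is `GG`. -/
private theorem gamt_coef (a g s : ℝ) (k i : ℕ) :
    (1 - a) * ff s i * gamtE s (k + 1) 0 + (1 - g) * ff s (i + 1) * gamtE s k 0 +
      gamtQ s k (i + 2) = GG a g s k i := by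
  match k with
  | 0 =>
    rw [gamtE_one, gamtE_zero, gamtQ_zero]
    simp [GG]
  | 1 =>
    rw [gamtE_two, gamtE_one, gamtQ_one, GG, ff_zero, uu_succ s 0, uu_zero, bb_zero]
    simp
  | k + 2 =>
    rw [gamtE_add_two s (k + 1) 0, gamtE_add_two, gamtQ_add_two, pu_at_zero, pu_at_zero, GG]

/-- `Γ(0^d)` from the closed states. -/
private theorem gamt_c (a g s : ℝ) (n d i : ℕ) :
    Gam a g s n (zeros d) (St.c i) = g * bb s n * gamtE s (d + 3) i +
      Bn a g s n * gamtE s (d + 2) i + e1 a g s n * gamtE s (d + 1) i +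
      e2 a g s n * gamtE s d i := by
  induction d generalizing i with
  | zero =>
    have h : Gam a g s n (zeros 0) (St.c i) = Kf a g s n (St.c i) := rfl
    rw [h, gamtE_three, gamtE_two, gamtE_one, gamtE_zero, Kf, Bn]
    split_ifs <;> ring
  | succ d ih =>
    have h : Gam a g s n (zeros (d + 1)) (St.c i) =
        ff s i * Gam a g s n (zeros d) (St.c 0) + Gam a g s n (zeros d) (St.c (i + 1)) := rfl
    rw [h, ih, ih, gamtE_succ s (d + 3) i, gamtE_succ s (d + 2) i, gamtE_succ s (d + 1) i,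
      gamtE_succ s d i]
    ring

/-- `Γ(0^d)` from the open states. -/
private theorem gamt_q (a g s : ℝ) (n d i : ℕ) :
    Gam a g s n (zeros d) (St.q i) = g * bb s n * gamtQ s (d + 3) i +
      Bn a g s n * gamtQ s (d + 2) i + e1 a g s n * gamtQ s (d + 1) i +
      e2 a g s n * gamtQ s d i := by
  induction d generalizing i with
  | zero =>
    have h : Gam a g s n (zeros 0) (St.q i) = Kf a g s n (St.q i) := rfl
    rw [h, gamtQ_three, gamtQ_two, gamtQ_one, gamtQ_zero, Kf, Bn]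
    ring
  | succ d ih =>
    have h : Gam a g s n (zeros (d + 1)) (St.q i) =
        ff s i * Gam a g s n (zeros d) (St.c 0) + Gam a g s n (zeros d) (St.q (i + 1)) := rfl
    rw [h, gamt_c, ih, gamtQ_succ s (d + 3) i, gamtQ_succ s (d + 2) i, gamtQ_succ s (d + 1) i,
      gamtQ_succ s d i]
    ring

theorem Gam_true_zeros (a g s : ℝ) (n d i : ℕ) (hd : 1 ≤ d) :
    Gam a g s n (true :: zeros d) (St.q i) =
      g * bb s n * GG a g s (d + 2) i + Bn a g s n * GG a g s (d + 1) i +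
        e1 a g s n * GG a g s d i + e2 a g s n * GG a g s (d - 1) i := by
  obtain ⟨k, rfl⟩ : ∃ k, d = k + 1 := ⟨d - 1, by omega⟩
  have h : Gam a g s n (true :: zeros (k + 1)) (St.q i) =
      (1 - a) * ff s i * Gam a g s n (zeros (k + 1)) (St.c 0) +
        ((1 - g) * ff s (i + 1) * Gam a g s n (zeros k) (St.c 0) +
          Gam a g s n (zeros k) (St.q (i + 2))) := rfl
  rw [h, gamt_c, gamt_c, gamt_q, Nat.add_sub_cancel, ← gamt_coef a g s (k + 1 + 2) i,
    ← gamt_coef a g s (k + 1 + 1) i, ← gamt_coef a g s (k + 1) i, ← gamt_coef a g s k i]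
  have e1' : k + 1 + 3 = k + 4 := rfl
  have e2' : k + 1 + 2 + 1 = k + 4 := rfl
  have e3' : k + 1 + 2 = k + 3 := rfl
  have e4' : k + 1 + 1 + 1 = k + 3 := rfl
  have e5' : k + 1 + 1 = k + 2 := rfl
  simp only [e1', e2', e3', e4', e5']
  ring

theorem Gam_true (a g s : ℝ) (n i : ℕ) :
    Gam a g s n [true] (St.q i) =
      (1 - a) * ff s i * (a * ff s 0 * (bb s n - xx a g s n) + g * ff s 1 * bb s n + e1 a g s n) +
        ((a - g) * ff s (i + 1) * (bb s n - xx a g s n) + g * ff s (i + 2) * bb s n) := by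
  have h : Gam a g s n [true] (St.q i) =
      (1 - a) * ff s i * Kf a g s n (St.c 0) + Kf a g s n (St.o (i + 1)) := rfl
  rw [h, Kf, Kf, if_pos rfl, if_neg (by decide), add_zero, zero_add]

end Pool.Agent.Helper96.PK
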