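import Pool.Agent.Helper96.PK.Aid

set_option autoImplicit false

/-!
# PK-07: the identity for the terminal functions `K_n`

Notation `A_j = V(1^j)(c 0)`, `O_j(i) = V(1^j)(o i)`, `X_j(x) = V(01^j)(x) - V(11^j)(x)`; the claim is
`r_j X_0(x) - X_j(x) = ∑_{n<j} r_(j-1-n) K_n(x)`. For `j = 0` both sides are `0`. Let `j ≥ 1`.
Note `V(1^j)(q i) = V(1^j)(o i)` and `V(1^j)(c i) = (1 - al i) V(1^j)(o i)` for `j ≥ 1`
(first letter `true`), and `O_0(i) = r_i - g f_i`, `r_0 = 1`.
* `x = q i`: `X_j = a f_i A_j` (`j ≥ 1`), `X_0 = a f_i + g f_(i+1)`.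
* `x = o i`: `X_j = (a - g) f_i A_j`, `X_0 = (a - g) f_i + g f_(i+1)`.
* `x = c i`, `i ≥ 2`: as for `q i`.
* `x = c 1`: `X_j = (a + g - a g) f_1 A_j + g O_j(2)`, `X_0 = (a+g-ag) f_1 + g r_2 + g (1-g) f_2`,
  `O_j(2) = A_(j+2)/(1-a) - (1-a) (f_0 A_(j+1) + f_1 A_j)`.
* `x = c 0`: `X_j = (1 - (1-a)^2) f_0 A_j + (a - g) O_j(1)`, `X_0 = 1 - (1-a) A` with `A = A1 a g s`,
  `O_j(1) = A_(j+1)/(1-a) - (1-a) f_0 A_j` (from `A_(j+1) = (1-a) ((1-a) f_0 A_j + O_j(1))` and
  `O_(j+1)(1) = (1-a) f_1 A_j + O_j(2)`).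
Sums (`j ≥ 1`): `∑_{n<j} r_(j-1-n) b_n = r_j`, `∑ r_(j-1-n) b_(n+1) = r_(j+1) - s r_j`,
`∑ r_(j-1-n) x_n = A_j`, `∑ r_(j-1-n) x_(n+1) = A_(j+1) - x_0 r_j`,
`∑ r_(j-1-n) x_(n+2) = A_(j+2) - x_0 r_(j+1) - x_1 r_j` (`AA_eq` and `Finset.sum_range_succ'`),
`x_0 = (1-a) A`, `x_1 = (1-a)^2 f_0 x_0 + (1-a) (r_1 - a f_1 - g f_2) - s x_0`
(from `A_2 = r_1 x_0 + x_1` and `VV_ones_succ` for `j = 1`).
(All identities were checked with exact rational arithmetic for `i ≤ 4`, `j ≤ 6`.)
-/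

namespace Pool.Agent.Helper96.PK

private theorem kid_x1 (a g s : ℝ) (j : ℕ) :
    ∑ n ∈ Finset.range (j + 1), rr s (j - n) * xx a g s (n + 1) =
      VV a g (rr s) (ones (j + 2)) (St.c 0) - xx a g s 0 * rr s (j + 1) := by
  have h := AA_eq a g s (j + 1)
  rw [Finset.sum_range_succ'] at h
  simp only [Nat.add_sub_add_right, Nat.sub_zero] at h
  have h2 : VV a g (rr s) (ones (j + 2)) (St.c 0) =
      VV a g (rr s) (ones (j + 1 + 1)) (St.c 0) := rfl
  rw [h2, h]
  ring

private theorem kid_x2 (a g s : ℝ) (j : ℕ) :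
    ∑ n ∈ Finset.range (j + 1), rr s (j - n) * xx a g s (n + 2) =
      VV a g (rr s) (ones (j + 3)) (St.c 0) - xx a g s 0 * rr s (j + 2) -
        xx a g s 1 * rr s (j + 1) := by
  have h := AA_eq a g s (j + 2)
  rw [Finset.sum_range_succ', Finset.sum_range_succ'] at h
  have h2 : VV a g (rr s) (ones (j + 3)) (St.c 0) =
      VV a g (rr s) (ones (j + 2 + 1)) (St.c 0) := rfl
  rw [h2, h]
  have h3 : ∀ n, j + 2 - (n + 1 + 1) = j - n := fun n => by omega
  simp only [h3]
  have h4 : j + 2 - (0 + 1) = j + 1 := by omega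
  rw [h4]
  simp only [Nat.sub_zero, zero_add]
  have h5 : ∀ n, n + 1 + 1 = n + 2 := fun n => rfl
  simp only [h5]
  ring

private theorem kid_lin (a g s c1 c2 c3 c4 c5 : ℝ) (j : ℕ) (F : ℕ → ℝ)
    (hF : ∀ n, F n = c1 * bb s n + c2 * xx a g s n + c3 * bb s (n + 1) +
      c4 * xx a g s (n + 1) + c5 * xx a g s (n + 2)) :
    ∑ n ∈ Finset.range (j + 1), rr s (j - n) * F n =
      c1 * rr s (j + 1) + c2 * VV a g (rr s) (ones (j + 1)) (St.c 0) +
        c3 * (rr s (j + 2) - s * rr s (j + 1)) +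
        c4 * (VV a g (rr s) (ones (j + 2)) (St.c 0) - xx a g s 0 * rr s (j + 1)) +
        c5 * (VV a g (rr s) (ones (j + 3)) (St.c 0) - xx a g s 0 * rr s (j + 2) -
          xx a g s 1 * rr s (j + 1)) := by
  have e : ∑ n ∈ Finset.range (j + 1), rr s (j - n) * F n =
      c1 * ∑ n ∈ Finset.range (j + 1), rr s (j - n) * bb s n +
      c2 * ∑ n ∈ Finset.range (j + 1), rr s (j - n) * xx a g s n +
      c3 * ∑ n ∈ Finset.range (j + 1), rr s (j - n) * bb s (n + 1) +
      c4 * ∑ n ∈ Finset.range (j + 1), rr s (j - n) * xx a g s (n + 1) +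
      c5 * ∑ n ∈ Finset.range (j + 1), rr s (j - n) * xx a g s (n + 2) := by
    simp only [Finset.mul_sum, ← Finset.sum_add_distrib]
    refine Finset.sum_congr rfl fun n _ => ?_
    rw [hF]
    ring
  rw [e, conv_r_b, ← AA_eq, conv_r_b', kid_x1, kid_x2]

private theorem kid_fc (a g : ℝ) (r : ℕ → ℝ) (w : List Bool) (i : ℕ) :
    VV a g r (false :: w) (St.c i) =
      fr r i * VV a g r w (St.c 0) + VV a g r w (St.c (i + 1)) := rfl

private theorem kid_tc (a g : ℝ) (r : ℕ → ℝ) (w : List Bool) (i : ℕ) :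
    VV a g r (true :: w) (St.c i) = (1 - al a g i) *
      ((1 - a) * fr r i * VV a g r w (St.c 0) + VV a g r w (St.o (i + 1))) := rfl

private theorem kid_fo (a g : ℝ) (r : ℕ → ℝ) (w : List Bool) (i : ℕ) :
    VV a g r (false :: w) (St.o i) =
      (1 - g) * fr r i * VV a g r w (St.c 0) + VV a g r w (St.q (i + 1)) := rfl

private theorem kid_to (a g : ℝ) (r : ℕ → ℝ) (w : List Bool) (i : ℕ) :
    VV a g r (true :: w) (St.o i) =
      (1 - a) * fr r i * VV a g r w (St.c 0) + VV a g r w (St.o (i + 1)) := rfl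

private theorem kid_fq (a g : ℝ) (r : ℕ → ℝ) (w : List Bool) (i : ℕ) :
    VV a g r (false :: w) (St.q i) =
      fr r i * VV a g r w (St.c 0) + VV a g r w (St.q (i + 1)) := rfl

private theorem kid_tq (a g : ℝ) (r : ℕ → ℝ) (w : List Bool) (i : ℕ) :
    VV a g r (true :: w) (St.q i) =
      (1 - a) * fr r i * VV a g r w (St.c 0) + VV a g r w (St.o (i + 1)) := rfl

private theorem kid_nc (a g : ℝ) (r : ℕ → ℝ) (i : ℕ) : VV a g r [] (St.c i) = r i := rfl

private theorem kid_no (a g : ℝ) (r : ℕ → ℝ) (i : ℕ) :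
    VV a g r [] (St.o i) = r i - g * fr r i := rfl

private theorem kid_nq (a g : ℝ) (r : ℕ → ℝ) (i : ℕ) : VV a g r [] (St.q i) = r i := rfl

private theorem kid_ones (j : ℕ) : ones (j + 1) = true :: ones j := rfl

/-- `V(1^j)(q i) = V(1^j)(o i)` for `j ≥ 1`. -/
private theorem kid_qo (a g : ℝ) (r : ℕ → ℝ) (j i : ℕ) :
    VV a g r (ones (j + 1)) (St.q i) = VV a g r (ones (j + 1)) (St.o i) := by
  rw [kid_ones, kid_tq, kid_to]

/-- `V(1^j)(c i) = (1 - al i) V(1^j)(o i)` for `j ≥ 1`. -/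
private theorem kid_co (a g : ℝ) (r : ℕ → ℝ) (j i : ℕ) :
    VV a g r (ones (j + 1)) (St.c i) = (1 - al a g i) * VV a g r (ones (j + 1)) (St.o i) := by
  rw [kid_ones, kid_tc, kid_to]

theorem K_identity {a g s : ℝ} (ha : a ≠ 1) (j : ℕ) (x : St) :
    rr s j * (VV a g (rr s) [false] x - VV a g (rr s) [true] x) -
      (VV a g (rr s) (false :: ones j) x - VV a g (rr s) (true :: ones j) x) =
      ∑ n ∈ Finset.range j, rr s (j - 1 - n) * Kf a g s n x := by
  have ha' : 1 - a ≠ 0 := sub_ne_zero.2 (Ne.symm ha)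
  rcases j with _ | j
  · rw [rr_zero, Finset.range_zero, Finset.sum_empty]
    have h0 : ones 0 = [] := rfl
    rw [h0]
    ring
  have hj : ∀ n, j + 1 - 1 - n = j - n := fun n => by omega
  simp only [hj]
  have hr0 : rr s 0 = 1 := rr_zero s
  have hr1 : rr s 1 = s := rr_one s
  have hff : ∀ i, fr (rr s) i = ff s i := fun i => rfl
  have hf : ∀ i, ff s i = rr s i - rr s (i + 1) := fun i => rfl
  set Aj := VV a g (rr s) (ones (j + 1)) (St.c 0) with hAj
  -- the recursions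
  have hA2 : VV a g (rr s) (ones (j + 2)) (St.c 0) = (1 - a) * ((1 - a) * ff s 0 * Aj +
      VV a g (rr s) (ones (j + 1)) (St.o 1)) := by
    rw [show ones (j + 2) = true :: ones (j + 1) from rfl, kid_tc]
    rfl
  have hO1 : VV a g (rr s) (ones (j + 2)) (St.o 1) = (1 - a) * ff s 1 * Aj +
      VV a g (rr s) (ones (j + 1)) (St.o 2) := by
    rw [show ones (j + 2) = true :: ones (j + 1) from rfl, kid_to]
    rfl
  have hA3 : VV a g (rr s) (ones (j + 3)) (St.c 0) = (1 - a) * ((1 - a) * ff s 0 *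
      VV a g (rr s) (ones (j + 2)) (St.c 0) + VV a g (rr s) (ones (j + 2)) (St.o 1)) := by
    rw [show ones (j + 3) = true :: ones (j + 2) from rfl, kid_tc]
    rfl
  have hx0 : xx a g s 0 = (1 - a) * A1 a g s := xx_zero a g s
  have hx1 : xx a g s 1 = (1 - a) ^ 2 * ff s 0 * xx a g s 0 +
      (1 - a) * (rr s 1 - a * ff s 1 - g * ff s 2) - s * xx a g s 0 := by
    have h1 := AA_eq a g s 1
    have h2 := AA_eq a g s 0
    have h3 := VV_ones_succ a g (rr_zero s) 1
    rw [Finset.sum_range_succ, Finset.sum_range_succ, Finset.sum_range_zero] at h1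
    rw [Finset.sum_range_succ, Finset.sum_range_zero] at h2
    rw [Finset.sum_range_succ, Finset.sum_range_zero] at h3
    simp only [Nat.sub_zero, Nat.sub_self, zero_add, hr0, hr1, one_mul] at h1 h2 h3
    rw [h2] at h3
    simp only [hff] at h3
    have h4 : VV a g (rr s) (ones (1 + 1)) (St.c 0) = s * xx a g s 0 + xx a g s 1 := h1
    have h5 : s * xx a g s 0 + xx a g s 1 = (1 - a) ^ 2 * (ff s 0 * xx a g s 0) +
        (1 - a) * (s - a * ff s 1 - g * ff s 2) := by
      rw [← h4]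
      exact h3
    rw [hr1]
    linarith
  cases x with
  | q i =>
    rw [kid_fq, kid_tq, kid_fq, kid_tq, kid_qo, kid_nc, kid_nq, kid_no, hr0]
    rw [kid_lin a g s (a * ff s i + g * ff s (i + 1)) (-(a * ff s i)) 0 0 0 j
      (fun n => Kf a g s n (St.q i)) (fun n => by simp only [Kf]; ring)]
    simp only [hff]
    rw [← hAj]
    ring
  | o i =>
    rw [kid_fo, kid_to, kid_fo, kid_to, kid_qo, kid_nc, kid_nq, kid_no, hr0]
    rw [kid_lin a g s ((a - g) * ff s i + g * ff s (i + 1)) (-((a - g) * ff s i)) 0 0 0 j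
      (fun n => Kf a g s n (St.o i)) (fun n => by simp only [Kf]; ring)]
    simp only [hff]
    rw [← hAj]
    ring
  | c i =>
    rw [kid_fc, kid_tc, kid_fc, kid_tc, kid_nc, kid_nc, kid_no, kid_co a g (rr s) j (i + 1),
      ← hAj, hr0]
    simp only [hff]
    rcases i with _ | _ | i
    · -- `x = c 0`
      rw [kid_lin a g s (a * ff s 0 + g * ff s 1 + g * A1 a g s)
        (-(a * ff s 0) - g * (1 - a) * ff s 0) 0 (-((a - g) / (1 - a))) 0 j
        (fun n => Kf a g s n (St.c 0)) (fun n => by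
          simp only [Kf, e1, if_true]
          norm_num
          ring)]
      rw [hA2, hx0, ← hAj]
      have hal0 : al a g 0 = a := rfl
      have hal1 : al a g (0 + 1) = g := rfl
      rw [hal0, hal1]
      simp only [zero_add]
      unfold A1
      have h1 : rr s 1 = 1 - ff s 0 := by rw [hf, hr0]; ring
      rw [h1]
      field_simp
      ring
    · -- `x = c 1`
      rw [kid_lin a g s (a * ff s 1 + g * ff s 2)
        (-(a * ff s 1)) (-(g * A1 a g s)) (g * ((1 - a) * ff s 0)) (-(g / (1 - a))) j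
        (fun n => Kf a g s n (St.c (0 + 1))) (fun n => by
          simp only [Kf, e2]
          norm_num
          ring)]
      rw [hA3, hO1, hA2, hx1, hx0, ← hAj]
      have hal1 : al a g (0 + 1) = g := rfl
      have hal2 : al a g (0 + 1 + 1) = 0 := rfl
      rw [hal1, hal2]
      simp only [zero_add]
      have h2 : rr s 2 = rr s 1 - ff s 1 := by rw [hf]; ring
      have h1 : rr s 1 = 1 - ff s 0 := by rw [hf, hr0]; ring
      have h3 : s = 1 - ff s 0 := by linarith [h1, hr1]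
      have e12 : (1 + 1 : ℕ) = 2 := rfl
      rw [e12, h2, h1]
      unfold A1
      field_simp
      generalize rr s (j + 1) = R1
      generalize rr s (j + 2) = R2
      generalize VV a g (rr s) (ones (j + 1)) (St.o 2) = O2
      generalize VV a g (rr s) (ones (j + 1)) (St.o 1) = O1
      generalize ff s 2 = f2 at *
      generalize ff s 1 = f1 at *
      generalize ff s 0 = f0 at *
      rw [h3]
      ring
    · -- `x = c (i + 2)`
      rw [kid_lin a g s (a * ff s (i + 2) + g * ff s (i + 3)) (-(a * ff s (i + 2))) 0 0 0 j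
        (fun n => Kf a g s n (St.c (i + 1 + 1))) (fun n => by
          simp only [Kf]
          rw [if_neg (by omega), if_neg (by omega)]
          ring)]
      rw [← hAj]
      have hal2 : al a g (i + 1 + 1) = 0 := rfl
      have hal3 : al a g (i + 1 + 1 + 1) = 0 := rfl
      rw [hal2, hal3, hf (i + 1 + 1), hf (i + 1 + 1 + 1)]
      ring

end Pool.Agent.Helper96.PK
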