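import Pool.Agent.Helper96.PK.Xseq

set_option autoImplicit false

/-!
# PK-12: renewal recursion for `Λ_n` and `B_n`

With `m = (1-a)^2`: for a sequence `Y` the operator `Y_n - m ∑_{k<n} f_k Y_(n-1-k)` is computed
termwise (`n ≥ 1`):
* `Y = b`: `b_n - m (f_n + b_n)` (`conv_f_b` for `n - 1`);
* `Y = b_(·+1)`: `∑_{k<n} f_k b_(n-k) = ∑_{k<n+1} f_k b_(n-k) - f_n b_0 = f_(n+1) + b_(n+1) - s f_n`;
* `Y = x, x_(·+1), x_(·+2)`: `mul_conv_f_x`, `mul_conv_f_x'`, `mul_conv_f_x''`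
  (in the sum over `k < n` the index `n-1-k+1` is `n-k` and `n-1-k+2` is `n+1-k`).
`Lam_expand` is `ring` after unfolding (`field_simp` if `a ≠ 1` is needed: it is not, all divisions
are by the same `1 - a`).
-/

namespace Pool.Agent.Helper96.PK

/-- Coefficients of `Λ`. -/
noncomputable def c0 (a g s κ : ℝ) : ℝ :=
  (1 - 2 * κ) * g + (1 - κ) * (a - g * ff s 0) + g * A1 a g s
noncomputable def c1 (a g s κ : ℝ) : ℝ := (1 + κ) * g * A1 a g s
noncomputable def c2 (a g s κ : ℝ) : ℝ := (1 - κ) * a + g * (1 - a) * ff s 0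
noncomputable def c3 (a g s κ : ℝ) : ℝ :=
  (a - g) / (1 - a) - (1 + κ) * g * (1 - a) * ff s 0
noncomputable def c4 (a g _s κ : ℝ) : ℝ := (1 + κ) * g / (1 - a)

theorem Lam_expand (a g s κ : ℝ) (n : ℕ) :
    Lam a g s κ n = c0 a g s κ * bb s n - c1 a g s κ * bb s (n + 1) - c2 a g s κ * xx a g s n -
      c3 a g s κ * xx a g s (n + 1) - c4 a g s κ * xx a g s (n + 2) := by
  simp only [Lam, dl, e1, e2, Bn, c0, c1, c2, c3, c4]
  ring

/-- The source term of `B`. -/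
noncomputable def PsiB (a g s : ℝ) (n : ℕ) : ℝ :=
  (a - g * ff s 0) * (bb s n - (1 - a) ^ 2 * (ff s n + bb s n)) -
    a * ((1 - a) * ((a - g * ff s 0) * bb s n + g * bb s (n + 1)))

/-- The source term of `Λ`. -/
noncomputable def Psi (a g s κ : ℝ) (n : ℕ) : ℝ :=
  c0 a g s κ * (bb s n - (1 - a) ^ 2 * (ff s n + bb s n)) -
    c1 a g s κ * (bb s (n + 1) - (1 - a) ^ 2 * (ff s (n + 1) + bb s (n + 1) - s * ff s n)) -
    c2 a g s κ * ((1 - a) * ((a - g * ff s 0) * bb s n + g * bb s (n + 1))) -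
    c3 a g s κ * ((1 - a) * ((a - g * ff s 0) * bb s (n + 1) + g * bb s (n + 2)) +
      (1 - a) ^ 2 * ff s n * xx a g s 0) -
    c4 a g s κ * ((1 - a) * ((a - g * ff s 0) * bb s (n + 2) + g * bb s (n + 3)) +
      (1 - a) ^ 2 * (ff s (n + 1) * xx a g s 0 + ff s n * xx a g s 1))

private theorem conv_b0 (s : ℝ) {n : ℕ} (hn : 1 ≤ n) :
    ∑ k ∈ Finset.range n, ff s k * bb s (n - 1 - k) = ff s n + bb s n := by
  have h := conv_f_b s (n - 1)
  rwa [Nat.sub_add_cancel hn] at h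

private theorem conv_b1 (s : ℝ) (n : ℕ) :
    ∑ k ∈ Finset.range n, ff s k * bb s (n - k) = ff s (n + 1) + bb s (n + 1) - s * ff s n := by
  have h := conv_f_b s n
  rw [Finset.sum_range_succ, Nat.sub_self, bb_zero] at h
  linarith

private theorem idx1 {n k : ℕ} (hk : k ∈ Finset.range n) : n - 1 - k + 1 = n - k := by
  have := Finset.mem_range.1 hk
  omega

private theorem idx2 {n k : ℕ} (hk : k ∈ Finset.range n) : n - 1 - k + 2 = n + 1 - k := by
  have := Finset.mem_range.1 hk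
  omega

theorem Bn_rec (a g s : ℝ) {n : ℕ} (hn : 1 ≤ n) :
    Bn a g s n = (1 - a) ^ 2 * ∑ k ∈ Finset.range n, ff s k * Bn a g s (n - 1 - k) +
      PsiB a g s n := by
  have h1 := conv_b0 s hn
  have h2 := mul_conv_f_x a g s hn
  have h3 : ∑ k ∈ Finset.range n, ff s k * Bn a g s (n - 1 - k) =
      (a - g * ff s 0) * ∑ k ∈ Finset.range n, ff s k * bb s (n - 1 - k) -
        a * ∑ k ∈ Finset.range n, ff s k * xx a g s (n - 1 - k) := by
    rw [Finset.mul_sum, Finset.mul_sum, ← Finset.sum_sub_distrib]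
    refine Finset.sum_congr rfl fun k _ => ?_
    simp only [Bn]
    ring
  have h4 : (1 - a) ^ 2 * ∑ k ∈ Finset.range n, ff s k * Bn a g s (n - 1 - k) =
      (1 - a) ^ 2 * (a - g * ff s 0) * (ff s n + bb s n) -
        a * (xx a g s n - (1 - a) * ((a - g * ff s 0) * bb s n + g * bb s (n + 1))) := by
    rw [h3, h1, ← h2]
    ring
  rw [h4]
  simp only [Bn, PsiB]
  ring

theorem Lam_rec (a g s κ : ℝ) {n : ℕ} (hn : 1 ≤ n) :
    Lam a g s κ n = (1 - a) ^ 2 * ∑ k ∈ Finset.range n, ff s k * Lam a g s κ (n - 1 - k) +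
      Psi a g s κ n := by
  have h1 := conv_b0 s hn
  have h1' := conv_b1 s n
  have h2 := mul_conv_f_x a g s hn
  have h2' := mul_conv_f_x' a g s n
  have h2'' := mul_conv_f_x'' a g s n
  have h3 : ∑ k ∈ Finset.range n, ff s k * Lam a g s κ (n - 1 - k) =
      c0 a g s κ * ∑ k ∈ Finset.range n, ff s k * bb s (n - 1 - k) -
      c1 a g s κ * ∑ k ∈ Finset.range n, ff s k * bb s (n - k) -
      c2 a g s κ * ∑ k ∈ Finset.range n, ff s k * xx a g s (n - 1 - k) -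
      c3 a g s κ * ∑ k ∈ Finset.range n, ff s k * xx a g s (n - k) -
      c4 a g s κ * ∑ k ∈ Finset.range n, ff s k * xx a g s (n + 1 - k) := by
    rw [Finset.mul_sum, Finset.mul_sum, Finset.mul_sum, Finset.mul_sum, Finset.mul_sum,
      ← Finset.sum_sub_distrib, ← Finset.sum_sub_distrib, ← Finset.sum_sub_distrib,
      ← Finset.sum_sub_distrib]
    refine Finset.sum_congr rfl fun k hk => ?_
    rw [Lam_expand, idx1 hk, idx2 hk]
    ring
  have h4 : (1 - a) ^ 2 * ∑ k ∈ Finset.range n, ff s k * Lam a g s κ (n - 1 - k) =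
      c0 a g s κ * ((1 - a) ^ 2 * ∑ k ∈ Finset.range n, ff s k * bb s (n - 1 - k)) -
      c1 a g s κ * ((1 - a) ^ 2 * ∑ k ∈ Finset.range n, ff s k * bb s (n - k)) -
      c2 a g s κ * ((1 - a) ^ 2 * ∑ k ∈ Finset.range n, ff s k * xx a g s (n - 1 - k)) -
      c3 a g s κ * ((1 - a) ^ 2 * ∑ k ∈ Finset.range n, ff s k * xx a g s (n - k)) -
      c4 a g s κ * ((1 - a) ^ 2 * ∑ k ∈ Finset.range n, ff s k * xx a g s (n + 1 - k)) := by
    rw [h3]
    ring
  rw [h4, h1, h1', h2, h2', h2'', Lam_expand]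
  simp only [Psi]
  ring

theorem Bn_nonneg_of {a g s : ℝ} (hs : 0 < s) (h4 : 4 * s < 1) (n0 : ℕ) (h0 : 1 ≤ n0)
    (h1 : ∀ n < n0, 0 ≤ Bn a g s n) (h2 : ∀ n, n0 ≤ n → 0 ≤ PsiB a g s n) (n : ℕ) :
    0 ≤ Bn a g s n := by
  induction n using Nat.strong_induction_on with
  | _ n ih =>
    rcases lt_or_ge n n0 with h | h
    · exact h1 n h
    · rw [Bn_rec a g s (h0.trans h)]
      refine add_nonneg (mul_nonneg (sq_nonneg _) (Finset.sum_nonneg fun k hk => ?_)) (h2 n h)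
      refine mul_nonneg (ff_pos hs h4 k).le (ih _ ?_)
      have := Finset.mem_range.1 hk
      omega

theorem Lam_nonneg_of {a g s κ : ℝ} (hs : 0 < s) (h4 : 4 * s < 1) (n0 : ℕ) (h0 : 1 ≤ n0)
    (h1 : ∀ n < n0, 0 ≤ Lam a g s κ n) (h2 : ∀ n, n0 ≤ n → 0 ≤ Psi a g s κ n) (n : ℕ) :
    0 ≤ Lam a g s κ n := by
  induction n using Nat.strong_induction_on with
  | _ n ih =>
    rcases lt_or_ge n n0 with h | h
    · exact h1 n h
    · rw [Lam_rec a g s κ (h0.trans h)]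
      refine add_nonneg (mul_nonneg (sq_nonneg _) (Finset.sum_nonneg fun k hk => ?_)) (h2 n h)
      refine mul_nonneg (ff_pos hs h4 k).le (ih _ ?_)
      have := Finset.mem_range.1 hk
      omega

/-- `e2_n ≤ 0` follows from `B ≥ 0`. -/
theorem e2_nonpos_of {a g s : ℝ} (ha0 : 0 < a) (ha1 : a < 1) (hg : 0 ≤ g) (hga : g ≤ a) (hs : 0 < s)
    (h4 : 4 * s < 1) (hB : ∀ n, 0 ≤ Bn a g s n) (hA : (1 - a) * ff s 0 ≤ A1 a g s) (n : ℕ) :
    e2 a g s n ≤ 0 := by
  have hf := ff_pos hs h4 0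
  have hb := bb_pos hs (n + 1)
  have hx2 := xx_nonneg ha0.le ha1.le hg hga hs h4 (n + 2)
  have hB1 := hB (n + 1)
  simp only [Bn] at hB1
  have h1a : 0 < 1 - a := by linarith
  have hxb : xx a g s (n + 1) ≤ bb s (n + 1) := by
    have h5 : 0 ≤ g * ff s 0 * bb s (n + 1) := mul_nonneg (mul_nonneg hg hf.le) hb.le
    have h6 : a * xx a g s (n + 1) ≤ a * bb s (n + 1) := by nlinarith
    exact le_of_mul_le_mul_left h6 ha0
  have h7 : (1 - a) * ff s 0 * xx a g s (n + 1) ≤ (1 - a) * ff s 0 * bb s (n + 1) :=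
    mul_le_mul_of_nonneg_left hxb (mul_nonneg h1a.le hf.le)
  have h8 : (1 - a) * ff s 0 * bb s (n + 1) ≤ A1 a g s * bb s (n + 1) :=
    mul_le_mul_of_nonneg_right hA hb.le
  have h9 : 0 ≤ xx a g s (n + 2) / (1 - a) := div_nonneg hx2 h1a.le
  have h10 : 0 ≤ xx a g s (n + 2) / (1 - a) + A1 a g s * bb s (n + 1) -
      (1 - a) * ff s 0 * xx a g s (n + 1) := by linarith
  simp only [e2]
  have h11 := mul_nonneg hg h10
  linarith

end Pool.Agent.Helper96.PK
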