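import Pool.Agent.Helper96.PK.Stat

set_option autoImplicit false

/-!
# PK-22: `L(1^j) → 0`

`s = ρ (1-ρ)`, `R = 4 s < 1`, `r_n ≤ R^n`.
* `AA_le`: `V(1^j)(c 0) ≤ r_j`: for `j = 0` equality; for `j + 1`: `AA_eq` and `x_n ≤ b_n`
  (`a x_n ≤ (a - g f_0) b_n ≤ a b_n` by `Good.B`), and `conv_r_b`.
* `V(1^j)(o i) ≤ j R^(i+j-1) + R^(i+j)`-type bound from `VV_ones_o`:
  `∑_{m<j} f_(i+m) r_(j-1-m) ≤ ∑_{m<j} R^(i+m) R^(j-1-m) = j R^(i+j-1)`.
  So `V(1^(j+1))(c i) ≤ f_i AA_j + V(1^j)(o (i+1)) ≤ (j + 2) R^(i+j)` and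
  `L(1^(j+1)) ≤ ρ (j+2) R^j ∑_i R^i → 0` (`tendsto_self_mul_const_pow_of_lt_one`...), or use dominated
  convergence `tendsto_tsum_of_dominated_convergence` with the bound `V ≤ r_i` (`VV_le`).
-/

namespace Pool.Agent.Helper96.PK

open Filter Topology

private theorem xx_le_bb {a g ρ κ : ℝ} (h : Good a g ρ κ) (n : ℕ) :
    xx a g (ρ * (1 - ρ)) n ≤ bb (ρ * (1 - ρ)) n := by
  have hs := s_pos h.ρ0 h.ρ1
  have h4 := four_s_lt h.ρ0
  have hB := h.B n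
  unfold Bn at hB
  have h1 : 0 ≤ g * ff (ρ * (1 - ρ)) 0 * bb (ρ * (1 - ρ)) n :=
    mul_nonneg (mul_nonneg h.g0 (ff_pos hs h4 0).le) (bb_pos hs n).le
  have h2 : a * xx a g (ρ * (1 - ρ)) n ≤ a * bb (ρ * (1 - ρ)) n := by nlinarith
  exact le_of_mul_le_mul_left h2 h.a0

theorem AA_le {a g ρ κ : ℝ} (h : Good a g ρ κ) (j : ℕ) :
    VV a g (rr (ρ * (1 - ρ))) (ones j) (St.c 0) ≤ rr (ρ * (1 - ρ)) j := by
  have hs := s_pos h.ρ0 h.ρ1
  cases j with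
  | zero => exact le_refl _
  | succ j =>
    rw [AA_eq, ← conv_r_b]
    refine Finset.sum_le_sum fun n _ => ?_
    exact mul_le_mul_of_nonneg_left (xx_le_bb h n) (rr_pos hs _).le

private theorem conv_le {s : ℝ} (hs : 0 < s) (h4 : 4 * s < 1) (j i : ℕ) :
    ∑ m ∈ Finset.range (j + 1), ff s (i + m) * rr s (j - m) ≤ rr s (j + 1) / s := by
  rw [le_div_iff₀ hs, ← rr_conv, mul_comm]
  refine mul_le_mul_of_nonneg_left (Finset.sum_le_sum fun m _ => ?_) hs.le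
  refine mul_le_mul_of_nonneg_right ?_ (rr_pos hs _).le
  have h1 : ff s (i + m) ≤ rr s (i + m) := by
    have := (rr_pos hs (i + m + 1)).le
    unfold ff fr
    linarith
  exact h1.trans (rr_antitone hs h4 (Nat.le_add_left m i))

private theorem ones_o_le {a g ρ κ : ℝ} (h : Good a g ρ κ) (j i : ℕ) :
    VV a g (rr (ρ * (1 - ρ))) (ones (j + 1)) (St.o i) ≤
      rr (ρ * (1 - ρ)) (j + 1) / (ρ * (1 - ρ)) + rr (ρ * (1 - ρ)) (j + 1) := by
  have hs := s_pos h.ρ0 h.ρ1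
  have h4 := four_s_lt h.ρ0
  rw [VV_ones_o]
  have h1 : ∑ m ∈ Finset.range (j + 1), fr (rr (ρ * (1 - ρ))) (i + m) *
      VV a g (rr (ρ * (1 - ρ))) (ones (j + 1 - 1 - m)) (St.c 0) ≤
      rr (ρ * (1 - ρ)) (j + 1) / (ρ * (1 - ρ)) := by
    refine le_trans (Finset.sum_le_sum fun m _ => ?_) (conv_le hs h4 j i)
    rw [Nat.add_sub_cancel]
    exact mul_le_mul_of_nonneg_left (AA_le h _) (ff_pos hs h4 _).le
  have h0 : 0 ≤ ∑ m ∈ Finset.range (j + 1), fr (rr (ρ * (1 - ρ))) (i + m) *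
      VV a g (rr (ρ * (1 - ρ))) (ones (j + 1 - 1 - m)) (St.c 0) := by
    refine Finset.sum_nonneg fun m _ => mul_nonneg (ff_pos hs h4 _).le ?_
    exact VV_nonneg h.a0.le h.a1.le h.g0 (h.ga.trans h.a1.le) (rr_antitone hs h4)
      (fun n => (rr_pos hs n).le) _ _
  have h2 : (1 - a) * ∑ m ∈ Finset.range (j + 1), fr (rr (ρ * (1 - ρ))) (i + m) *
      VV a g (rr (ρ * (1 - ρ))) (ones (j + 1 - 1 - m)) (St.c 0) ≤
      ∑ m ∈ Finset.range (j + 1), fr (rr (ρ * (1 - ρ))) (i + m) *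
      VV a g (rr (ρ * (1 - ρ))) (ones (j + 1 - 1 - m)) (St.c 0) := by
    have := mul_nonneg h.a0.le h0
    linarith
  have h3 : 0 ≤ g * fr (rr (ρ * (1 - ρ))) (i + (j + 1)) :=
    mul_nonneg h.g0 (ff_pos hs h4 _).le
  have h5 : rr (ρ * (1 - ρ)) (i + (j + 1)) ≤ rr (ρ * (1 - ρ)) (j + 1) :=
    rr_antitone hs h4 (Nat.le_add_left _ _)
  linarith

private theorem ones_c_le {a g ρ κ : ℝ} (h : Good a g ρ κ) (j i : ℕ) :
    VV a g (rr (ρ * (1 - ρ))) (ones (j + 2)) (St.c i) ≤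
      (2 + 1 / (ρ * (1 - ρ))) * rr (ρ * (1 - ρ)) (j + 1) := by
  have hs := s_pos h.ρ0 h.ρ1
  have h4 := four_s_lt h.ρ0
  have hg1 : g ≤ 1 := h.ga.trans h.a1.le
  have hn : ∀ (w : List Bool) (x : St), 0 ≤ VV a g (rr (ρ * (1 - ρ))) w x := fun w x =>
    VV_nonneg h.a0.le h.a1.le h.g0 hg1 (rr_antitone hs h4) (fun n => (rr_pos hs n).le) w x
  have e1 : VV a g (rr (ρ * (1 - ρ))) (ones (j + 2)) (St.c i) = (1 - al a g i) *
      ((1 - a) * fr (rr (ρ * (1 - ρ))) i * VV a g (rr (ρ * (1 - ρ))) (ones (j + 1)) (St.c 0) +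
        VV a g (rr (ρ * (1 - ρ))) (ones (j + 1)) (St.o (i + 1))) := by
    have e0 : ones (j + 2) = true :: ones (j + 1) := List.replicate_succ
    rw [e0]
    rfl
  have hal : 0 ≤ al a g i := by
    match i with
    | 0 => exact h.a0.le
    | 1 => exact h.g0
    | (i + 2) => exact le_refl _
  have hf0 : 0 ≤ fr (rr (ρ * (1 - ρ))) i := (ff_pos hs h4 i).le
  have hf1 : fr (rr (ρ * (1 - ρ))) i ≤ 1 := by
    have h1 := rr_le_one hs h4 i
    have h2 := (rr_pos hs (i + 1)).le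
    unfold fr
    linarith
  have hA0 := hn (ones (j + 1)) (St.c 0)
  have hA1 := AA_le h (j + 1)
  have hO0 := hn (ones (j + 1)) (St.o (i + 1))
  have hO1 := ones_o_le h j (i + 1)
  have h6 : (1 - a) * fr (rr (ρ * (1 - ρ))) i *
      VV a g (rr (ρ * (1 - ρ))) (ones (j + 1)) (St.c 0) ≤ rr (ρ * (1 - ρ)) (j + 1) := by
    have h7 : (1 - a) * fr (rr (ρ * (1 - ρ))) i ≤ 1 := by
      have := mul_nonneg h.a0.le hf0
      nlinarith
    have h8 : 0 ≤ (1 - a) * fr (rr (ρ * (1 - ρ))) i := mul_nonneg (by linarith [h.a1]) hf0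
    calc (1 - a) * fr (rr (ρ * (1 - ρ))) i *
        VV a g (rr (ρ * (1 - ρ))) (ones (j + 1)) (St.c 0)
        ≤ 1 * VV a g (rr (ρ * (1 - ρ))) (ones (j + 1)) (St.c 0) :=
          mul_le_mul_of_nonneg_right h7 hA0
      _ ≤ _ := by rw [one_mul]; exact hA1
  have h9 : 0 ≤ (1 - a) * fr (rr (ρ * (1 - ρ))) i *
      VV a g (rr (ρ * (1 - ρ))) (ones (j + 1)) (St.c 0) :=
    mul_nonneg (mul_nonneg (by linarith [h.a1]) hf0) hA0
  rw [e1]
  have h10 : (1 - al a g i) *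
      ((1 - a) * fr (rr (ρ * (1 - ρ))) i * VV a g (rr (ρ * (1 - ρ))) (ones (j + 1)) (St.c 0) +
        VV a g (rr (ρ * (1 - ρ))) (ones (j + 1)) (St.o (i + 1))) ≤
      (1 - a) * fr (rr (ρ * (1 - ρ))) i * VV a g (rr (ρ * (1 - ρ))) (ones (j + 1)) (St.c 0) +
        VV a g (rr (ρ * (1 - ρ))) (ones (j + 1)) (St.o (i + 1)) := by
    have := mul_nonneg hal (add_nonneg h9 hO0)
    linarith
  have h11 : (2 + 1 / (ρ * (1 - ρ))) * rr (ρ * (1 - ρ)) (j + 1) =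
      rr (ρ * (1 - ρ)) (j + 1) + (rr (ρ * (1 - ρ)) (j + 1) / (ρ * (1 - ρ)) +
        rr (ρ * (1 - ρ)) (j + 1)) := by
    ring
  rw [h11]
  linarith

theorem tendsto_LL_ones {a g ρ κ : ℝ} (h : Good a g ρ κ) :
    Tendsto (fun j => LL a g (rr (ρ * (1 - ρ))) ρ (ones j)) atTop (𝓝 0) := by
  have hs := s_pos h.ρ0 h.ρ1
  have h4 := four_s_lt h.ρ0
  have hg1 : g ≤ 1 := h.ga.trans h.a1.le
  have hn : ∀ (w : List Bool) (x : St), 0 ≤ VV a g (rr (ρ * (1 - ρ))) w x := fun w x =>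
    VV_nonneg h.a0.le h.a1.le h.g0 hg1 (rr_antitone hs h4) (fun n => (rr_pos hs n).le) w x
  have h1 : Tendsto (fun j => ∑' i, VV a g (rr (ρ * (1 - ρ))) (ones j) (St.c i)) atTop
      (𝓝 (∑' _ : ℕ, (0 : ℝ))) := by
    refine tendsto_tsum_of_dominated_convergence (bound := rr (ρ * (1 - ρ)))
      (summable_rr h.ρ0 h.ρ1) (fun i => ?_) (Eventually.of_forall fun j i => ?_)
    · rw [← tendsto_add_atTop_iff_nat 2]
      have h2 : Tendsto (fun j => (2 + 1 / (ρ * (1 - ρ))) * rr (ρ * (1 - ρ)) (j + 1)) atTop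
          (𝓝 0) := by
        have h3 := ((tendsto_rr h.ρ0 h.ρ1).comp (tendsto_add_atTop_nat 1)).const_mul
          (2 + 1 / (ρ * (1 - ρ)))
        rw [mul_zero] at h3
        exact h3
      exact squeeze_zero (fun j => hn _ _) (fun j => ones_c_le h j i) h2
    · rw [Real.norm_of_nonneg (hn _ _)]
      exact VV_le h.a0.le h.a1.le h.g0 hg1 (rr_antitone hs h4) (rr_zero _)
        (fun n => (rr_pos hs n).le) _ _
  rw [tsum_zero] at h1
  have h5 := h1.const_mul ρ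
  rw [mul_zero] at h5
  exact h5

end Pool.Agent.Helper96.PK
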