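import Pool.Agent.Helper96.PK.LamRec

set_option autoImplicit false

/-!
# PK-13: the `N`-family for `a = 127/200, g = 147/1000, ρ = 63/100, κ = 9/1000` (`s = 2331/10000`)

* Values: `ff s 0 = 1 - s`, `ff s 1 = s - 2 s^2`, `bb s 0 = s, bb s 1 = s^2, bb s 2 = 2 s^3,
  bb s 3 = 5 s^4, bb s 4 = 14 s^5` (`bb_succ_mul`), `xx 0 = (1-a) A1`, `xx 1, xx 2, xx 3` from `xx_eq`.
* `Bn 0 ≥ 0`, `Lam 0 ≥ 0`, `Lam 1 ≥ 0` are numerical (`Bn_0/b_0 = .0303`, `Lam_0/b_0 = .0101`,
  `Lam_1/b_1 = .0036`): `norm_num`.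
* `PsiB n ≥ 0` for `n ≥ 1`: with `s f_n = b_n - b_(n+1)` (`s_mul_ff`) it is
  `b_n (a - g f_0) [(1 - m) - m/s - a (1-a)] + b_(n+1) [(a - g f_0) m/s - a (1-a) g]` with `m = (1-a)^2`,
  both coefficients positive (`.52227 * .0635` and `.52227 * .5715 - .0341`).
* `Psi n ≥ 0` for `n ≥ 2`: write `b_(n+1), b_(n+2), b_(n+3)` in terms of `b_n` by `bb_succ_mul`
  (`(n+2) b_(n+1) = s (4n+2) b_n` etc.), `f_n = (b_n - b_(n+1))/s`; then
  `(n+2)(n+3)(n+4) Psi n = b_n P(n)` with the cubic polynomial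
  `P(n) = -.63758.. + .41910.. n + .16658.. n^2 + .0018638 n^3`, and `P(n+2)` has the positive
  coefficients `.88184, 1.10778, .17776, .0018638`. (Set `n = k + 2` and use `positivity`/`nlinarith`.)
* `e2 ≤ 0`: `e2_nonpos_of`; `(1-a) f_0 = .2799 ≤ A1 = .4947`.
-/

namespace Pool.Agent.Helper96.PK

private theorem vf0 : ff (2331 / 10000) 0 = 7669 / 10000 := by rw [ff_zero]; norm_num

private theorem vf1 : ff (2331 / 10000) 1 = 2331 / 10000 - 2 * (2331 / 10000) ^ 2 := by
  rw [ff_one]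

private theorem vb0 : bb (2331 / 10000) 0 = 2331 / 10000 := bb_zero _

private theorem vb1 : bb (2331 / 10000) 1 = (2331 / 10000) ^ 2 := bb_one _

private theorem vb2 : bb (2331 / 10000) 2 = 2 * (2331 / 10000) ^ 3 := by
  have h := bb_succ_mul (2331 / 10000) 1
  rw [show (1 : ℕ) + 1 = 2 from rfl, vb1] at h
  push_cast at h
  linarith

private theorem vb3 : bb (2331 / 10000) 3 = 5 * (2331 / 10000) ^ 4 := by
  have h := bb_succ_mul (2331 / 10000) 2
  rw [show (2 : ℕ) + 1 = 3 from rfl, vb2] at h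
  push_cast at h
  linarith

private theorem vb4 : bb (2331 / 10000) 4 = 14 * (2331 / 10000) ^ 5 := by
  have h := bb_succ_mul (2331 / 10000) 3
  rw [show (3 : ℕ) + 1 = 4 from rfl, vb3] at h
  push_cast at h
  linarith

private theorem vf2 : ff (2331 / 10000) 2 =
    2 * (2331 / 10000) ^ 2 - 5 * (2331 / 10000) ^ 3 := by
  have h := s_mul_ff (2331 / 10000) 2
  rw [show (2 : ℕ) + 1 = 3 from rfl, vb2, vb3] at h
  have h' : (2331 / 10000 : ℝ) * ff (2331 / 10000) 2 =
      (2331 / 10000) * (2 * (2331 / 10000) ^ 2 - 5 * (2331 / 10000) ^ 3) := by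
    rw [h]; ring
  exact mul_left_cancel₀ (by norm_num) h'

private theorem vA : A1 (127 / 200) (147 / 1000) (2331 / 10000) =
    1 - 127 / 200 * (7669 / 10000) -
      147 / 1000 * (2331 / 10000 - 2 * (2331 / 10000) ^ 2) := by
  rw [A1, vf0, vf1]

private theorem vx0 : xx (127 / 200) (147 / 1000) (2331 / 10000) 0 =
    (1 - 127 / 200) * (1 - 127 / 200 * (7669 / 10000) -
      147 / 1000 * (2331 / 10000 - 2 * (2331 / 10000) ^ 2)) := by
  rw [xx_zero, vA]

private theorem vx1 : xx (127 / 200) (147 / 1000) (2331 / 10000) 1 =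
    (1 - 127 / 200) ^ 2 * (7669 / 10000 * xx (127 / 200) (147 / 1000) (2331 / 10000) 0) +
      (1 - 127 / 200) * ((127 / 200 - 147 / 1000 * (7669 / 10000)) * (2331 / 10000) ^ 2 +
        147 / 1000 * (2 * (2331 / 10000) ^ 3)) := by
  rw [xx_eq]
  simp only [Finset.sum_range_succ, Finset.sum_range_zero, one_ne_zero, if_false, zero_add,
    Nat.sub_self, Nat.reduceAdd, vf0, vb1, vb2]

private theorem vx2 : xx (127 / 200) (147 / 1000) (2331 / 10000) 2 =
    (1 - 127 / 200) ^ 2 * (7669 / 10000 * xx (127 / 200) (147 / 1000) (2331 / 10000) 1 +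
      (2331 / 10000 - 2 * (2331 / 10000) ^ 2) * xx (127 / 200) (147 / 1000) (2331 / 10000) 0) +
      (1 - 127 / 200) * ((127 / 200 - 147 / 1000 * (7669 / 10000)) * (2 * (2331 / 10000) ^ 3) +
        147 / 1000 * (5 * (2331 / 10000) ^ 4)) := by
  rw [xx_eq]
  simp only [Finset.sum_range_succ, Finset.sum_range_zero, two_ne_zero, if_false, zero_add,
    Nat.sub_self, Nat.reduceAdd, Nat.reduceSub, vf0, vf1, vb2, vb3]

private theorem vx3 : xx (127 / 200) (147 / 1000) (2331 / 10000) 3 =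
    (1 - 127 / 200) ^ 2 * (7669 / 10000 * xx (127 / 200) (147 / 1000) (2331 / 10000) 2 +
      (2331 / 10000 - 2 * (2331 / 10000) ^ 2) * xx (127 / 200) (147 / 1000) (2331 / 10000) 1 +
      (2 * (2331 / 10000) ^ 2 - 5 * (2331 / 10000) ^ 3) *
        xx (127 / 200) (147 / 1000) (2331 / 10000) 0) +
      (1 - 127 / 200) * ((127 / 200 - 147 / 1000 * (7669 / 10000)) * (5 * (2331 / 10000) ^ 4) +
        147 / 1000 * (14 * (2331 / 10000) ^ 5)) := by
  rw [xx_eq]
  simp only [Finset.sum_range_succ, Finset.sum_range_zero, three_ne_zero, if_false, zero_add,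
    Nat.sub_self, Nat.reduceAdd, Nat.reduceSub, vf0, vf1, vf2, vb3, vb4]

private theorem vs : (63 / 100 * (1 - 63 / 100) : ℝ) = 2331 / 10000 := by norm_num

private theorem psiB_pos (n : ℕ) : 0 ≤ PsiB (127 / 200) (147 / 1000) (2331 / 10000) n := by
  have hb := bb_pos (s := 2331 / 10000) (by norm_num) n
  have hb1 := bb_pos (s := 2331 / 10000) (by norm_num) (n + 1)
  have hf := s_mul_ff (2331 / 10000) n
  have hf' : ff (2331 / 10000) n =
      10000 / 2331 * (bb (2331 / 10000) n - bb (2331 / 10000) (n + 1)) := by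
    rw [← hf]; ring
  simp only [PsiB, vf0, hf']
  nlinarith

private theorem psi_pos (n : ℕ) (hn : 2 ≤ n) :
    0 ≤ Psi (127 / 200) (147 / 1000) (2331 / 10000) (9 / 1000) n := by
  obtain ⟨k, rfl⟩ := Nat.exists_eq_add_of_le' hn
  have hb := bb_pos (s := 2331 / 10000) (by norm_num) (k + 2)
  have h1 := bb_succ_mul (2331 / 10000) (k + 2)
  have h2 := bb_succ_mul (2331 / 10000) (k + 2 + 1)
  have h3 := bb_succ_mul (2331 / 10000) (k + 2 + 2)
  have hf := s_mul_ff (2331 / 10000) (k + 2)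
  have hg := s_mul_ff (2331 / 10000) (k + 2 + 1)
  have hf' : ff (2331 / 10000) (k + 2) =
      10000 / 2331 * (bb (2331 / 10000) (k + 2) - bb (2331 / 10000) (k + 2 + 1)) := by
    rw [← hf]; ring
  have hg' : ff (2331 / 10000) (k + 2 + 1) =
      10000 / 2331 * (bb (2331 / 10000) (k + 2 + 1) - bb (2331 / 10000) (k + 2 + 1 + 1)) := by
    rw [← hg]; ring
  simp only [Psi, c0, c1, c2, c3, c4, hf', hg', vf0, vA, vx0, vx1]
  rw [show k + 2 + 1 + 1 = k + 2 + 2 from rfl, show k + 2 + 2 + 1 = k + 2 + 3 from rfl] at *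
  generalize bb (2331 / 10000) (k + 2) = b at *
  generalize bb (2331 / 10000) (k + 2 + 1) = b1 at *
  generalize bb (2331 / 10000) (k + 2 + 2) = b2 at *
  generalize bb (2331 / 10000) (k + 2 + 3) = b3 at *
  push_cast at h1 h2 h3
  have hk : (0 : ℝ) ≤ (k : ℝ) := Nat.cast_nonneg k
  generalize (k : ℝ) = x at *
  have hD : 0 < (x + 4) * (x + 5) * (x + 6) := by positivity
  refine le_of_mul_le_mul_left ?_ hD
  rw [mul_zero]
  have hP : 0 ≤ b * (7137413336951201320765117 / 8093750000000000000000000 +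
      116316672058852293252818837 / 105000000000000000000000000 * x +
      460399261837769817492530773 / 2590000000000000000000000000 * x ^ 2 +
      7240803912853277623688593 / 3885000000000000000000000000 * x ^ 3) := by positivity
  refine hP.trans_eq ?_
  linear_combination
    (-(347832197659520968347059 / 1554000000000000000000000 * (x + 5) * (x + 6) +
      -58788939304780419 / 400000000000000000 * (x + 6) * (2331 / 10000) * (4 * x + 14) +
      -21803481 / 1000000000 * (2331 / 10000) ^ 2 * (4 * x + 14) * (4 * x + 18))) * h1 -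
    (-58788939304780419 / 400000000000000000 * (x + 4) * (x + 6) +
      -21803481 / 1000000000 * (x + 4) * (2331 / 10000) * (4 * x + 18)) * h2 -
    (-21803481 / 1000000000 * (x + 4) * (x + 5)) * h3

theorem N1_B (n : ℕ) : 0 ≤ Bn (127 / 200) (147 / 1000) (63 / 100 * (1 - 63 / 100)) n := by
  rw [vs]
  refine Bn_nonneg_of (by norm_num) (by norm_num) 1 le_rfl ?_ (fun n _ => psiB_pos n) n
  intro n hn
  obtain rfl : n = 0 := by omega
  simp only [Bn, vf0, vb0, vx0]
  norm_num

theorem N1_E (n : ℕ) : e2 (127 / 200) (147 / 1000) (63 / 100 * (1 - 63 / 100)) n ≤ 0 := by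
  have hB := N1_B
  rw [vs] at *
  refine e2_nonpos_of (by norm_num) (by norm_num) (by norm_num) (by norm_num) (by norm_num)
    (by norm_num) hB ?_ n
  rw [vA, vf0]
  norm_num

theorem N1_L (n : ℕ) :
    0 ≤ Lam (127 / 200) (147 / 1000) (63 / 100 * (1 - 63 / 100)) (9 / 1000) n := by
  rw [vs]
  refine Lam_nonneg_of (by norm_num) (by norm_num) 2 (by norm_num) ?_ psi_pos n
  intro n hn
  interval_cases n
  · simp only [Lam, dl, e1, e2, Bn, zero_add, vA, vf0, vb0, vb1, vx2, vx1, vx0]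
    norm_num
  · simp only [Lam, dl, e1, e2, Bn, Nat.reduceAdd, vA, vf0, vb1, vb2, vx3, vx2, vx1, vx0]
    norm_num

end Pool.Agent.Helper96.PK
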