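import Pool.Agent.Helper96.PK.Strip
import Pool.Agent.Helper96.PK.Core

set_option autoImplicit false

/-!
# PK-26: one step

`Avg p (2 (|w|+3)) (fun e => R (step w e)) = EE p (pad w) (fun T => R (phi false T))` (`Avg_trip`,
`(pad w).length = w.length + 3`), `R = ρ ∑_i VR (..) i` (`RR_eq_tsum`), `EE_tsum`, `strip`,
`Summable.tsum_le_tsum` (summability: `EE_tsum` and `summable_Ev`-type bounds `VV_le`), so it is
`≤ LL (pad w) = LL w` (`LL_false` twice, `LL_append_false`) `≤ RR w` (`LL_le_RR`).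
-/

namespace Pool.Agent.Helper96.PK

theorem one_step {a g ρ κ p : ℝ} (h : Good a g ρ κ) (hap : a ≤ p) (hp1 : p ≤ 1)
    (hgp : g ≤ p ^ 2 * (1 - p)) (w : List Bool) :
    Avg p (2 * (w.length + 3)) (fun e => RR (rr (ρ * (1 - ρ))) ρ (step w e)) ≤
      RR (rr (ρ * (1 - ρ))) ρ w := by
  have hs := s_pos h.ρ0 h.ρ1
  have h4 := four_s_lt h.ρ0
  have hr := rr_antitone hs h4
  have hr0 := rr_zero (ρ * (1 - ρ))
  have hrn : ∀ n, 0 ≤ rr (ρ * (1 - ρ)) n := fun n => (rr_pos hs n).le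
  have hsum := summable_rr h.ρ0 h.ρ1
  have hts := tsum_rr h.ρ0 h.ρ1
  have hp0 : 0 ≤ p := h.a0.le.trans hap
  have hg1 : g ≤ 1 := h.ga.trans h.a1.le
  have hρ0 : 0 ≤ ρ := by linarith [h.ρ0]
  have hlen : (pad w).length = w.length + 3 := by
    simp [pad]
  have e1 : Avg p (2 * (w.length + 3)) (fun e => RR (rr (ρ * (1 - ρ))) ρ (step w e)) =
      EE p (pad w) (fun T => RR (rr (ρ * (1 - ρ))) ρ (phi false T)) := by
    rw [← hlen, ← Avg_trip (pad w) (fun T => RR (rr (ρ * (1 - ρ))) ρ (phi false T))]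
    rfl
  have e2 : EE p (pad w) (fun T => RR (rr (ρ * (1 - ρ))) ρ (phi false T)) =
      ρ * EE p (pad w) (fun T => ∑' i, VR (rr (ρ * (1 - ρ))) (phi false T) i) := by
    rw [← EE_mulF]
    exact EE_congr _ (fun T => RR_eq_tsum hr hr0 hrn hsum hts _)
  obtain ⟨s1, t1⟩ := EE_tsum (p := p) (pad w)
    (F := fun i T => VR (rr (ρ * (1 - ρ))) (phi false T) i)
    (fun T => summable_VR hr hr0 hrn hsum (phi false T))
  have s2 : Summable fun i => VV a g (rr (ρ * (1 - ρ))) (pad w) (St.c i) := by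
    refine Summable.of_nonneg_of_le (fun i => ?_) (fun i => ?_) hsum
    · exact VV_nonneg h.a0.le h.a1.le h.g0 hg1 hr hrn _ _
    · exact VV_le h.a0.le h.a1.le h.g0 hg1 hr hr0 hrn (pad w) (St.c i)
  have h1 : ∑' i, EE p (pad w) (fun T => VR (rr (ρ * (1 - ρ))) (phi false T) i) ≤
      ∑' i, VV a g (rr (ρ * (1 - ρ))) (pad w) (St.c i) :=
    s1.tsum_le_tsum (fun i => strip h.a0.le hap hp1 h.g0 hgp hr hr0 hrn w i) s2
  have h2 : LL a g (rr (ρ * (1 - ρ))) ρ (pad w) = LL a g (rr (ρ * (1 - ρ))) ρ w := by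
    unfold pad
    rw [LL_false h, LL_false h, LL_append_false h]
  calc Avg p (2 * (w.length + 3)) (fun e => RR (rr (ρ * (1 - ρ))) ρ (step w e))
      = ρ * ∑' i, EE p (pad w) (fun T => VR (rr (ρ * (1 - ρ))) (phi false T) i) := by
        rw [e1, e2, t1]
    _ ≤ ρ * ∑' i, VV a g (rr (ρ * (1 - ρ))) (pad w) (St.c i) :=
        mul_le_mul_of_nonneg_left h1 hρ0
    _ = LL a g (rr (ρ * (1 - ρ))) ρ (pad w) := rfl
    _ = LL a g (rr (ρ * (1 - ρ))) ρ w := h2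
    _ ≤ RR (rr (ρ * (1 - ρ))) ρ w := LL_le_RR h w

end Pool.Agent.Helper96.PK
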