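import Pool.Agent.Helper96.PK.Tpos
import Pool.Agent.Helper96.PK.GamPos
import Pool.Agent.Helper96.PK.Kid

set_option autoImplicit false

/-!
# PK-11: stationary sums

* `summable_Ev`: `Ev_bound` and `summable_rr` (comparison).
* `tsum_Ev_false`: `∑_i Ev t (false::w) (c i) = ∑_i (f_i Ev t w (c 0) + Ev t w (c (i+1)))
  = Ev t w (c 0) + (∑_i Ev t w (c i) - Ev t w (c 0))` (`hasSum_ff`, `Summable.tsum_eq_zero_add`).
* `Kf_bound`: `|K_n(x)| ≤ C r_(ix x)` for a suitable `C ≥ 0`, because `0 ≤ f_i, f_(i+1) ≤ r_i`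
  and `r_0, r_1 > 0` (the terms `e1`, `e2` only occur for `i = 0, 1`).
* `tsum_Kf`: `∑_i K_n(c i) = a (b - x) + g b (1 - f_0) + e1 + e2 = δ_n`.
* `gam_nonneg`: if `true ∈ y` all terms are `≥ 0` (`Ev_nonneg_of_true`, `T_nonneg`). Otherwise
  `y = zeros k`, and by `tsum_Ev_false` the sum is `∑_i K_n(c i) = δ_n ≥ 0` (`dl_nonneg`).
-/

namespace Pool.Agent.Helper96.PK

private theorem g_le_one {a g ρ κ : ℝ} (h : Good a g ρ κ) : g ≤ 1 := h.ga.trans h.a1.le

private theorem st_anti {a g ρ κ : ℝ} (h : Good a g ρ κ) : Antitone (rr (ρ * (1 - ρ))) :=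
  rr_antitone (s_pos h.ρ0 h.ρ1) (four_s_lt h.ρ0)

private theorem st_nn {a g ρ κ : ℝ} (h : Good a g ρ κ) (n : ℕ) : 0 ≤ rr (ρ * (1 - ρ)) n :=
  (rr_pos (s_pos h.ρ0 h.ρ1) n).le

theorem summable_Ev {a g ρ κ C : ℝ} (h : Good a g ρ κ) {t : St → ℝ}
    (ht : ∀ x, |t x| ≤ C * rr (ρ * (1 - ρ)) (ix x)) (w : List Bool) :
    Summable fun i => Ev a g (rr (ρ * (1 - ρ))) t w (St.c i) := by
  refine Summable.of_norm_bounded (g := fun i => C * rr (ρ * (1 - ρ)) i)
    ((summable_rr h.ρ0 h.ρ1).mul_left C) (fun i => ?_)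
  rw [Real.norm_eq_abs]
  exact Ev_bound h.a0.le h.a1.le h.g0 (g_le_one h) (st_anti h) (rr_zero _) (st_nn h) ht w (St.c i)

theorem tsum_Ev_false {a g ρ κ C : ℝ} (h : Good a g ρ κ) {t : St → ℝ}
    (ht : ∀ x, |t x| ≤ C * rr (ρ * (1 - ρ)) (ix x)) (w : List Bool) :
    ∑' i, Ev a g (rr (ρ * (1 - ρ))) t (false :: w) (St.c i) =
      ∑' i, Ev a g (rr (ρ * (1 - ρ))) t w (St.c i) := by
  have hS := summable_Ev h ht w
  have hF := hasSum_ff h.ρ0 h.ρ1
  have hS1 : Summable fun i => Ev a g (rr (ρ * (1 - ρ))) t w (St.c (i + 1)) :=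
    (summable_nat_add_iff 1).2 hS
  have e : ∀ i, Ev a g (rr (ρ * (1 - ρ))) t (false :: w) (St.c i) =
      ff (ρ * (1 - ρ)) i * Ev a g (rr (ρ * (1 - ρ))) t w (St.c 0) +
        Ev a g (rr (ρ * (1 - ρ))) t w (St.c (i + 1)) := fun i => rfl
  simp only [e]
  rw [Summable.tsum_add (hF.summable.mul_right _) hS1, tsum_mul_right, hF.tsum_eq, one_mul,
    hS.tsum_eq_zero_add]

theorem Kf_bound {a g ρ κ : ℝ} (h : Good a g ρ κ) (n : ℕ) :
    ∃ C : ℝ, ∀ x, |Kf a g (ρ * (1 - ρ)) n x| ≤ C * rr (ρ * (1 - ρ)) (ix x) := by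
  have hs := s_pos h.ρ0 h.ρ1
  have h4 := four_s_lt h.ρ0
  set s := ρ * (1 - ρ) with hsdef
  set b := bb s n with hb
  set X := bb s n - xx a g s n with hX
  set p := e1 a g s n with hp
  set q := e2 a g s n with hq
  have hb0 : 0 ≤ b := (bb_pos hs n).le
  refine ⟨a * |X| + g * b + |p| + |q| / s, ?_⟩
  have hf : ∀ i, 0 ≤ ff s i := fun i => (ff_pos hs h4 i).le
  have hr : ∀ i, 0 ≤ rr s i := fun i => (rr_pos hs i).le
  have hf1 : ∀ i, ff s i ≤ rr s i := fun i => by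
    have := hr (i + 1)
    have e : ff s i = rr s i - rr s (i + 1) := rfl
    linarith
  have hf2 : ∀ i, ff s (i + 1) ≤ rr s i := fun i =>
    (hf1 (i + 1)).trans (rr_antitone hs h4 (Nat.le_succ i))
  have hga : 0 ≤ a - g := sub_nonneg.2 h.ga
  have hag : a - g ≤ a := by have := h.g0; linarith
  have k1 : ∀ (k : ℝ) (i : ℕ), 0 ≤ k → k ≤ a → |k * ff s i * X| ≤ a * |X| * rr s i := by
    intro k i hk hka
    rw [abs_mul, abs_of_nonneg (mul_nonneg hk (hf i))]
    calc k * ff s i * |X| ≤ a * rr s i * |X| :=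
          mul_le_mul_of_nonneg_right (mul_le_mul hka (hf1 i) (hf i) h.a0.le) (abs_nonneg _)
      _ = a * |X| * rr s i := by ring
  have k2 : ∀ i : ℕ, |g * ff s (i + 1) * b| ≤ g * b * rr s i := by
    intro i
    rw [abs_of_nonneg (mul_nonneg (mul_nonneg h.g0 (hf _)) hb0)]
    calc g * ff s (i + 1) * b = g * b * ff s (i + 1) := by ring
      _ ≤ g * b * rr s i := mul_le_mul_of_nonneg_left (hf2 i) (mul_nonneg h.g0 hb0)
  have k3 : ∀ i : ℕ, |if i = 0 then p else 0| ≤ |p| * rr s i := by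
    intro i
    by_cases hi : i = 0
    · rw [if_pos hi, hi, rr_zero, mul_one]
    · rw [if_neg hi, abs_zero]
      exact mul_nonneg (abs_nonneg _) (hr i)
  have k4 : ∀ i : ℕ, |if i = 1 then q else 0| ≤ |q| / s * rr s i := by
    intro i
    by_cases hi : i = 1
    · rw [if_pos hi, hi, rr_one, div_mul_cancel₀ _ hs.ne']
    · rw [if_neg hi, abs_zero]
      exact mul_nonneg (div_nonneg (abs_nonneg _) hs.le) (hr i)
  have k5 : ∀ i : ℕ, 0 ≤ |p| * rr s i := fun i => mul_nonneg (abs_nonneg _) (hr i)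
  have k6 : ∀ i : ℕ, 0 ≤ |q| / s * rr s i := fun i =>
    mul_nonneg (div_nonneg (abs_nonneg _) hs.le) (hr i)
  intro x
  cases x with
  | c i =>
    have e : Kf a g s n (St.c i) = a * ff s i * X + g * ff s (i + 1) * b +
      (if i = 0 then p else 0) + (if i = 1 then q else 0) := rfl
    rw [e]
    have m1 := k1 a i h.a0.le le_rfl
    have m2 := k2 i
    have m3 := k3 i
    have m4 := k4 i
    have t1 := abs_add_le (a * ff s i * X + g * ff s (i + 1) * b + (if i = 0 then p else 0))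
      (if i = 1 then q else 0)
    have t2 := abs_add_le (a * ff s i * X + g * ff s (i + 1) * b) (if i = 0 then p else 0)
    have t3 := abs_add_le (a * ff s i * X) (g * ff s (i + 1) * b)
    show _ ≤ (a * |X| + g * b + |p| + |q| / s) * rr s i
    linarith
  | o i =>
    have e : Kf a g s n (St.o i) = (a - g) * ff s i * X + g * ff s (i + 1) * b := rfl
    rw [e]
    have m1 := k1 (a - g) i hga hag
    have m2 := k2 i
    have t3 := abs_add_le ((a - g) * ff s i * X) (g * ff s (i + 1) * b)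
    have m5 := k5 i
    have m6 := k6 i
    show _ ≤ (a * |X| + g * b + |p| + |q| / s) * rr s i
    linarith
  | q i =>
    have e : Kf a g s n (St.q i) = a * ff s i * X + g * ff s (i + 1) * b := rfl
    rw [e]
    have m1 := k1 a i h.a0.le le_rfl
    have m2 := k2 i
    have t3 := abs_add_le (a * ff s i * X) (g * ff s (i + 1) * b)
    have m5 := k5 i
    have m6 := k6 i
    show _ ≤ (a * |X| + g * b + |p| + |q| / s) * rr s i
    linarith

theorem tsum_Kf {a g ρ κ : ℝ} (h : Good a g ρ κ) (n : ℕ) :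
    ∑' i, Kf a g (ρ * (1 - ρ)) n (St.c i) = dl a g (ρ * (1 - ρ)) n := by
  have hF := hasSum_ff h.ρ0 h.ρ1
  set s := ρ * (1 - ρ) with hsdef
  have hF1 : HasSum (fun i => ff s (i + 1)) (1 - ff s 0) := by
    have := (hasSum_nat_add_iff' 1).2 hF
    simpa using this
  have h1 : HasSum (fun i => a * (bb s n - xx a g s n) * ff s i + g * bb s n * ff s (i + 1) +
      (if i = 0 then e1 a g s n else 0) + (if i = 1 then e2 a g s n else 0))
      (a * (bb s n - xx a g s n) * 1 + g * bb s n * (1 - ff s 0) + e1 a g s n + e2 a g s n) :=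
    (((hF.mul_left _).add (hF1.mul_left _)).add (hasSum_ite_eq 0 _)).add (hasSum_ite_eq 1 _)
  have h2 : (fun i => Kf a g s n (St.c i)) =
      fun i => a * (bb s n - xx a g s n) * ff s i + g * bb s n * ff s (i + 1) +
      (if i = 0 then e1 a g s n else 0) + (if i = 1 then e2 a g s n else 0) := by
    funext i
    show a * ff s i * (bb s n - xx a g s n) + g * ff s (i + 1) * bb s n +
      (if i = 0 then e1 a g s n else 0) + (if i = 1 then e2 a g s n else 0) = _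
    ring
  rw [h2, h1.tsum_eq]
  simp only [dl, Bn]
  ring

theorem gam_nonneg {a g ρ κ : ℝ} (h : Good a g ρ κ) (n : ℕ) (y : List Bool) :
    0 ≤ ρ * ∑' i, Gam a g (ρ * (1 - ρ)) n y (St.c i) := by
  have hρ : 0 ≤ ρ := by have := h.ρ0; linarith
  refine mul_nonneg hρ ?_
  by_cases hy : true ∈ y
  · exact tsum_nonneg fun i => Ev_nonneg_of_true h.a0.le h.a1.le h.g0 (g_le_one h) (st_anti h)
      (fun d j => T_nonneg h n d j) y hy (St.c i)
  · have hz : y = zeros y.length := by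
      rw [List.eq_replicate_iff]
      refine ⟨rfl, fun b hb => ?_⟩
      cases b
      · rfl
      · exact absurd hb hy
    obtain ⟨C, hC⟩ := Kf_bound h n
    have key : ∀ k : ℕ, ∑' i, Gam a g (ρ * (1 - ρ)) n (zeros k) (St.c i) =
        dl a g (ρ * (1 - ρ)) n := by
      intro k
      induction k with
      | zero => exact tsum_Kf h n
      | succ k ih =>
        rw [← ih]
        exact tsum_Ev_false h hC (zeros k)
    rw [hz, key]
    exact dl_nonneg h n

private theorem t0_bound {a g ρ κ : ℝ} (h : Good a g ρ κ) (x : St) :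
    |t0 g (rr (ρ * (1 - ρ))) x| ≤ 1 * rr (ρ * (1 - ρ)) (ix x) := by
  have hn : 0 ≤ t0 g (rr (ρ * (1 - ρ))) x :=
    VV_nonneg h.a0.le h.a1.le h.g0 (g_le_one h) (st_anti h) (st_nn h) [] x
  rw [abs_of_nonneg hn, one_mul]
  exact VV_le h.a0.le h.a1.le h.g0 (g_le_one h) (st_anti h) (rr_zero _) (st_nn h) [] x

theorem LL_false {a g ρ κ : ℝ} (h : Good a g ρ κ) (w : List Bool) :
    LL a g (rr (ρ * (1 - ρ))) ρ (false :: w) = LL a g (rr (ρ * (1 - ρ))) ρ w := by
  unfold LL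
  congr 1
  exact tsum_Ev_false h (t0_bound h) w

theorem LL_append_false {a g ρ κ : ℝ} (h : Good a g ρ κ) (w : List Bool) :
    LL a g (rr (ρ * (1 - ρ))) ρ (w ++ [false]) = LL a g (rr (ρ * (1 - ρ))) ρ w := by
  have _ := h.a0
  unfold LL
  congr 1
  exact tsum_congr fun i => VV_append_false a g (rr_zero _) w (St.c i)

theorem LL_nil {a g ρ κ : ℝ} (h : Good a g ρ κ) : LL a g (rr (ρ * (1 - ρ))) ρ [] = 1 :=
  tsum_rr h.ρ0 h.ρ1

/-- The decomposition of `D_y`: `K_identity`, `Ev_append`, linearity, `Ev_sum`, `tsum_sum`. -/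
theorem LL_decomp {a g ρ κ : ℝ} (h : Good a g ρ κ) (y : List Bool) (j : ℕ) :
    rr (ρ * (1 - ρ)) j * (LL a g (rr (ρ * (1 - ρ))) ρ (y ++ [false]) -
        LL a g (rr (ρ * (1 - ρ))) ρ (y ++ [true])) -
      (LL a g (rr (ρ * (1 - ρ))) ρ (y ++ false :: ones j) -
        LL a g (rr (ρ * (1 - ρ))) ρ (y ++ true :: ones j)) =
      ∑ n ∈ Finset.range j, rr (ρ * (1 - ρ)) (j - 1 - n) *
        (ρ * ∑' i, Gam a g (ρ * (1 - ρ)) n y (St.c i)) := by
  have hS : ∀ w : List Bool, Summable fun i => VV a g (rr (ρ * (1 - ρ))) w (St.c i) := fun w =>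
    summable_Ev h (t0_bound h) w
  have hK : ∀ n, Summable fun i => Gam a g (ρ * (1 - ρ)) n y (St.c i) := fun n => by
    obtain ⟨C, hC⟩ := Kf_bound h n
    exact summable_Ev h hC y
  have key : ∀ x, rr (ρ * (1 - ρ)) j * (VV a g (rr (ρ * (1 - ρ))) (y ++ [false]) x -
      VV a g (rr (ρ * (1 - ρ))) (y ++ [true]) x) -
      (VV a g (rr (ρ * (1 - ρ))) (y ++ false :: ones j) x -
        VV a g (rr (ρ * (1 - ρ))) (y ++ true :: ones j) x) =
      ∑ n ∈ Finset.range j, rr (ρ * (1 - ρ)) (j - 1 - n) * Gam a g (ρ * (1 - ρ)) n y x := by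
    intro x
    have e : ∀ w : List Bool, VV a g (rr (ρ * (1 - ρ))) (y ++ w) x =
        Ev a g (rr (ρ * (1 - ρ))) (fun z => VV a g (rr (ρ * (1 - ρ))) w z) y x := fun w =>
      Ev_append a g _ _ y w x
    rw [e, e, e, e, ← Ev_sub, ← Ev_mul, ← Ev_sub, ← Ev_sub]
    have e2 : (fun z => rr (ρ * (1 - ρ)) j * (VV a g (rr (ρ * (1 - ρ))) [false] z -
        VV a g (rr (ρ * (1 - ρ))) [true] z) -
        (VV a g (rr (ρ * (1 - ρ))) (false :: ones j) z -
          VV a g (rr (ρ * (1 - ρ))) (true :: ones j) z)) =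
        fun z => ∑ n ∈ Finset.range j, rr (ρ * (1 - ρ)) (j - 1 - n) * Kf a g (ρ * (1 - ρ)) n z := by
      funext z
      exact K_identity h.a1.ne j z
    rw [e2, Ev_sum]
    rfl
  unfold LL
  have h1 := (hS (y ++ [false])).hasSum
  have h2 := (hS (y ++ [true])).hasSum
  have h3 := (hS (y ++ false :: ones j)).hasSum
  have h4 := (hS (y ++ true :: ones j)).hasSum
  have h5 := ((h1.sub h2).mul_left (rr (ρ * (1 - ρ)) j)).sub (h3.sub h4)
  have h6 : HasSum (fun i => ∑ n ∈ Finset.range j, rr (ρ * (1 - ρ)) (j - 1 - n) *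
      Gam a g (ρ * (1 - ρ)) n y (St.c i)) (∑ n ∈ Finset.range j, rr (ρ * (1 - ρ)) (j - 1 - n) *
        ∑' i, Gam a g (ρ * (1 - ρ)) n y (St.c i)) :=
    hasSum_sum fun n _ => (hK n).hasSum.mul_left _
  have h7 := h5.unique (by
    have e3 := funext fun i => key (St.c i)
    rw [e3]
    exact h6)
  have h8 : ∑ n ∈ Finset.range j, rr (ρ * (1 - ρ)) (j - 1 - n) *
      (ρ * ∑' i, Gam a g (ρ * (1 - ρ)) n y (St.c i)) =
      ρ * ∑ n ∈ Finset.range j, rr (ρ * (1 - ρ)) (j - 1 - n) *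
        ∑' i, Gam a g (ρ * (1 - ρ)) n y (St.c i) := by
    rw [Finset.mul_sum]
    exact Finset.sum_congr rfl fun n _ => by ring
  rw [h8, ← h7]
  ring

end Pool.Agent.Helper96.PK
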