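import Pool.Agent.Helper96.PK.AvgL
import Pool.Agent.Helper96.PK.ExtPos
import Pool.Agent.Helper96.PK.EvLin

set_option autoImplicit false

/-!
# PK-25: the strip lemma

`0 ≤ p ≤ 1`, `0 ≤ a ≤ p`, `0 ≤ g ≤ p^2 (1-p)`, `g ≤ 1`; `r` antitone, nonnegative, `r 0 = 1`.
Write `V = VV a g r`, `Q w = V w (c 0)`, `ind b = if b then 0 else 1` (indicator of `b = false`), `1-p` is the
probability of `false`. `T` is the random list of letters of `w` with edges. Words `w` are either
`[]` or end with `false`; the (O1) statement is only for `w ≠ []`. Prove simultaneously by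
induction on `w` (for all `i`):
(C1) `EE p w (fun T => ind (hitL T) * VR r (phi false T) 0) ≤ V w (c 0)`
(C2) `p(1-p) * EE p w (fun T => ind (w0 && l0) * VR r (phi false T) 1)
      + (1 - p(1-p)) * EE p w (fun T => VR r (phi false T) 1) ≤ V w (c 1)`,
     where `w0 && l0` is read off the first triple of `T` (`false` if `T = []`)
(C3) `EE p w (fun T => VR r (phi false T) i) ≤ V w (c i)` for `i ≥ 2`
(O1) `p * EE p w (fun T => VR r (phi true T) i) + (1-p) * EE p w (fun T => VR r (phi false T) i)
      ≤ V w (o i)`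
(O2) `EE p w (fun T => VR r (phi false T) i) ≤ V w (q i)`.
Base `w = []`: all are equalities (`VR r [] i = r i`, `hitL [] = false`), (O1) does not occur.
Step `w = x :: w'`, first triple `(x, l, ρ)`, `T = (x,l,ρ) :: T'`,
`phi c T = (x&&ρ || c&&!l&&ρ || hitL T') :: phi (x&&ρ) T'`, and
`VR r (b :: φ) i = (if b then 0 else f_i VR r φ 0) + VR r φ (i+1)`. Write `V0 = VR r (phi false T') 0`.
* `x = false`: the new carry is `false`.
  (C1): `hitL T = (w0' && l0' && !ρ && l)` with `(w0', l0')` from `T'`. First part: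
  `≤ f_0 * ind (hitL T') * V0` -> `f_0 Q w'` by (C1) for `w'`. Second part: the average over `l, ρ`
  of `ind (w0' && l0' && (!ρ && l)) VR r (phi false T') 1`: `!ρ && l` has probability `p(1-p)`: this is
  exactly the left side of (C2) for `w'`.
  (C2), (C3), (O2): hits of the first letter do not occur; first part `f_i Q w'` by (C1), second part
  by (C3)/(O2) for `w'` with `i + 1`.
  (O1): first part: `ind (c && !l && ρ) ind (hitL T') V0`, `c` independent with probability `p`:
  `(1 - p^2(1-p)) f_i Q w' ≤ (1-g) f_i Q w'`; second part (O2) for `w'`.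
* `x = true` (then `w' ≠ []`): the new carry is `ρ`, so the slot is not hit only if `ρ = false` (then carry
  `false`), and the second part is `VR r (phi ρ T') (i+1)`.
  (C3), (O1), (O2): first part `(1-p) f_i Q w' ≤ (1-a) f_i Q w'` by (C1), second part: average over
  `ρ`: left side of (O1) for `w'` with `i + 1`.
  (C1): `ind (hitL T) ≤ ind l` (`x && l` is part of `hitL T`), `l` is independent of `ρ, T'`:
  factor `1 - p ≤ 1 - a` in front of `[...]` as before with `i = 0`.
  (C2): `ind (w0 && l0) = ind l`, with the extra `p(1-p)`: factor `1 - p * p(1-p) ≤ 1 - g`.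
All quantities are nonnegative (`VR_nonneg`, `VV_nonneg`).
The final statement is (C1) for `i = 0`, (C2) for `i = 1`, (C3) for `i ≥ 2`, for a word which starts with
two letters `false`, so that `hitL T = false` and `w0 && l0 = false`.
-/

namespace Pool.Agent.Helper96.PK

/-- Indicator of `b = false`. -/
private def nind (b : Bool) : ℝ := if b then 0 else 1

private def fstL : List Tr → Bool
  | [] => false
  | (x, l, _) :: _ => x && l

private theorem nind_nonneg (b : Bool) : 0 ≤ nind b := by
  cases b <;> simp [nind]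

private theorem nind_le_one (b : Bool) : nind b ≤ 1 := by
  cases b <;> simp [nind]

private theorem hitL_cons (x l ρ : Bool) (T : List Tr) :
    hitL ((x, l, ρ) :: T) = ((x && l) || (fstL T && !ρ && l)) := by
  cases T with
  | nil => cases x <;> cases l <;> simp [hitL, fstL]
  | cons y T =>
    obtain ⟨x', l', ρ'⟩ := y
    rfl

private theorem VR_phi (r : ℕ → ℝ) (c x l ρ : Bool) (T : List Tr) (i : ℕ) :
    VR r (phi c ((x, l, ρ) :: T)) i =
      nind ((x && ρ) || (c && !l && ρ) || hitL T) * (fr r i * VR r (phi (x && ρ) T) 0) +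
        VR r (phi (x && ρ) T) (i + 1) := by
  simp only [phi]
  cases hb : ((x && ρ) || (c && !l && ρ) || hitL T) with
  | true => simp only [VR, nind, if_true, zero_mul, zero_add]
  | false => simp [VR, nind]

private def sQ (p : ℝ) (r : ℕ → ℝ) (w : List Bool) : ℝ :=
  EE p w (fun T => nind (hitL T) * VR r (phi false T) 0)
private def sF (p : ℝ) (r : ℕ → ℝ) (w : List Bool) (i : ℕ) : ℝ :=
  EE p w (fun T => VR r (phi false T) i)
private def sT (p : ℝ) (r : ℕ → ℝ) (w : List Bool) (i : ℕ) : ℝ :=
  EE p w (fun T => VR r (phi true T) i)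
private def sD (p : ℝ) (r : ℕ → ℝ) (w : List Bool) : ℝ :=
  EE p w (fun T => nind (fstL T) * VR r (phi false T) 1)

variable {p : ℝ} {r : ℕ → ℝ}

/-- average of an unhit slot -/
private theorem EE_unhit (w : List Bool) (i : ℕ) :
    EE p w (fun T => nind (hitL T) * (fr r i * VR r (phi false T) 0) + VR r (phi false T) (i + 1)) =
      fr r i * sQ p r w + sF p r w (i + 1) := by
  rw [EE_addF]
  unfold sQ sF
  rw [← EE_mulF]
  congr 1
  apply EE_congr
  intro T
  ring

private theorem sF_false (w : List Bool) (i : ℕ) :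
    sF p r (false :: w) i = fr r i * sQ p r w + sF p r w (i + 1) := by
  have h := EE_unhit (p := p) (r := r) w i
  unfold sF at *
  simp only [EE, VR_phi, Bool.false_and, Bool.false_or] at *
  rw [h]
  ring

private theorem sT_false (w : List Bool) (i : ℕ) :
    sT p r (false :: w) i = (1 - p * (1 - p)) * (fr r i * sQ p r w) + sF p r w (i + 1) := by
  have h := EE_unhit (p := p) (r := r) w i
  have h' : EE p w (fun T => nind true * (fr r i * VR r (phi false T) 0) +
      VR r (phi false T) (i + 1)) = sF p r w (i + 1) := by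
    unfold sF
    apply EE_congr
    intro T
    simp [nind]
  unfold sT
  simp only [EE, VR_phi, Bool.false_and, Bool.false_or, Bool.true_and, Bool.not_true,
    Bool.not_false, Bool.and_true, Bool.true_or] at *
  rw [h, h']
  ring

private theorem sD_false (w : List Bool) : sD p r (false :: w) = sF p r (false :: w) 1 := by
  unfold sD sF
  simp [EE, fstL, nind]

private theorem sQ_false (hp0 : 0 ≤ p) (hp1 : p ≤ 1) (hr : Antitone r) (hrn : ∀ n, 0 ≤ r n)
    (w : List Bool) :
    sQ p r (false :: w) ≤ fr r 0 * sQ p r w + (p * (1 - p) * sD p r w +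
      (1 - p * (1 - p)) * sF p r w 1) := by
  have h := EE_unhit (p := p) (r := r) w 0
  have hf : 0 ≤ fr r 0 := sub_nonneg.2 (hr (Nat.le_succ 0))
  have h1 : EE p w (fun T => nind (fstL T) * (nind (hitL T) * (fr r 0 * VR r (phi false T) 0) +
      VR r (phi false T) (0 + 1))) ≤ fr r 0 * sQ p r w + sD p r w := by
    unfold sQ sD
    rw [← EE_mulF, ← EE_addF]
    apply EE_mono hp0 hp1
    intro T
    have e1 := VR_nonneg r hr hrn (phi false T) 0
    have e2 : nind (fstL T) * (nind (hitL T) * (fr r 0 * VR r (phi false T) 0)) ≤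
        1 * (nind (hitL T) * (fr r 0 * VR r (phi false T) 0)) :=
      mul_le_mul_of_nonneg_right (nind_le_one _)
        (mul_nonneg (nind_nonneg _) (mul_nonneg hf e1))
    rw [mul_add, zero_add]
    linarith
  have h2 := mul_le_mul_of_nonneg_left h1 (mul_nonneg hp0 (sub_nonneg.2 hp1))
  have hs : sQ p r (false :: w) = p * p * EE p w (fun T => nind (hitL T) *
        (fr r 0 * VR r (phi false T) 0) + VR r (phi false T) (0 + 1)) +
      p * (1 - p) * EE p w (fun T => nind (fstL T) * (nind (hitL T) *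
        (fr r 0 * VR r (phi false T) 0) + VR r (phi false T) (0 + 1))) +
      (1 - p) * p * EE p w (fun T => nind (hitL T) *
        (fr r 0 * VR r (phi false T) 0) + VR r (phi false T) (0 + 1)) +
      (1 - p) * (1 - p) * EE p w (fun T => nind (hitL T) *
        (fr r 0 * VR r (phi false T) 0) + VR r (phi false T) (0 + 1)) := by
    have hi : nind false = 1 := by simp [nind]
    unfold sQ
    simp only [EE, VR_phi, hitL_cons, Bool.false_and, Bool.false_or, Bool.not_true, Bool.not_false,
      Bool.and_true, Bool.and_false, hi, one_mul]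
  rw [hs, h]
  simp only [zero_add] at *
  nlinarith [h2]

private theorem sTF_true (c : Bool) (w : List Bool) (i : ℕ) :
    EE p (true :: w) (fun T => VR r (phi c T) i) =
      (1 - p) * (fr r i * sQ p r w) + (p * sT p r w (i + 1) + (1 - p) * sF p r w (i + 1)) := by
  have h := EE_unhit (p := p) (r := r) w i
  have h' : EE p w (fun T => nind true * (fr r i * VR r (phi true T) 0) +
      VR r (phi true T) (i + 1)) = sT p r w (i + 1) := by
    unfold sT
    apply EE_congr
    intro T
    simp [nind]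
  simp only [EE, VR_phi, Bool.false_and, Bool.false_or, Bool.true_and, Bool.not_true,
    Bool.not_false, Bool.and_true, Bool.true_or, Bool.and_false] at *
  rw [h, h']
  ring

private theorem sF_true (w : List Bool) (i : ℕ) :
    sF p r (true :: w) i = (1 - p) * (fr r i * sQ p r w) +
      (p * sT p r w (i + 1) + (1 - p) * sF p r w (i + 1)) := sTF_true false w i

private theorem sT_true (w : List Bool) (i : ℕ) :
    sT p r (true :: w) i = (1 - p) * (fr r i * sQ p r w) +
      (p * sT p r w (i + 1) + (1 - p) * sF p r w (i + 1)) := sTF_true true w i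

/-- the value does not depend on `l` if the first letter is `true` -/
private theorem VR_phi_true (l l' ρ : Bool) (T : List Tr) (i : ℕ) :
    VR r (phi false ((true, l, ρ) :: T)) i = VR r (phi false ((true, l', ρ) :: T)) i := by
  rw [VR_phi, VR_phi]
  simp

private theorem EE_nindl (w : List Bool) (i : ℕ) :
    EE p (true :: w) (fun T => nind (fstL T) * VR r (phi false T) i) =
      (1 - p) * sF p r (true :: w) i := by
  have h1 : ∀ ρ : Bool, (fun T => VR r (phi false ((true, true, ρ) :: T)) i) =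
      (fun T => VR r (phi false ((true, false, ρ) :: T)) i) := fun ρ => by
    funext T
    exact VR_phi_true _ _ _ _ _
  have hi : nind false = 1 := by simp [nind]
  have hi' : nind true = 0 := by simp [nind]
  unfold sF
  simp only [EE, fstL, Bool.and_true, Bool.and_false, hi, hi', one_mul, zero_mul, h1]
  rw [EE_const]
  ring

private theorem sD_true (w : List Bool) :
    sD p r (true :: w) = (1 - p) * sF p r (true :: w) 1 := EE_nindl w 1

private theorem sQ_true (hp0 : 0 ≤ p) (hp1 : p ≤ 1) (hr : Antitone r) (hrn : ∀ n, 0 ≤ r n)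
    (w : List Bool) :
    sQ p r (true :: w) ≤ (1 - p) * sF p r (true :: w) 0 := by
  rw [← EE_nindl]
  unfold sQ
  apply EE_mono hp0 hp1
  intro T
  apply mul_le_mul_of_nonneg_right _ (VR_nonneg r hr hrn _ _)
  cases T with
  | nil => exact le_of_eq rfl
  | cons y T =>
    obtain ⟨x, l, ρ⟩ := y
    rw [hitL_cons]
    simp only [fstL]
    cases hb : (x && l) with
    | true => simp
    | false =>
      have : nind false = 1 := by simp [nind]
      rw [this]
      exact nind_le_one _

private theorem sF_nonneg (hp0 : 0 ≤ p) (hp1 : p ≤ 1) (hr : Antitone r) (hrn : ∀ n, 0 ≤ r n)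
    (w : List Bool) (i : ℕ) : 0 ≤ sF p r w i :=
  EE_nonneg hp0 hp1 w (fun _ => VR_nonneg r hr hrn _ _)

private theorem sQ_nonneg (hp0 : 0 ≤ p) (hp1 : p ≤ 1) (hr : Antitone r) (hrn : ∀ n, 0 ≤ r n)
    (w : List Bool) : 0 ≤ sQ p r w :=
  EE_nonneg hp0 hp1 w (fun _ => mul_nonneg (nind_nonneg _) (VR_nonneg r hr hrn _ _))

/-- The five statements. -/
private structure Str (a g p : ℝ) (r : ℕ → ℝ) (w : List Bool) : Prop where
  c1 : sQ p r w ≤ VV a g r w (St.c 0)
  c2 : p * (1 - p) * sD p r w + (1 - p * (1 - p)) * sF p r w 1 ≤ VV a g r w (St.c 1)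
  c3 : ∀ i, sF p r w (i + 2) ≤ VV a g r w (St.c (i + 2))
  o1 : w ≠ [] → ∀ i, p * sT p r w i + (1 - p) * sF p r w i ≤ VV a g r w (St.o i)
  o2 : ∀ i, sF p r w i ≤ VV a g r w (St.q i)

private theorem Str_nil {a g p : ℝ} {r : ℕ → ℝ} : Str a g p r [] where
  c1 := by
    simp [sQ, EE, hitL, nind, phi, VR, VV, Ev, t0]
  c2 := by
    simp only [sD, sF, EE, fstL, nind, phi, VR, VV, Ev, t0]
    simp only [Bool.false_eq_true, if_false]
    apply le_of_eq
    ring
  c3 := fun i => by simp [sF, EE, phi, VR, VV, Ev, t0]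
  o1 := fun h => absurd rfl h
  o2 := fun i => by simp [sF, EE, phi, VR, VV, Ev, t0]

private theorem Str_false {a g p : ℝ} {r : ℕ → ℝ} (ha0 : 0 ≤ a) (hap : a ≤ p) (hp1 : p ≤ 1)
    (hgp : g ≤ p ^ 2 * (1 - p)) (hr : Antitone r) (hrn : ∀ n, 0 ≤ r n)
    {w : List Bool} (h : Str a g p r w) : Str a g p r (false :: w) := by
  have hp0 : 0 ≤ p := ha0.trans hap
  have hf : ∀ i, 0 ≤ fr r i := fun i => sub_nonneg.2 (hr (Nat.le_succ i))
  have hfQ : ∀ i, fr r i * sQ p r w ≤ fr r i * VV a g r w (St.c 0) :=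
    fun i => mul_le_mul_of_nonneg_left h.c1 (hf i)
  have hfQ0 : ∀ i, 0 ≤ fr r i * sQ p r w :=
    fun i => mul_nonneg (hf i) (sQ_nonneg hp0 hp1 hr hrn w)
  refine ⟨?_, ?_, ?_, ?_, ?_⟩
  · have h1 := sQ_false hp0 hp1 hr hrn w
    have h2 := h.c2
    have h3 := hfQ 0
    change sQ p r (false :: w) ≤ fr r 0 * VV a g r w (St.c 0) + VV a g r w (St.c (0 + 1))
    rw [zero_add]
    linarith
  · rw [sD_false, sF_false]
    have h2 := h.c3 0
    have h3 := hfQ 1
    change _ ≤ fr r 1 * VV a g r w (St.c 0) + VV a g r w (St.c (1 + 1))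
    simp only [zero_add] at h2
    have e : (1 + 1 : ℕ) = 2 := rfl
    rw [e]
    linarith
  · intro i
    rw [sF_false]
    have h2 := h.c3 (i + 1)
    have h3 := hfQ (i + 2)
    change _ ≤ fr r (i + 2) * VV a g r w (St.c 0) + VV a g r w (St.c (i + 2 + 1))
    have e : i + 1 + 2 = i + 2 + 1 := by omega
    rw [e] at h2
    linarith
  · intro _ i
    rw [sT_false, sF_false]
    have h2 := h.o2 (i + 1)
    change _ ≤ (1 - g) * fr r i * VV a g r w (St.c 0) + VV a g r w (St.q (i + 1))
    have h3 := hfQ i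
    have h4 := hfQ0 i
    have h5 : (1 - p ^ 2 * (1 - p)) * (fr r i * sQ p r w) ≤ (1 - g) * (fr r i * sQ p r w) :=
      mul_le_mul_of_nonneg_right (by linarith) h4
    have hg1 : 0 ≤ 1 - g := by
      have : p ^ 2 * (1 - p) ≤ 1 := by nlinarith
      linarith
    have h6 : (1 - g) * (fr r i * sQ p r w) ≤ (1 - g) * (fr r i * VV a g r w (St.c 0)) :=
      mul_le_mul_of_nonneg_left h3 hg1
    have e : p * ((1 - p * (1 - p)) * (fr r i * sQ p r w) + sF p r w (i + 1)) +
        (1 - p) * (fr r i * sQ p r w + sF p r w (i + 1)) =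
        (1 - p ^ 2 * (1 - p)) * (fr r i * sQ p r w) + sF p r w (i + 1) := by ring
    rw [e]
    linarith
  · intro i
    rw [sF_false]
    have h2 := h.o2 (i + 1)
    have h3 := hfQ i
    change _ ≤ fr r i * VV a g r w (St.c 0) + VV a g r w (St.q (i + 1))
    linarith

private theorem Str_true {a g p : ℝ} {r : ℕ → ℝ} (ha0 : 0 ≤ a) (hap : a ≤ p) (hp1 : p ≤ 1)
    (hg0 : 0 ≤ g) (hgp : g ≤ p ^ 2 * (1 - p)) (hr : Antitone r) (hrn : ∀ n, 0 ≤ r n)
    {w : List Bool} (hw : w ≠ []) (h : Str a g p r w) : Str a g p r (true :: w) := by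
  have hp0 : 0 ≤ p := ha0.trans hap
  have hf : ∀ i, 0 ≤ fr r i := fun i => sub_nonneg.2 (hr (Nat.le_succ i))
  have hfQ : ∀ i, fr r i * sQ p r w ≤ fr r i * VV a g r w (St.c 0) :=
    fun i => mul_le_mul_of_nonneg_left h.c1 (hf i)
  have hfQ0 : ∀ i, 0 ≤ fr r i * sQ p r w :=
    fun i => mul_nonneg (hf i) (sQ_nonneg hp0 hp1 hr hrn w)
  -- the common bound
  have hS : ∀ i, (1 - p) * (fr r i * sQ p r w) +
      (p * sT p r w (i + 1) + (1 - p) * sF p r w (i + 1)) ≤
      (1 - a) * fr r i * VV a g r w (St.c 0) + VV a g r w (St.o (i + 1)) := by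
    intro i
    have h1 := h.o1 hw (i + 1)
    have h2 : (1 - p) * (fr r i * sQ p r w) ≤ (1 - a) * (fr r i * sQ p r w) :=
      mul_le_mul_of_nonneg_right (by linarith) (hfQ0 i)
    have h3 : (1 - a) * (fr r i * sQ p r w) ≤ (1 - a) * (fr r i * VV a g r w (St.c 0)) :=
      mul_le_mul_of_nonneg_left (hfQ i) (by linarith)
    linarith
  have hE : ∀ i, sF p r (true :: w) i ≤
      (1 - a) * fr r i * VV a g r w (St.c 0) + VV a g r w (St.o (i + 1)) := by
    intro i
    rw [sF_true]
    exact hS i
  have hE0 : ∀ i, 0 ≤ sF p r (true :: w) i := sF_nonneg hp0 hp1 hr hrn _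
  refine ⟨?_, ?_, ?_, ?_, ?_⟩
  · have h1 := sQ_true hp0 hp1 hr hrn w
    change _ ≤ (1 - a) * ((1 - a) * fr r 0 * VV a g r w (St.c 0) + VV a g r w (St.o (0 + 1)))
    have h2 : (1 - p) * sF p r (true :: w) 0 ≤ (1 - a) * sF p r (true :: w) 0 :=
      mul_le_mul_of_nonneg_right (by linarith) (hE0 0)
    have h3 := mul_le_mul_of_nonneg_left (hE 0) (by linarith : 0 ≤ 1 - a)
    linarith
  · rw [sD_true]
    change _ ≤ (1 - g) * ((1 - a) * fr r 1 * VV a g r w (St.c 0) + VV a g r w (St.o (1 + 1)))
    have h5 : (1 - p ^ 2 * (1 - p)) * sF p r (true :: w) 1 ≤ (1 - g) * sF p r (true :: w) 1 :=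
      mul_le_mul_of_nonneg_right (by linarith) (hE0 1)
    have hg1 : 0 ≤ 1 - g := by
      have : p ^ 2 * (1 - p) ≤ 1 := by nlinarith
      linarith
    have h3 := mul_le_mul_of_nonneg_left (hE 1) hg1
    have e : p * (1 - p) * ((1 - p) * sF p r (true :: w) 1) +
        (1 - p * (1 - p)) * sF p r (true :: w) 1 =
        (1 - p ^ 2 * (1 - p)) * sF p r (true :: w) 1 := by ring
    rw [e]
    linarith
  · intro i
    have h1 := hE (i + 2)
    change _ ≤ (1 - 0) * ((1 - a) * fr r (i + 2) * VV a g r w (St.c 0) +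
      VV a g r w (St.o (i + 2 + 1)))
    rw [sub_zero, one_mul]
    exact h1
  · intro _ i
    have h1 := hE i
    change _ ≤ (1 - a) * fr r i * VV a g r w (St.c 0) + VV a g r w (St.o (i + 1))
    have e : p * sT p r (true :: w) i + (1 - p) * sF p r (true :: w) i = sF p r (true :: w) i := by
      rw [sT_true, sF_true]
      ring
    rw [e]
    exact h1
  · intro i
    exact hE i

theorem strip {a g p : ℝ} {r : ℕ → ℝ} (ha0 : 0 ≤ a) (hap : a ≤ p) (hp1 : p ≤ 1) (hg0 : 0 ≤ g)
    (hgp : g ≤ p ^ 2 * (1 - p)) (hr : Antitone r) (hr0 : r 0 = 1) (hrn : ∀ n, 0 ≤ r n)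
    (w : List Bool) (i : ℕ) :
    EE p (pad w) (fun T => VR r (phi false T) i) ≤ VV a g r (pad w) (St.c i) := by
  have _ := hr0
  have hF : ∀ {w : List Bool}, Str a g p r w → Str a g p r (false :: w) :=
    fun h => Str_false ha0 hap hp1 hgp hr hrn h
  have h1 : ∀ w : List Bool, Str a g p r (w ++ [false]) := by
    intro w
    induction w with
    | nil => exact hF Str_nil
    | cons x w ih =>
      cases x with
      | false => exact hF ih
      | true => exact Str_true ha0 hap hp1 hg0 hgp hr hrn (by simp) ih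
  have h2 := hF (hF (h1 w))
  change sF p r (pad w) i ≤ _
  match i with
  | 0 =>
    have h3 := h2.c1
    have h4 : sQ p r (pad w) = sF p r (pad w) 0 := by
      unfold sQ sF pad
      simp [EE, hitL, nind]
    rw [← h4]
    exact h3
  | 1 =>
    have h3 := h2.c2
    have h4 : sD p r (pad w) = sF p r (pad w) 1 := sD_false _
    have h5 : p * (1 - p) * sD p r (pad w) + (1 - p * (1 - p)) * sF p r (pad w) 1 =
        sF p r (pad w) 1 := by
      rw [h4]
      ring
    rw [← h5]
    exact h3
  | i + 2 => exact h2.c3 i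

end Pool.Agent.Helper96.PK
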