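import Pool.Agent.Helper96.PK.OneStep

set_option autoImplicit false

/-!
# PK-27: survival in terms of averages

* `phi_length`, `trip_length`, `Wf_length`: `(Wf n e).length = 3 n + 1` if `e.length = Nn n`
  (induction; `(pad w).length = w.length + 3`, and `trip (pad w) e` has length `(pad w).length` if
  `e.length = 2 * (pad w).length`).
* `Avg_Wf`: induction on `n`: `Nn (n+1) = Nn n + 2 (3n+4)`, `Avg_add`, for `x` of length `Nn n` and `y`
  `(x ++ y).take (Nn n) = x`, `(x ++ y).drop (Nn n) = y` (`Avg_congr`), `one_step` for `w = Wf n x`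
  (`w.length + 3 = 3n + 4`), `Avg_mono`. `n = 0`: `RR_true`.
* `survive`: the indicator of `true ∈ Wf n l` is `≥ 1 - RR (Wf n l)` (`RR_eq_one`, `RR_nonneg`).
-/

namespace Pool.Agent.Helper96.PK

private theorem phi_length (c : Bool) (T : List Tr) : (phi c T).length = T.length := by
  induction T generalizing c with
  | nil => rfl
  | cons t T ih =>
    obtain ⟨x, l, r⟩ := t
    simp only [phi, List.length_cons, ih]

private theorem trip_length (w : List Bool) : ∀ e : List Bool, e.length = 2 * w.length →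
    (trip w e).length = w.length := by
  induction w with
  | nil =>
    intro e _
    cases e <;> rfl
  | cons x w ih =>
    intro e he
    match e, he with
    | [], he => simp at he
    | [l], he =>
      simp only [List.length_cons, List.length_nil] at he
      omega
    | l :: r :: e, he =>
      simp only [List.length_cons] at he
      simp only [trip, List.length_cons]
      rw [ih e (by omega)]

private theorem pad_length (w : List Bool) : (pad w).length = w.length + 3 := by
  simp [pad]

private theorem Wf_append (n : ℕ) (x y : List Bool) (hx : x.length = Nn n) :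
    Wf (n + 1) (x ++ y) = step (Wf n x) y := by
  simp only [Wf]
  rw [List.take_left' hx, List.drop_left' hx]

theorem Wf_length (n : ℕ) (e : List Bool) (he : e.length = Nn n) : (Wf n e).length = 3 * n + 1 := by
  induction n generalizing e with
  | zero => rfl
  | succ n ih =>
    have h1 : Nn (n + 1) = Nn n + 2 * (3 * n + 4) := rfl
    rw [h1] at he
    have h2 : (e.take (Nn n)).length = Nn n := by
      rw [List.length_take]
      omega
    have h3 : (e.drop (Nn n)).length = 2 * (3 * n + 4) := by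
      rw [List.length_drop]
      omega
    have h4 := ih _ h2
    have h5 : (pad (Wf n (e.take (Nn n)))).length = 3 * n + 4 := by
      rw [pad_length, h4]
    simp only [Wf, step]
    rw [phi_length, trip_length _ _ (by rw [h5, h3]), h5]
    ring

theorem Avg_Wf {a g ρ κ p : ℝ} (h : Good a g ρ κ) (hap : a ≤ p) (hp1 : p ≤ 1)
    (hgp : g ≤ p ^ 2 * (1 - p)) (n : ℕ) :
    Avg p (Nn n) (fun l => RR (rr (ρ * (1 - ρ))) ρ (Wf n l)) ≤ 1 - ρ := by
  have hp0 : 0 ≤ p := h.a0.le.trans hap
  induction n with
  | zero =>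
    have h1 : Avg p (Nn 0) (fun l => RR (rr (ρ * (1 - ρ))) ρ (Wf 0 l)) =
      RR (rr (ρ * (1 - ρ))) ρ [true] := rfl
    rw [h1, RR_true (rr_zero _)]
  | succ n ih =>
    have h1 : Nn (n + 1) = Nn n + 2 * (3 * n + 4) := rfl
    rw [h1, Avg_add]
    refine le_trans (Avg_mono hp0 hp1 _ fun x hx => ?_) ih
    have h2 : (fun y => RR (rr (ρ * (1 - ρ))) ρ (Wf (n + 1) (x ++ y))) =
        fun y => RR (rr (ρ * (1 - ρ))) ρ (step (Wf n x) y) := by
      funext y
      rw [Wf_append n x y hx]
    rw [h2]
    have h3 := one_step h hap hp1 hgp (Wf n x)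
    rw [Wf_length n x hx] at h3
    exact h3

theorem survive {a g ρ κ p : ℝ} (h : Good a g ρ κ) (hap : a ≤ p) (hp1 : p ≤ 1)
    (hgp : g ≤ p ^ 2 * (1 - p)) (n : ℕ) :
    ρ ≤ Avg p (Nn n) (fun l => if true ∈ Wf n l then 1 else 0) := by
  have hp0 : 0 ≤ p := h.a0.le.trans hap
  have hs := s_pos h.ρ0 h.ρ1
  have h4 := four_s_lt h.ρ0
  have hr := rr_antitone hs h4
  have hr0 := rr_zero (ρ * (1 - ρ))
  have hrn : ∀ n, 0 ≤ rr (ρ * (1 - ρ)) n := fun n => (rr_pos hs n).le
  have hsum := summable_rr h.ρ0 h.ρ1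
  have hts := tsum_rr h.ρ0 h.ρ1
  have hρ0 : 0 < ρ := lt_trans (by norm_num) h.ρ0
  have h1 := Avg_Wf h hap hp1 hgp n
  have h2 : Avg p (Nn n) (fun l => 1 - RR (rr (ρ * (1 - ρ))) ρ (Wf n l)) ≤
      Avg p (Nn n) (fun l => if true ∈ Wf n l then 1 else 0) := by
    refine Avg_mono hp0 hp1 _ fun l _ => ?_
    by_cases hl : true ∈ Wf n l
    · rw [if_pos hl]
      have h3 := RR_nonneg hr hr0 hrn hsum hts hρ0 (Wf n l)
      linarith
    · rw [if_neg hl, RR_eq_one hr hr0 hrn hsum hts _ hl, sub_self]
  rw [Avg_sub (Nn n) (fun _ => 1) (fun l => RR (rr (ρ * (1 - ρ))) ρ (Wf n l)), Avg_const] at h2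
  linarith

end Pool.Agent.Helper96.PK
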