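import Pool.Agent.Helper96.PK.GamT
import Pool.Agent.Helper96.PK.Cat3

set_option autoImplicit false

/-!
# PK-09: positivity of `Γ_n` on the words `1 0^d`

Write `b = b_n > 0`, `B = B_n ≥ 0`, `E = e2_n ≤ 0`, `δ = dl n`, `e1 = δ - g b - B - E`, and
`Λ ≥ 0` is `δ ≥ κ (2 g b + B - E)`.
* `d ≥ 1` (`Gam_true_zeros`): the value is
  `δ G_d + g b (G_(d+2) - G_(d+1)) + (g b + B) (G_(d+1) - G_d) + (-E) (G_d - G_(d-1))`
  `≥ G_d (δ - κ (g b + g b + B - E)) ≥ 0`, by `Good.G` for `e = d+2, d+1, d` and `G_d ≥ 0`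
  (`f ≥ 0`, `u ≥ ρ ≥ 0`, `pu ≥ 0`).
* `d = 0` (`Gam_true`): with `a (b - x) = B + g f_0 b` the value is
  `(1-a) f_i (δ - E) + B ((1 - g/a) f_(i+1) - (1-a)(1-f_0) f_i)`
  `+ g b ((1 - g/a) f_0 f_(i+1) + f_(i+2) - (1-a) (1 - f_0^2 - f_1) f_i) ≥ 0` by `Good.H`, `Good.H'`
  and `δ ≥ 0`.
-/

namespace Pool.Agent.Helper96.PK

private theorem ff_nn {a g ρ κ : ℝ} (h : Good a g ρ κ) (i : ℕ) : 0 ≤ ff (ρ * (1 - ρ)) i :=
  (ff_pos (s_pos h.ρ0 h.ρ1) (four_s_lt h.ρ0) i).le

private theorem uu_nn {a g ρ κ : ℝ} (h : Good a g ρ κ) (i : ℕ) : 0 ≤ uu (ρ * (1 - ρ)) i := by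
  have h1 := le_uu h.ρ0 h.ρ1 i
  have h2 := h.ρ0
  linarith

private theorem pu_nn {a g ρ κ : ℝ} (h : Good a g ρ κ) (k j : ℕ) :
    0 ≤ pu (ρ * (1 - ρ)) k j :=
  Finset.sum_nonneg (fun _ _ => mul_nonneg (ff_nn h _) (uu_nn h _))

theorem GG_nonneg {a g ρ κ : ℝ} (h : Good a g ρ κ) (d i : ℕ) : 0 ≤ GG a g (ρ * (1 - ρ)) d i := by
  have ha : 0 ≤ 1 - a := by have := h.a1; linarith
  have hg : 0 ≤ 1 - g := by have := h.a1; have := h.ga; linarith
  match d with
  | 0 =>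
    rw [GG]
    exact mul_nonneg ha (ff_nn h i)
  | 1 =>
    rw [GG]
    exact add_nonneg (mul_nonneg (mul_nonneg ha (ff_nn h i)) (uu_nn h 1))
      (mul_nonneg hg (ff_nn h (i + 1)))
  | d + 2 =>
    rw [GG]
    exact add_nonneg (add_nonneg (mul_nonneg (mul_nonneg ha (ff_nn h i)) (uu_nn h (d + 2)))
      (mul_nonneg (mul_nonneg hg (ff_nn h (i + 1))) (uu_nn h (d + 1)))) (pu_nn h d (i + 2))

private theorem bb_nn {a g ρ κ : ℝ} (h : Good a g ρ κ) (n : ℕ) : 0 ≤ bb (ρ * (1 - ρ)) n :=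
  (bb_pos (s_pos h.ρ0 h.ρ1) n).le

theorem dl_nonneg {a g ρ κ : ℝ} (h : Good a g ρ κ) (n : ℕ) : 0 ≤ dl a g (ρ * (1 - ρ)) n := by
  have h1 := h.L n
  unfold Lam at h1
  have h2 : 0 ≤ κ * (2 * g * bb (ρ * (1 - ρ)) n + Bn a g (ρ * (1 - ρ)) n -
      e2 a g (ρ * (1 - ρ)) n) := by
    refine mul_nonneg h.κ0 ?_
    have h3 := mul_nonneg h.g0 (bb_nn h n)
    have h4 := h.B n
    have h5 := h.E n
    linarith
  linarith

theorem T_nonneg {a g ρ κ : ℝ} (h : Good a g ρ κ) (n d i : ℕ) :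
    0 ≤ Gam a g (ρ * (1 - ρ)) n (true :: zeros d) (St.q i) := by
  have hb := bb_nn h n
  have hB := h.B n
  have hE := h.E n
  have hL := h.L n
  have hgb := mul_nonneg h.g0 hb
  rcases Nat.eq_zero_or_pos d with hd | hd
  · subst hd
    have ha := h.a0
    have hz : (true :: zeros 0) = [true] := rfl
    rw [hz, Gam_true]
    have hdl := dl_nonneg h n
    have hH := h.H i
    have hH' := h.H' i
    have hf := ff_nn h i
    have he1 : e1 a g (ρ * (1 - ρ)) n = dl a g (ρ * (1 - ρ)) n - g * bb (ρ * (1 - ρ)) n -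
        Bn a g (ρ * (1 - ρ)) n - e2 a g (ρ * (1 - ρ)) n := by
      unfold dl
      ring
    have hax : bb (ρ * (1 - ρ)) n - xx a g (ρ * (1 - ρ)) n =
        (Bn a g (ρ * (1 - ρ)) n + g * ff (ρ * (1 - ρ)) 0 * bb (ρ * (1 - ρ)) n) / a := by
      unfold Bn
      field_simp
      ring
    rw [he1, hax]
    generalize ρ * (1 - ρ) = s at *
    generalize bb s n = b at *
    generalize Bn a g s n = B at *
    generalize e2 a g s n = E at *
    generalize dl a g s n = D at *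
    generalize ff s i = fi at *
    generalize ff s (i + 1) = fi1 at *
    generalize ff s (i + 2) = fi2 at *
    generalize ff s 0 = f0 at *
    generalize ff s 1 = f1 at *
    have key : (1 - a) * fi * (a * f0 * ((B + g * f0 * b) / a) + g * f1 * b + (D - g * b - B - E)) +
        ((a - g) * fi1 * ((B + g * f0 * b) / a) + g * fi2 * b) =
        (1 - a) * fi * (D - E) + B * ((1 - g / a) * fi1 - (1 - a) * (1 - f0) * fi) +
        g * b * ((1 - g / a) * f0 * fi1 + fi2 - (1 - a) * (1 - f0 ^ 2 - f1) * fi) := by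
      field_simp
      ring
    rw [key]
    have ha1 : 0 ≤ 1 - a := by have := h.a1; linarith
    have h1 : 0 ≤ (1 - a) * fi * (D - E) := mul_nonneg (mul_nonneg ha1 hf) (by linarith)
    have h2 : 0 ≤ B * ((1 - g / a) * fi1 - (1 - a) * (1 - f0) * fi) :=
      mul_nonneg hB (by linarith)
    have h3 : 0 ≤ g * b * ((1 - g / a) * f0 * fi1 + fi2 - (1 - a) * (1 - f0 ^ 2 - f1) * fi) :=
      mul_nonneg hgb (by linarith)
    linarith
  · rw [Gam_true_zeros a g _ n d i hd]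
    have g0 := h.G i d hd d le_rfl (by omega)
    have g1 := h.G i d hd (d + 1) (by omega) (by omega)
    have g2 := h.G i d hd (d + 2) (by omega) le_rfl
    have hGd := GG_nonneg h d i
    have e1' : d + 1 - 1 = d := by omega
    have e2' : d + 2 - 1 = d + 1 := by omega
    rw [e1'] at g1
    rw [e2'] at g2
    have he1 : e1 a g (ρ * (1 - ρ)) n = dl a g (ρ * (1 - ρ)) n - g * bb (ρ * (1 - ρ)) n -
        Bn a g (ρ * (1 - ρ)) n - e2 a g (ρ * (1 - ρ)) n := by
      unfold dl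
      ring
    rw [he1]
    unfold Lam at hL
    generalize ρ * (1 - ρ) = s at *
    generalize bb s n = b at *
    generalize Bn a g s n = B at *
    generalize e2 a g s n = E at *
    generalize dl a g s n = D at *
    generalize GG a g s (d + 2) i = G2 at *
    generalize GG a g s (d + 1) i = G1 at *
    generalize GG a g s (d - 1) i = Gm at *
    generalize GG a g s d i = G0 at *
    have m2 := mul_le_mul_of_nonneg_left g2 hgb
    have m1 := mul_le_mul_of_nonneg_left g1 (add_nonneg hgb hB)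
    have m0 := mul_le_mul_of_nonneg_left g0 (neg_nonneg.2 hE)
    have mL := mul_nonneg hGd hL
    have key : g * b * G2 + B * G1 + (D - g * b - B - E) * G0 + E * Gm =
        D * G0 + g * b * (G2 - G1) + (g * b + B) * (G1 - G0) + (-E) * (G0 - Gm) := by ring
    rw [key]
    nlinarith [m2, m1, m0, mL]

end Pool.Agent.Helper96.PK
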