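import Pool.Agent.Helper96.PK.Cat2

set_option autoImplicit false

/-!
# PK-04: the sequence `x`

* `xx_eq`: unfold `xx` once (`rw [xx]`), turn the sum over `Fin n` into a sum over `range n`
  (`Finset.sum_range`) and reflect it (`Finset.sum_range_reflect`).
* `xx_zero`: `x_0 = (1-a) ((1-a) + (a - g f_0) s + g s^2)` and `A = 1 - a (1-s) - g (s - 2 s^2)`.
* `xx_nonneg`: strong induction with `xx_eq`; `a - g f_0 ≥ a - g ≥ 0`, `b ≥ 0`, `f ≥ 0`.
* `mul_conv_f_x`, `mul_conv_f_x'`, `mul_conv_f_x''`: `xx_eq` for `n`, `n+1`, `n+2` and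
  `Finset.sum_range_succ`.
-/

namespace Pool.Agent.Helper96.PK

theorem xx_eq (a g s : ℝ) (n : ℕ) :
    xx a g s n = (1 - a) ^ 2 * ∑ k ∈ Finset.range n, ff s k * xx a g s (n - 1 - k) +
      (1 - a) * ((if n = 0 then 1 - a else 0) + (a - g * ff s 0) * bb s n + g * bb s (n + 1)) := by
  rw [xx]
  congr 2
  have h := Finset.sum_range_reflect (fun k => ff s k * xx a g s (n - 1 - k)) n
  rw [← h, Finset.sum_range]
  apply Finset.sum_congr rfl
  intro k _
  have hk := k.2
  have h2 : n - 1 - (n - 1 - (k : ℕ)) = k := by omega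
  simp only [h2]

theorem xx_zero (a g s : ℝ) : xx a g s 0 = (1 - a) * A1 a g s := by
  rw [xx_eq, A1, ff_zero, ff_one, bb_zero, bb_one]
  simp only [Finset.range_zero, Finset.sum_empty, if_true]
  ring

theorem xx_nonneg {a g s : ℝ} (ha0 : 0 ≤ a) (ha : a ≤ 1) (hg : 0 ≤ g) (hga : g ≤ a) (hs : 0 < s)
    (h4 : 4 * s < 1) (n : ℕ) : 0 ≤ xx a g s n := by
  induction n using Nat.strong_induction_on with
  | _ n ih =>
    rw [xx_eq]
    have h1 : 0 ≤ ∑ k ∈ Finset.range n, ff s k * xx a g s (n - 1 - k) := by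
      apply Finset.sum_nonneg
      intro k hk
      have hk' := Finset.mem_range.1 hk
      exact mul_nonneg (ff_pos hs h4 k).le (ih _ (by omega))
    have h2 : 0 ≤ (if n = 0 then 1 - a else 0 : ℝ) := by
      split_ifs
      · linarith
      · exact le_refl 0
    have h3 : 0 ≤ (a - g * ff s 0) * bb s n := by
      apply mul_nonneg _ (bb_pos hs n).le
      rw [ff_zero]
      nlinarith [mul_nonneg hg hs.le]
    have h5 : 0 ≤ g * bb s (n + 1) := mul_nonneg hg (bb_pos hs _).le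
    have h6 : 0 ≤ 1 - a := by linarith
    have h7 : 0 ≤ (if n = 0 then 1 - a else 0 : ℝ) + (a - g * ff s 0) * bb s n +
        g * bb s (n + 1) := by linarith
    have h8 := mul_nonneg h6 h7
    have h9 := mul_nonneg (sq_nonneg (1 - a)) h1
    linarith

/-- `n ≥ 1`: `m ∑_{k<n} f_k x_{n-1-k}`. -/
theorem mul_conv_f_x (a g s : ℝ) {n : ℕ} (hn : 1 ≤ n) :
    (1 - a) ^ 2 * ∑ k ∈ Finset.range n, ff s k * xx a g s (n - 1 - k) =
      xx a g s n - (1 - a) * ((a - g * ff s 0) * bb s n + g * bb s (n + 1)) := by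
  rw [xx_eq a g s n, if_neg (by omega)]
  ring

/-- `m ∑_{k<n} f_k x_{n-k}`. -/
theorem mul_conv_f_x' (a g s : ℝ) (n : ℕ) :
    (1 - a) ^ 2 * ∑ k ∈ Finset.range n, ff s k * xx a g s (n - k) =
      xx a g s (n + 1) - (1 - a) * ((a - g * ff s 0) * bb s (n + 1) + g * bb s (n + 2)) -
        (1 - a) ^ 2 * ff s n * xx a g s 0 := by
  have h := mul_conv_f_x a g s (n := n + 1) (by omega)
  rw [Finset.sum_range_succ] at h
  simp only [Nat.add_sub_cancel, Nat.sub_self] at h
  linear_combination h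

/-- `m ∑_{k<n} f_k x_{n+1-k}`. -/
theorem mul_conv_f_x'' (a g s : ℝ) (n : ℕ) :
    (1 - a) ^ 2 * ∑ k ∈ Finset.range n, ff s k * xx a g s (n + 1 - k) =
      xx a g s (n + 2) - (1 - a) * ((a - g * ff s 0) * bb s (n + 2) + g * bb s (n + 3)) -
        (1 - a) ^ 2 * (ff s (n + 1) * xx a g s 0 + ff s n * xx a g s 1) := by
  have h := mul_conv_f_x a g s (n := n + 2) (by omega)
  rw [Finset.sum_range_succ, Finset.sum_range_succ] at h
  have h1 : n + 2 - 1 - n = 1 := by omega
  have h2 : n + 2 - 1 - (n + 1) = 0 := by omega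
  have h3 : n + 2 - 1 = n + 1 := by omega
  rw [h1, h2] at h
  simp only [h3] at h
  linear_combination h

end Pool.Agent.Helper96.PK
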